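import Mathlib

/-!
# Abstract simultaneous monotone path problem: definitions and elementary facts
-/

namespace Pool.Agent.DPO

open Relation

/-- Abstract path problem: nodes `N`, path indices `κ`, coordinates `δ l`, transitions `T l`
(which increase the `l`-th coordinate by at least the change of every other coordinate),
conflicts `Inc` between nodes with the same coordinates, start and final nodes. -/
structure Abs (κ N : Type*) where
  δ : κ → N → ℤ
  T : κ → N → N → Prop
  Inc : N → N → Prop
  S : κ → N → Prop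
  F : κ → N → Prop
  lip : ∀ l m x y, T l x y → |δ m y - δ m x| ≤ δ l y - δ l x
  inc : ∀ l x y, T l x y → δ l x < δ l y
  symm : ∀ x y, Inc x y → Inc y x
  loc : ∀ x y, Inc x y → ∀ m, δ m x = δ m y

variable {κ N : Type*} (A : Abs κ N)

namespace Abs

/-- The order associated with the coordinate `l`. -/
def Le (l : κ) (x y : N) : Prop := ∀ m, |A.δ m y - A.δ m x| ≤ A.δ l y - A.δ l x

variable {A}

theorem Le.refl (l : κ) (x : N) : A.Le l x x := fun m => by simp

theorem Le.trans {l : κ} {x y z : N} (h : A.Le l x y) (h' : A.Le l y z) : A.Le l x z := by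
  intro m
  have h1 := h m
  have h2 := h' m
  rw [abs_le] at *
  constructor <;> linarith

theorem Le.of_T {l : κ} {x y : N} (h : A.T l x y) : A.Le l x y := fun m => A.lip l m x y h

theorem Le.le {l : κ} {x y : N} (h : A.Le l x y) : A.δ l x ≤ A.δ l y := by
  have := (abs_nonneg _).trans (h l)
  linarith

variable (A)

/-- A conflict free family of paths. -/
structure Solution (P : κ → List N) : Prop where
  ne : ∀ l, P l ≠ []
  chain : ∀ l, (P l).IsChain (A.T l)
  start : ∀ l, A.S l ((P l).head (ne l))
  final : ∀ l, A.F l ((P l).getLast (ne l))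
  free : ∀ l m, l ≠ m → ∀ x ∈ P l, ∀ y ∈ P m, ¬ A.Inc x y

variable {A}

theorem Solution.pairwise {P : κ → List N} (h : A.Solution P) (l : κ) :
    (P l).Pairwise (fun x y => A.Le l x y ∧ A.δ l x < A.δ l y) := by
  have h1 : (P l).IsChain (fun x y => A.Le l x y ∧ A.δ l x < A.δ l y) :=
    (h.chain l).imp fun x y hxy => ⟨Le.of_T hxy, A.inc l x y hxy⟩
  have : IsTrans N (fun x y => A.Le l x y ∧ A.δ l x < A.δ l y) :=
    ⟨fun x y z h h' => ⟨h.1.trans h'.1, h.2.trans h'.2⟩⟩
  exact List.isChain_iff_pairwise.mp h1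

theorem Solution.comparable {P : κ → List N} (h : A.Solution P) (l : κ) {x y : N}
    (hx : x ∈ P l) (hy : y ∈ P l) : A.Le l x y ∨ A.Le l y x := by
  have h1 := h.pairwise l
  by_cases hxy : x = y
  · left; rw [hxy]; exact Le.refl l y
  · have h2 : (P l).Pairwise (fun x y => A.Le l x y ∨ A.Le l y x) := h1.imp fun h => Or.inl h.1
    have : Std.Symm (fun x y => A.Le l x y ∨ A.Le l y x) := ⟨fun x y h => Or.symm h⟩
    exact h2.forall hx hy hxy

end Abs

/-! ### Separation lemma -/

theorem exists_gt_of_list {N : Type*} (f : N → ℤ) (P : List N) : ∃ c : ℤ, ∀ x ∈ P, f x < c := by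
  induction P with
  | nil => exact ⟨0, by simp⟩
  | cons a P ih =>
    obtain ⟨c, hc⟩ := ih
    refine ⟨max c (f a + 1), fun x hx => ?_⟩
    rcases List.mem_cons.mp hx with rfl | h
    · exact lt_of_lt_of_le (lt_add_one _) (le_max_right _ _)
    · exact lt_of_lt_of_le (hc x h) (le_max_left _ _)

/-- Separation of a comonotone family from an antimonotone family. -/
theorem exists_sep {N : Type*} (P Q : List N) (f g : N → ℤ)
    (hP : ∀ x ∈ P, ∀ y ∈ P, f x < f y → g x ≤ g y)
    (hQ : ∀ x ∈ Q, ∀ y ∈ Q, f x < f y → g y ≤ g x) :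
    ∃ c : ℤ, (∀ x ∈ P, ∀ y ∈ Q, f x < c → f y < c → g x ≤ g y) ∧
      (∀ x ∈ P, ∀ y ∈ Q, c < f x → c < f y → g y ≤ g x) := by
  classical
  set S := (P.toFinset ×ˢ Q.toFinset).filter (fun p => g p.2 < g p.1) with hS
  by_cases hne : S.Nonempty
  · obtain ⟨p, hp, hmin⟩ := S.exists_min_image (fun p => max (f p.1) (f p.2)) hne
    have hp' := hp
    rw [hS, Finset.mem_filter, Finset.mem_product, List.mem_toFinset, List.mem_toFinset] at hp'
    refine ⟨max (f p.1) (f p.2), ?_, ?_⟩
    · intro x hx y hy hxc hyc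
      by_contra hlt
      push Not at hlt
      have hmem : (x, y) ∈ S := by
        rw [hS, Finset.mem_filter, Finset.mem_product, List.mem_toFinset, List.mem_toFinset]
        exact ⟨⟨hx, hy⟩, hlt⟩
      have := hmin _ hmem
      simp only at this
      have h2 : max (f x) (f y) < max (f p.1) (f p.2) := max_lt hxc hyc
      omega
    · intro x hx y hy hxc hyc
      have h1 : f p.1 < f x := lt_of_le_of_lt (le_max_left _ _) hxc
      have h2 : f p.2 < f y := lt_of_le_of_lt (le_max_right _ _) hyc
      have h3 := hP _ hp'.1.1 _ hx h1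
      have h4 := hQ _ hp'.1.2 _ hy h2
      have h5 := hp'.2
      omega
  · rw [Finset.not_nonempty_iff_eq_empty] at hne
    obtain ⟨c, hc⟩ := exists_gt_of_list f P
    refine ⟨c, ?_, ?_⟩
    · intro x hx y hy _ _
      by_contra hlt
      push Not at hlt
      have hmem : (x, y) ∈ S := by
        rw [hS, Finset.mem_filter, Finset.mem_product, List.mem_toFinset, List.mem_toFinset]
        exact ⟨⟨hx, hy⟩, hlt⟩
      rw [hne] at hmem
      simp at hmem
    · intro x hx y hy h1 _
      have := hc x hx
      omega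

end Pool.Agent.DPO
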