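import Pool.Agent.PT.More

/-!
# Reachability in a digraph given by a list of vertices, and all lists of a given length
-/

namespace Pool.Agent.DPO

open Pool.Agent.PT Relation

/-- One step of breadth-first search. -/
def reachStep {σ : Type*} [DecidableEq σ] (V : List σ) (E : σ → σ → Bool) (R : List σ) : List σ :=
  V.filter (fun v => R.any (fun u => decide (u = v) || E u v))

/-- The vertices reachable from `s`. -/
def reachL {σ : Type*} [DecidableEq σ] (V : List σ) (E : σ → σ → Bool) (s : σ) : List σ :=
  (reachStep V E)^[V.length] [s]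

theorem mem_reachStep {σ : Type*} [DecidableEq σ] {V : List σ} {E : σ → σ → Bool} {R : List σ}
    {t : σ} : t ∈ reachStep V E R ↔ t ∈ V ∧ ∃ u ∈ R, u = t ∨ E u t = true := by
  simp [reachStep]

theorem mem_reachL {σ : Type*} [DecidableEq σ] {V : List σ} {E : σ → σ → Bool} {s t : σ}
    (hs : s ∈ V) :
    t ∈ reachL V E s ↔ ReflTransGen (fun u v => v ∈ V ∧ E u v = true) s t := by
  classical
  have hsub : ∀ i, ∀ x ∈ (reachStep V E)^[i] [s], x ∈ V := by
    intro i
    cases i with
    | zero => intro x hx; simp at hx; rw [hx]; exact hs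
    | succ i =>
      intro x hx
      rw [Function.iterate_succ_apply'] at hx
      exact (mem_reachStep.1 hx).1
  have hmono : ∀ i, ∀ x ∈ (reachStep V E)^[i] [s], x ∈ (reachStep V E)^[i + 1] [s] := by
    intro i x hx
    rw [Function.iterate_succ_apply']
    exact mem_reachStep.2 ⟨hsub i x hx, x, hx, Or.inl rfl⟩
  have hstep : ∀ i, (∀ x, x ∈ (reachStep V E)^[i + 1] [s] → x ∈ (reachStep V E)^[i] [s]) →
      (∀ x, x ∈ (reachStep V E)^[i + 2] [s] → x ∈ (reachStep V E)^[i + 1] [s]) := by
    intro i h x hx
    rw [Function.iterate_succ_apply'] at hx ⊢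
    obtain ⟨h1, u, hu, h2⟩ := mem_reachStep.1 hx
    exact mem_reachStep.2 ⟨h1, u, h u hu, h2⟩
  have hcard : ∀ i, (∀ x, x ∈ (reachStep V E)^[i + 1] [s] → x ∈ (reachStep V E)^[i] [s]) ∨
      i + 1 ≤ ((reachStep V E)^[i] [s]).toFinset.card := by
    intro i
    induction i with
    | zero => right; simp
    | succ i ih =>
      rcases ih with ih | ih
      · exact Or.inl (hstep i ih)
      · by_cases h : ∀ x, x ∈ (reachStep V E)^[i + 1] [s] → x ∈ (reachStep V E)^[i] [s]
        · exact Or.inl (hstep i h)
        · right
          refine Nat.succ_le_of_lt (lt_of_le_of_lt ih (Finset.card_lt_card ?_))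
          rw [Finset.ssubset_iff_subset_ne]
          refine ⟨fun x hx => ?_, fun h' => h fun x hx => ?_⟩
          · rw [List.mem_toFinset] at hx ⊢
            exact hmono i x hx
          · rw [← List.mem_toFinset, h', List.mem_toFinset]
            exact hx
  have hstab : ∀ x, x ∈ (reachStep V E)^[V.length + 1] [s] → x ∈ (reachStep V E)^[V.length] [s] := by
    rcases hcard V.length with h | h
    · exact h
    · exfalso
      have h1 : ((reachStep V E)^[V.length] [s]).toFinset ⊆ V.toFinset := by
        intro x hx
        rw [List.mem_toFinset] at hx ⊢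
        exact hsub _ x hx
      have h2 := Finset.card_le_card h1
      have h3 := List.toFinset_card_le V
      omega
  have hreach : ∀ i, ∀ x ∈ (reachStep V E)^[i] [s],
      ReflTransGen (fun u v => v ∈ V ∧ E u v = true) s x := by
    intro i
    induction i with
    | zero => intro x hx; simp at hx; rw [hx]
    | succ i ih =>
      intro x hx
      rw [Function.iterate_succ_apply'] at hx
      obtain ⟨h1, u, hu, h2⟩ := mem_reachStep.1 hx
      rcases h2 with rfl | h2
      · exact ih _ hu
      · exact (ih u hu).tail ⟨h1, h2⟩
  constructor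
  · exact hreach _ t
  · intro h
    induction h with
    | refl =>
      have : ∀ i, s ∈ (reachStep V E)^[i] [s] := by
        intro i
        induction i with
        | zero => simp
        | succ i ih => exact hmono i s ih
      exact this _
    | @tail b c _ hbc ih =>
      refine hstab c ?_
      rw [Function.iterate_succ_apply']
      exact mem_reachStep.2 ⟨hbc.1, b, ih, Or.inr hbc.2⟩

theorem reachStep_sublist {σ : Type*} [DecidableEq σ] (V : List σ) (E : σ → σ → Bool)
    (R : List σ) : (reachStep V E R).Sublist V := List.filter_sublist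

theorem reachStep_polyTime {α σ : Type*} [Enc α] [Enc σ] [DecidableEq σ] {V : α → List σ}
    {E : α → σ → σ → Bool} {R : α → List σ} (hV : PolyTime V)
    (hE : PolyTime (fun p : α × (σ × σ) => E p.1 p.2.1 p.2.2)) (hR : PolyTime R) :
    PolyTime (fun x => reachStep (V x) (E x) (R x)) := by
  unfold reachStep
  refine PolyTime.filter hV (g := fun x v => (R x).any (fun u => decide (u = v) || E x u v)) ?_
  refine PolyTime.any (l := fun p : α × σ => R p.1)
    (g := fun p u => decide (u = p.2) || E p.1 u p.2) (by fun_prop) ?_
  refine PolyTime.or (PolyTime.decide_eq (by fun_prop) (by fun_prop)) ?_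
  exact hE.comp (f := fun q : (α × σ) × σ => (q.1.1, (q.2, q.1.2))) (by fun_prop)

theorem reachL_polyTime {α σ : Type*} [Enc α] [Enc σ] [DecidableEq σ] {V : α → List σ}
    {E : α → σ → σ → Bool} {s : α → σ} (hV : PolyTime V)
    (hE : PolyTime (fun p : α × (σ × σ) => E p.1 p.2.1 p.2.2)) (hs : PolyTime s) :
    PolyTime (fun x => reachL (V x) (E x) (s x)) := by
  unfold reachL
  have h1 := hV.pbdd
  have h2 := hs.pbdd
  refine PolyTime.iterate' (f := fun x R => reachStep (V x) (E x) R)
    (n := fun x => (V x).length) (g := fun x => [s x])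
    (s := fun x => sz (V x) + sz (s x) + 2) ?_ (by fun_prop) (by fun_prop) (by fun_prop) ?_
  · refine reachStep_polyTime (V := fun p : α × List σ => V p.1) (E := fun p => E p.1)
      (R := fun p => p.2) (by fun_prop) ?_ (by fun_prop)
    exact hE.comp (f := fun q : (α × List σ) × (σ × σ) => (q.1.1, q.2)) (by fun_prop)
  · intro x i _
    cases i with
    | zero => simp
    | succ i =>
      rw [Function.iterate_succ_apply']
      refine (sz_le_of_sublist (reachStep_sublist (V x) (E x) _)).trans ?_
      omega

/-- all lists of length `m` over `X` -/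
def allL {σ : Type*} : ℕ → List σ → List (List σ)
  | 0, _ => [[]]
  | m + 1, X => X.flatMap fun x => (allL m X).map (x :: ·)

theorem mem_allL {σ : Type*} {m : ℕ} {X : List σ} {l : List σ} :
    l ∈ allL m X ↔ l.length = m ∧ ∀ x ∈ l, x ∈ X := by
  induction m generalizing l with
  | zero =>
    simp only [allL, List.mem_singleton]
    constructor
    · rintro rfl; simp
    · rintro ⟨h, _⟩; exact List.length_eq_zero_iff.1 h
  | succ m ih =>
    simp only [allL, List.mem_flatMap, List.mem_map]
    constructor
    · rintro ⟨x, hx, l', hl', rfl⟩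
      obtain ⟨h1, h2⟩ := ih.1 hl'
      refine ⟨by simp [h1], ?_⟩
      intro y hy
      rcases List.mem_cons.1 hy with rfl | hy
      · exact hx
      · exact h2 y hy
    · rintro ⟨h1, h2⟩
      cases l with
      | nil => simp at h1
      | cons x l' =>
        refine ⟨x, h2 x (by simp), l', ih.2 ⟨by simpa using h1, fun y hy => h2 y (by simp [hy])⟩, rfl⟩

theorem allL_polyTime {α σ : Type*} [Enc α] [Enc σ] (m : ℕ) {X : α → List σ} (hX : PolyTime X) :
    PolyTime (fun x => allL m (X x)) := by
  induction m with
  | zero => simp only [allL]; fun_prop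
  | succ m ih =>
    simp only [allL]
    refine PolyTime.flatMap hX (g := fun x y => (allL m (X x)).map (y :: ·)) ?_
    refine PolyTime.map (l := fun p : α × σ => allL m (X p.1)) (g := fun p l => p.2 :: l) ?_
      (by fun_prop)
    exact ih.comp (f := fun p : α × σ => p.1) (by fun_prop)

end Pool.Agent.DPO
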