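import Pool.Agent.DPO.Dist
import Pool.Agent.DPO.Reach

/-!
# The algorithm (definitions)
-/

namespace Pool.Agent.DPO

open Pool.Agent.PT

/-- Data of the algorithm: number of vertices, edges `(u, v, length)` (length a binary natural
number), pairs. -/
abbrev Ctx := ℕ × List (ℕ × ℕ × List Bool) × List (ℕ × ℕ)

/-- nodes -/
abbrev Nd := (ℕ × ℕ) ⊕ (ℕ × Bool)

def eS (Γ : Ctx) (e : ℕ) : ℕ := (Γ.2.1.getD e (0, 0, [])).1
def eT (Γ : Ctx) (e : ℕ) : ℕ := (Γ.2.1.getD e (0, 0, [])).2.1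
def eL (Γ : Ctx) (e : ℕ) : List Bool := (Γ.2.1.getD e (0, 0, [])).2.2
def pS (Γ : Ctx) (l : ℕ) : ℕ := (Γ.2.2.getD l (0, 0)).1
def pT0 (Γ : Ctx) (l : ℕ) : ℕ := (Γ.2.2.getD l (0, 0)).2

/-- distances from the `l`-th source -/
def dO (Γ : Ctx) (l v : ℕ) : Option (List Bool) := bf Γ.1 Γ.2.1 (pS Γ l) v
/-- the `l`-th target, replaced by the source if it is not reachable -/
def pT (Γ : Ctx) (l : ℕ) : ℕ := bif (dO Γ l (pT0 Γ l)).isSome then pT0 Γ l else pS Γ l
def dB (Γ : Ctx) (l v : ℕ) : List Bool := (dO Γ l v).getD []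

def bEq (a b : List Bool) : Bool := ble a b && ble b a
def bLt (a b : List Bool) : Bool := !(ble b a)

/-- zero edges -/
def isZ (Γ : Ctx) (e : ℕ) : Bool := decide (e < Γ.2.1.length) && ble (eL Γ e) []

/-- zero step avoiding the edge number `a` -/
def zE (Γ : Ctx) (a x y : ℕ) : Bool :=
  (List.range Γ.2.1.length).any fun e => isZ Γ e && !(decide (e = a)) &&
    ((decide (eS Γ e = x) && decide (eT Γ e = y)) || (decide (eS Γ e = y) && decide (eT Γ e = x)))

/-- connected by zero edges other than `a` -/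
def zC (Γ : Ctx) (a x y : ℕ) : Bool := decide (y ∈ reachL (List.range Γ.1) (zE Γ a) x)

/-- connected by zero edges -/
def cB (Γ : Ctx) (x y : ℕ) : Bool := zC Γ Γ.2.1.length x y

def opB (Γ : Ctx) (p p' : ℕ × ℕ) : Bool :=
  (List.range Γ.2.1.length).any fun e => isZ Γ e && !(zC Γ e p.1 p.2) && zC Γ e p.1 p'.2 &&
    zC Γ e p'.1 p.2

def tlB (Γ : Ctx) (d : ℕ × Bool) : ℕ := bif d.2 then eS Γ d.1 else eT Γ d.1
def hdB (Γ : Ctx) (d : ℕ × Bool) : ℕ := bif d.2 then eT Γ d.1 else eS Γ d.1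

/-- tight darts -/
def tgB (Γ : Ctx) (l : ℕ) (d : ℕ × Bool) : Bool :=
  decide (d.1 < Γ.2.1.length) && !(ble (eL Γ d.1) []) &&
    bEq (dB Γ l (hdB Γ d)) (badd (dB Γ l (tlB Γ d)) (eL Γ d.1))

def TB (Γ : Ctx) (l : ℕ) : Nd → Nd → Bool
  | .inl p, .inr d => cB Γ p.1 p.2 && tgB Γ l d && decide (tlB Γ d = p.2)
  | .inr d, .inl p => cB Γ p.1 p.2 && tgB Γ l d && decide (hdB Γ d = p.1)
  | .inl _, .inl _ => false
  | .inr _, .inr _ => false

def IB (Γ : Ctx) : Nd → Nd → Bool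
  | .inl p, .inl p' => cB Γ p.1 p.2 && cB Γ p'.1 p'.2 && opB Γ p p'
  | .inr d, .inr d' => decide (d.1 < Γ.2.1.length) && decide (d.1 = d'.1) && !(decide (d.2 = d'.2))
  | .inl _, .inr _ => false
  | .inr _, .inl _ => false

def SB (Γ : Ctx) (l : ℕ) : Nd → Bool
  | .inl p => cB Γ p.1 p.2 && decide (p.1 = pS Γ l)
  | .inr _ => false

def FB (Γ : Ctx) (l : ℕ) : Nd → Bool
  | .inl p => cB Γ p.1 p.2 && decide (p.2 = pT Γ l)
  | .inr _ => false

def δB (Γ : Ctx) (l : ℕ) : Nd → List Bool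
  | .inl p => badd (dB Γ l p.1) (dB Γ l p.1)
  | .inr d => badd (dB Γ l (eS Γ d.1)) (dB Γ l (eT Γ d.1))

def leB (k : ℕ) (Γ : Ctx) (l : ℕ) (x y : Nd) : Bool :=
  (List.range k).all fun m =>
    ble (badd (δB Γ m y) (δB Γ l x)) (badd (δB Γ l y) (δB Γ m x)) &&
    ble (badd (δB Γ m x) (δB Γ l x)) (badd (δB Γ l y) (δB Γ m y))

def btB (k : ℕ) (Γ : Ctx) (l : ℕ) (a x b : Nd) : Bool :=
  leB k Γ l a x && leB k Γ l x b && bLt (δB Γ l a) (δB Γ l x) && bLt (δB Γ l x) (δB Γ l b)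

/-- all nodes -/
def ndL (Γ : Ctx) : List Nd :=
  ((List.range Γ.1).product (List.range Γ.1)).map Sum.inl ++
    ((List.range Γ.2.1.length).product [true, false]).map Sum.inr

/-- segments: first node, last node, root -/
abbrev Sg := Nd × Nd × ℕ

def sgL (k : ℕ) (Γ : Ctx) : List Sg := (ndL Γ).product ((ndL Γ).product (List.range k))

/-- the segment number `j` of the path number `l` -/
def sg (c : List (List Sg)) (l j : ℕ) : Sg := (c.getD l []).getD j (.inl (0, 0), .inl (0, 0), 0)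

/-- the root coordinate is tight on the segment -/
def tsB (Γ : Ctx) (l : ℕ) (u : Sg) : Bool :=
  (bEq (badd (δB Γ u.2.2 u.2.1) (δB Γ l u.1)) (badd (δB Γ l u.2.1) (δB Γ u.2.2 u.1)) &&
      ble (δB Γ u.2.2 u.1) (δB Γ u.2.2 u.2.1)) ||
  (bEq (badd (δB Γ u.2.2 u.1) (δB Γ l u.1)) (badd (δB Γ l u.2.1) (δB Γ u.2.2 u.2.1)) &&
      ble (δB Γ u.2.2 u.2.1) (δB Γ u.2.2 u.1))

def poB (k : ℕ) (Γ : Ctx) (l m : ℕ) (u v : Sg) : Bool :=
  !(IB Γ u.1 v.1) && !(IB Γ u.1 v.2.1) && !(IB Γ u.2.1 v.2.1) &&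
  (decide (u.2.2 = v.2.2) || (ndL Γ).all fun x => (ndL Γ).all fun y =>
    !(btB k Γ l u.1 x u.2.1 && btB k Γ m v.1 y v.2.1 && IB Γ x y))

/-- the static conditions -/
def stB (k B : ℕ) (Γ : Ctx) (c : List (List Sg)) : Bool :=
  (List.range k).all fun l =>
    SB Γ l (sg c l 0).1 && FB Γ l (sg c l B).2.1 &&
    ((List.range B).all fun j => TB Γ l (sg c l j).2.1 (sg c l (j + 1)).1 ||
      decide ((sg c l j).2.1 = (sg c l (j + 1)).1)) &&
    ((List.range (B + 1)).all fun j => tsB Γ l (sg c l j)) &&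
    ((List.range k).all fun m => decide (l = m) || (List.range (B + 1)).all fun j =>
      (List.range (B + 1)).all fun j' => poB k Γ l m (sg c l j) (sg c m j'))

/-- a segment is traversed upwards -/
def upB (Γ : Ctx) (u : Sg) : Bool := ble (δB Γ u.2.2 u.1) (δB Γ u.2.2 u.2.1)

def EB (Γ : Ctx) (l : ℕ) (u : Sg) (x y : Nd) : Bool :=
  bif upB Γ u then TB Γ l x y else TB Γ l y x

def lowB (Γ : Ctx) (u : Sg) : Nd := bif upB Γ u then u.1 else u.2.1
def highB (Γ : Ctx) (u : Sg) : Nd := bif upB Γ u then u.2.1 else u.1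

def lowL (k B : ℕ) (Γ : Ctx) (c : List (List Sg)) : List (List Nd) :=
  (List.range k).map fun l => (List.range (B + 1)).map fun j => lowB Γ (sg c l j)
def highL (k B : ℕ) (Γ : Ctx) (c : List (List Sg)) : List (List Nd) :=
  (List.range k).map fun l => (List.range (B + 1)).map fun j => highB Γ (sg c l j)

/-- positions -/
def ps (p : List (List Nd)) (l j : ℕ) : Nd := (p.getD l []).getD j (.inl (0, 0))

def okB (k B : ℕ) (Γ : Ctx) (c : List (List Sg)) (p : List (List Nd)) : Bool :=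
  (List.range k).all fun l => (List.range k).all fun m => decide (l = m) ||
    (List.range (B + 1)).all fun j => (List.range (B + 1)).all fun j' =>
      !(IB Γ (ps p l j) (ps p m j')) && !(IB Γ (ps p l j) (sg c m j').1) &&
      !(IB Γ (ps p l j) (sg c m j').2.1)

def oLt (a b : Option (List Bool)) : Bool :=
  match a, b with
  | _, none => false
  | none, some _ => true
  | some x, some y => bLt x y

def oEq (a : List Bool) (b : Option (List Bool)) : Bool :=
  match b with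
  | none => false
  | some y => bEq a y

/-- states: positions and threshold -/
abbrev Sta := List (List Nd) × Option (List Bool)

instance instDecEqPos : DecidableEq (List (List Nd)) := inferInstance
instance instDecEqThr : DecidableEq (Option (List Bool)) := inferInstance
instance instDecEqSta : DecidableEq (List (List Nd) × Option (List Bool)) := instDecidableEqProd

def spB (k B : ℕ) (Γ : Ctx) (c : List (List Sg)) (s s' : Sta) : Bool :=
  oLt s.2 s'.2 &&
  ((List.range k).all fun l => (List.range (B + 1)).all fun j =>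
    decide (ps s'.1 l j = ps s.1 l j) ||
    (EB Γ l (sg c l j) (ps s.1 l j) (ps s'.1 l j) &&
      oEq (δB Γ (sg c l j).2.2 (ps s'.1 l j)) s'.2)) &&
  okB k B Γ c s'.1

/-- thresholds -/
def htL (k : ℕ) (Γ : Ctx) : List (Option (List Bool)) :=
  none :: (((List.range k).product (ndL Γ)).map fun p => some (δB Γ p.1 p.2))

def stL (k B : ℕ) (Γ : Ctx) : List Sta := (allL k (allL (B + 1) (ndL Γ))).product (htL k Γ)

/-- the sweep -/
def swB (k B : ℕ) (Γ : Ctx) (c : List (List Sg)) : Bool :=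
  (reachL (stL k B Γ) (spB k B Γ c) (lowL k B Γ c, none)).any
    fun s => decide (s.1 = highL k B Γ c)

/-- the decision algorithm on the scaled data -/
def algB (k B : ℕ) (Γ : Ctx) : Bool :=
  (allL k (allL (B + 1) (sgL k Γ))).any fun c => stB k B Γ c && swB k B Γ c

/-- The scaled data of raw data: the lengths `a_i / b_i` are replaced by `a_i ∏_{j ≠ i} b_j`. -/
def ctxOf (d : ℕ × List (ℕ × ℕ × List Bool × List Bool) × List (ℕ × ℕ)) : Ctx :=
  (d.1, List.zipWith (fun e c => (e.1, e.2.1, c)) d.2.1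
    (scale (d.2.1.map fun e => (e.2.2.1, e.2.2.2))), d.2.2)

end Pool.Agent.DPO
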