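import Mathlib

/-!
# Decomposition of a list into blocks of constant type
-/

namespace Pool.Agent.DPO

variable {N τ : Type*}

/-- A list on which `f` is convex splits into few blocks on which `f` is constant. -/
theorem exists_blocks [DecidableEq τ] (f : N → τ) : ∀ (n : ℕ) (P : List N), P.length ≤ n →
    (∀ x y z, List.Sublist [x, y, z] P → f x = f z → f y = f x) →
    ∃ L : List (List N), L.flatten = P ∧ (∀ b ∈ L, b ≠ [] ∧ ∀ x ∈ b, ∀ y ∈ b, f x = f y) ∧
      L.length ≤ (P.map f).toFinset.card := by
  intro n
  induction n with
  | zero =>
    intro P hP _
    have : P = [] := List.length_eq_zero_iff.mp (by omega)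
    subst this
    exact ⟨[], by simp, by simp, by simp⟩
  | succ n ih =>
    intro P hP hconv
    rcases P with _ | ⟨x, P⟩
    · exact ⟨[], by simp, by simp, by simp⟩
    · set p : N → Bool := fun y => decide (f y = f x) with hp
      have hsplit : P.takeWhile p ++ P.dropWhile p = P := List.takeWhile_append_dropWhile
      set P1 := P.takeWhile p with hP1
      set P2 := P.dropWhile p with hP2
      have h1 : ∀ y ∈ P1, f y = f x := by
        intro y hy
        have := List.mem_takeWhile_imp hy
        simpa [hp] using this
      have h2 : ∀ y ∈ P2, f y ≠ f x := by
        intro z hz hfz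
        rcases hP2' : P2 with _ | ⟨y, R⟩
        · rw [hP2'] at hz; simp at hz
        · have hy : f y ≠ f x := by
            have := List.head_dropWhile_not p (by rw [← hP2, hP2']; simp)
            have e : (P.dropWhile p).head (by rw [← hP2, hP2']; simp) = y := by
              simp [← hP2, hP2']
            rw [e] at this
            simpa [hp] using this
          rw [hP2', List.mem_cons] at hz
          rcases hz with rfl | hz
          · exact hy hfz
          · have hsub : List.Sublist [x, y, z] (x :: P) := by
              apply List.Sublist.cons_cons
              rw [← hsplit, hP2']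
              refine List.Sublist.trans ?_ (List.sublist_append_right P1 (y :: R))
              apply List.Sublist.cons_cons
              exact List.singleton_sublist.mpr hz
            exact hy (hconv x y z hsub hfz.symm)
      have hlen : P2.length ≤ n := by
        have := congrArg List.length hsplit
        simp only [List.length_append] at this
        simp only [List.length_cons] at hP
        omega
      obtain ⟨L, hL, hb, hcard⟩ := ih P2 hlen (by
        intro a b c hs
        apply hconv a b c
        refine hs.trans ?_
        rw [← hsplit]
        exact (List.sublist_append_right P1 P2).trans (List.sublist_cons_self _ _))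
      refine ⟨(x :: P1) :: L, ?_, ?_, ?_⟩
      · rw [List.flatten_cons, hL, List.cons_append, hsplit]
      · intro b hb'
        rcases List.mem_cons.mp hb' with rfl | hb'
        · refine ⟨by simp, ?_⟩
          have key : ∀ y ∈ x :: P1, f y = f x := by
            intro y hy
            rcases List.mem_cons.mp hy with rfl | hy
            · rfl
            · exact h1 y hy
          intro y hy z hz
          rw [key y hy, key z hz]
        · exact hb b hb'
      · rw [List.length_cons]
        have hsubset : insert (f x) ((P2.map f).toFinset) ⊆ ((x :: P).map f).toFinset := by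
          intro t ht
          rw [Finset.mem_insert] at ht
          rw [List.mem_toFinset, List.mem_map]
          rcases ht with rfl | ht
          · exact ⟨x, by simp, rfl⟩
          · rw [List.mem_toFinset, List.mem_map] at ht
            obtain ⟨y, hy, rfl⟩ := ht
            refine ⟨y, ?_, rfl⟩
            rw [List.mem_cons]; right
            rw [← hsplit]
            exact List.mem_append_right _ hy
        have hnot : f x ∉ (P2.map f).toFinset := by
          rw [List.mem_toFinset, List.mem_map]
          rintro ⟨y, hy, he⟩
          exact h2 y hy he
        have := Finset.card_le_card hsubset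
        rw [Finset.card_insert_of_notMem hnot] at this
        omega

/-- Padding the blocks to an infinite sequence of chains. -/
theorem exists_pad (T : N → N → Prop) : ∀ (L : List (List N)), L ≠ [] → (∀ b ∈ L, b ≠ []) →
    (L.flatten).IsChain T →
    ∃ W : ℕ → List N, (∀ j, W j ≠ []) ∧ (∀ j, (W j).IsChain T) ∧
      (∀ j, ∃ b ∈ L, ∀ x ∈ W j, x ∈ b) ∧
      (∀ j, ∀ x ∈ (W j).getLast?, ∀ y ∈ (W (j + 1)).head?, T x y ∨ x = y) ∧
      (W 0).head? = L.flatten.head? ∧
      (∀ n, L.length ≤ n + 1 → (W n).getLast? = L.flatten.getLast?) := by
  intro L
  induction L with
  | nil => intro h; exact absurd rfl h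
  | cons b L ih =>
    intro _ hne hch
    have hb : b ≠ [] := hne b (by simp)
    rcases L with _ | ⟨b', L'⟩
    · simp only [List.flatten_cons, List.flatten_nil, List.append_nil] at hch ⊢
      refine ⟨fun j => if j = 0 then b else [b.getLast hb], ?_, ?_, ?_, ?_, ?_, ?_⟩
      · intro j; by_cases hj : j = 0 <;> simp [hj, hb]
      · intro j; by_cases hj : j = 0 <;> simp [hj, hch]
      · intro j
        refine ⟨b, by simp, ?_⟩
        by_cases hj : j = 0
        · simp [hj]
        · simp only [hj, if_false, List.mem_singleton]
          rintro x rfl
          exact List.getLast_mem hb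
      · intro j x hx y hy
        right
        have hy' : y = b.getLast hb := by
          simpa using hy.symm
        by_cases hj : j = 0
        · simp only [hj, if_true] at hx
          rw [List.getLast?_eq_getLast_of_ne_nil hb] at hx
          simp only [Option.mem_def, Option.some.injEq] at hx
          rw [hy', ← hx]
        · simp only [hj, if_false, List.getLast?_singleton, Option.mem_def,
            Option.some.injEq] at hx
          rw [hy', ← hx]
      · simp
      · intro n _
        by_cases hn : n = 0
        · simp [hn]
        · simp [hn, List.getLast?_eq_getLast_of_ne_nil hb]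
    · rw [List.flatten_cons, List.isChain_append] at hch
      obtain ⟨hc1, hc2, hc3⟩ := hch
      obtain ⟨W, h1, h2, h3, h4, h5, h6⟩ := ih (by simp) (fun c hc => hne c (by simp [hc])) hc2
      refine ⟨fun j => match j with
        | 0 => b
        | j + 1 => W j, ?_, ?_, ?_, ?_, ?_, ?_⟩
      · intro j; cases j
        · exact hb
        · exact h1 _
      · intro j; cases j
        · exact hc1
        · exact h2 _
      · intro j; cases j
        · exact ⟨b, by simp, fun x hx => hx⟩
        · obtain ⟨c, hc, hx⟩ := h3 (by assumption)
          exact ⟨c, List.mem_cons_of_mem _ hc, hx⟩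
      · intro j; cases j
        · intro x hx y hy
          left
          simp only at hx hy
          refine hc3 x hx y ?_
          rw [← h5]; exact hy
        · exact h4 _
      · rw [List.flatten_cons, List.head?_append_of_ne_nil _ hb]
      · intro n hn
        cases n with
        | zero => simp at hn
        | succ n =>
          simp only
          have e : (b :: b' :: L').flatten = b ++ (b' :: L').flatten := rfl
          rw [h6 n (by simpa using hn), e, List.getLast?_append]
          have : (b' :: L').flatten ≠ [] := by
            have := hne b' (by simp)
            simp [this]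
          rw [List.getLast?_eq_getLast_of_ne_nil this]
          simp

/-- Glueing finitely many chains. -/
theorem exists_glue (T : N → N → Prop) (W : ℕ → List N) (hne : ∀ j, W j ≠ []) (n : ℕ)
    (hch : ∀ j ≤ n, (W j).IsChain T)
    (hlink : ∀ j < n, ∀ x ∈ (W j).getLast?, ∀ y ∈ (W (j + 1)).head?, T x y ∨ x = y) :
    ∃ P : List N, P ≠ [] ∧ P.IsChain T ∧ P.head? = (W 0).head? ∧
      P.getLast? = (W n).getLast? ∧ ∀ x ∈ P, ∃ j ≤ n, x ∈ W j := by
  induction n with
  | zero => exact ⟨W 0, hne 0, hch 0 le_rfl, rfl, rfl, fun x hx => ⟨0, le_rfl, hx⟩⟩
  | succ n ih =>
    obtain ⟨P, hP, hc, hh, hl, hm⟩ := ih (fun j hj => hch j (by omega))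
      (fun j hj => hlink j (by omega))
    have hlast := List.getLast?_eq_getLast_of_ne_nil hP
    rcases hW : W (n + 1) with _ | ⟨y, R⟩
    · exact absurd hW (hne _)
    · have hcR := hch (n + 1) le_rfl
      have hlk := hlink n (by omega) (P.getLast hP) (by rw [← hl, hlast]; rfl) y (by rw [hW]; rfl)
      rw [hW] at hcR
      rcases hlk with hT | heq
      · refine ⟨P ++ (y :: R), by simp, ?_, ?_, ?_, ?_⟩
        · rw [List.isChain_append]
          refine ⟨hc, hcR, ?_⟩
          intro a ha b hb
          rw [hlast] at ha
          simp only [Option.mem_def, Option.some.injEq, List.head?_cons] at ha hb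
          rw [← ha, ← hb]; exact hT
        · rw [List.head?_append_of_ne_nil _ hP, hh]
        · rw [List.getLast?_append]; simp [List.getLast?_cons]
        · intro x hx
          rcases List.mem_append.mp hx with hx | hx
          · obtain ⟨j, hj, hxj⟩ := hm x hx
            exact ⟨j, by omega, hxj⟩
          · exact ⟨n + 1, le_rfl, by rw [hW]; exact hx⟩
      · rcases R with _ | ⟨z, R⟩
        · refine ⟨P, hP, hc, hh, ?_, ?_⟩
          · rw [hlast, heq]; rfl
          · intro x hx
            obtain ⟨j, hj, hxj⟩ := hm x hx
            exact ⟨j, by omega, hxj⟩
        · rw [List.isChain_cons_cons] at hcR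
          refine ⟨P ++ (z :: R), by simp, ?_, ?_, ?_, ?_⟩
          · rw [List.isChain_append]
            refine ⟨hc, hcR.2, ?_⟩
            intro a ha b hb
            rw [hlast] at ha
            simp only [Option.mem_def, Option.some.injEq, List.head?_cons] at ha hb
            rw [← ha, ← hb, heq]; exact hcR.1
          · rw [List.head?_append_of_ne_nil _ hP, hh]
          · rw [List.getLast?_append, List.getLast?_cons_cons]
            simp [List.getLast?_cons]
          · intro x hx
            rcases List.mem_append.mp hx with hx | hx
            · obtain ⟨j, hj, hxj⟩ := hm x hx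
              exact ⟨j, by omega, hxj⟩
            · exact ⟨n + 1, le_rfl, by rw [hW]; exact List.mem_cons_of_mem _ hx⟩

end Pool.Agent.DPO
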