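import Mathlib

/-!
# Synchronous sweeps
-/

namespace Pool.Agent.DPO

open Relation

variable {ι N : Type*}

/-- One step of a synchronous sweep: the threshold increases and every pebble stays or moves to a
node whose height is the new threshold. -/
def Step (ht : ι → N → ℤ) (E : ι → N → N → Prop) (Ok : (ι → N) → Prop)
    (s s' : (ι → N) × WithBot ℤ) : Prop :=
  s.2 < s'.2 ∧ (∀ i, s'.1 i = s.1 i ∨ (E i (s.1 i) (s'.1 i) ∧ (ht i (s'.1 i) : WithBot ℤ) = s'.2)) ∧
    Ok s'.1

/-- A run of the sweep gives lists of visited nodes. -/
theorem run_sound {ht : ι → N → ℤ} {E : ι → N → N → Prop} {Ok : (ι → N) → Prop} {p0 : ι → N}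
    {s : (ι → N) × WithBot ℤ} (h : ReflTransGen (Step ht E Ok) (p0, ⊥) s) :
    ∃ (Q : ι → List N), (∀ i, (p0 i :: Q i).IsChain (E i) ∧
        (p0 i :: Q i).getLast (by simp) = s.1 i) ∧
      (∀ i, ∀ x ∈ Q i, (ht i x : WithBot ℤ) ≤ s.2) ∧
      (∀ i, ∀ x ∈ Q i, ∃ p, Ok p ∧ p i = x) ∧
      (∀ i j, ∀ x ∈ Q i, ∀ y ∈ Q j, ht i x = ht j y → i ≠ j → ∃ p, Ok p ∧ p i = x ∧ p j = y) := by
  classical
  induction h with
  | refl => exact ⟨fun _ => [], by simp, by simp, by simp, by simp⟩
  | @tail s s' _ hstep ih =>
    obtain ⟨Q, hQ, hle, hone, htwo⟩ := ih
    obtain ⟨hlt, hmove, hok⟩ := hstep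
    refine ⟨fun i => if s'.1 i = s.1 i then Q i else Q i ++ [s'.1 i], ?_, ?_, ?_, ?_⟩
    · intro i
      by_cases hi : s'.1 i = s.1 i
      · simp only [hi, if_true]
        exact hQ i
      · simp only [hi, if_false]
        obtain ⟨h1, h2⟩ := hQ i
        have hE := ((hmove i).resolve_left hi).1
        refine ⟨?_, ?_⟩
        · rw [← List.cons_append]
          rw [List.isChain_append]
          refine ⟨h1, by simp, ?_⟩
          intro x hx y hy
          simp only [List.head?_cons, Option.mem_def, Option.some.injEq] at hy
          subst hy
          rw [List.getLast?_eq_getLast_of_ne_nil (by simp), h2] at hx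
          simp only [Option.mem_def, Option.some.injEq] at hx
          rw [← hx]
          exact hE
        · simp
    · intro i x hx
      by_cases hi : s'.1 i = s.1 i
      · simp only [hi, if_true] at hx
        exact (hle i x hx).trans hlt.le
      · simp only [hi, if_false, List.mem_append, List.mem_singleton] at hx
        rcases hx with hx | rfl
        · exact (hle i x hx).trans hlt.le
        · exact (((hmove i).resolve_left hi).2).le
    · intro i x hx
      by_cases hi : s'.1 i = s.1 i
      · simp only [hi, if_true] at hx
        exact hone i x hx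
      · simp only [hi, if_false, List.mem_append, List.mem_singleton] at hx
        rcases hx with hx | rfl
        · exact hone i x hx
        · exact ⟨s'.1, hok, rfl⟩
    · intro i j x hx y hy hxy hij
      have key : ∀ i, ∀ x, (x ∈ if s'.1 i = s.1 i then Q i else Q i ++ [s'.1 i]) →
          (x ∈ Q i ∧ (ht i x : WithBot ℤ) < s'.2) ∨ (x = s'.1 i ∧ (ht i x : WithBot ℤ) = s'.2) := by
        intro i x hx
        by_cases hi : s'.1 i = s.1 i
        · simp only [hi, if_true] at hx
          exact Or.inl ⟨hx, lt_of_le_of_lt (hle i x hx) hlt⟩
        · simp only [hi, if_false, List.mem_append, List.mem_singleton] at hx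
          rcases hx with hx | rfl
          · exact Or.inl ⟨hx, lt_of_le_of_lt (hle i x hx) hlt⟩
          · exact Or.inr ⟨rfl, ((hmove i).resolve_left hi).2⟩
      rcases key i x hx with ⟨h1, h2⟩ | ⟨h1, h2⟩ <;> rcases key j y hy with ⟨h3, h4⟩ | ⟨h3, h4⟩
      · exact htwo i j x h1 y h3 hxy hij
      · rw [hxy, h4] at h2; exact absurd h2 (lt_irrefl _)
      · rw [← hxy, h2] at h4; exact absurd h4 (lt_irrefl _)
      · exact ⟨s'.1, hok, h1.symm, h3.symm⟩

/-- Completeness: lists of nodes with increasing heights give a run. -/
theorem run_complete [Fintype ι] {ht : ι → N → ℤ} {E : ι → N → N → Prop} {Ok : (ι → N) → Prop}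
    (n : ℕ) : ∀ (a : ι → N) (U : ι → List N) (θ : WithBot ℤ),
      (∑ i, (U i).length ≤ n) →
      (∀ i, (a i :: U i).IsChain (E i)) →
      (∀ i, (U i).Pairwise (fun x y => ht i x < ht i y)) →
      (∀ i, ∀ x ∈ U i, θ < (ht i x : WithBot ℤ)) →
      (∀ p : ι → N, (∀ i, p i ∈ a i :: U i) → Ok p) →
      ∃ θ', ReflTransGen (Step ht E Ok) (a, θ)
        (fun i => (a i :: U i).getLast (by simp), θ') := by
  classical
  induction n with
  | zero =>
    intro a U θ hn _ _ _ _
    have h0 : ∀ i, U i = [] := by
      intro i
      have : (U i).length ≤ ∑ i, (U i).length :=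
        Finset.single_le_sum (f := fun i => (U i).length) (fun _ _ => Nat.zero_le _)
          (Finset.mem_univ i)
      exact List.length_eq_zero_iff.mp (by omega)
    refine ⟨θ, ?_⟩
    have : (fun i => (a i :: U i).getLast (by simp)) = a := by
      funext i
      simp [h0 i]
    rw [this]
  | succ n ih =>
    intro a U θ hn hch hpw hθ hok
    by_cases hall : ∀ i, U i = []
    · refine ⟨θ, ?_⟩
      have : (fun i => (a i :: U i).getLast (by simp)) = a := by
        funext i
        simp [hall i]
      rw [this]
    · push Not at hall
      obtain ⟨i1, hi1⟩ := hall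
      set S : Finset ι := Finset.univ.filter (fun i => U i ≠ []) with hS
      have hSne : S.Nonempty := ⟨i1, by simp [hS, hi1]⟩
      let g : ι → ℤ := fun i => match U i with
        | [] => 0
        | x :: _ => ht i x
      obtain ⟨i0, hi0, hmin⟩ := S.exists_min_image g hSne
      have hi0' : U i0 ≠ [] := by simpa [hS] using hi0
      set h : ℤ := g i0 with hh
      let a' : ι → N := fun i => match U i with
        | [] => a i
        | x :: _ => if ht i x = h then x else a i
      let U' : ι → List N := fun i => match U i with
        | [] => []
        | x :: l => if ht i x = h then l else x :: l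
      -- description of the cases
      have hcase : ∀ i, (a' i = a i ∧ U' i = U i ∧ (∀ x ∈ U i, h < ht i x)) ∨
          (∃ l, U i = a' i :: l ∧ U' i = l ∧ ht i (a' i) = h) := by
        intro i
        rcases hUi : U i with _ | ⟨x, l⟩
        · left
          refine ⟨by simp only [a', hUi], by simp only [U', hUi], by simp⟩
        · by_cases hx : ht i x = h
          · right
            have e1 : a' i = x := by simp only [a', hUi, hx, if_true]
            have e2 : U' i = l := by simp only [U', hUi, hx, if_true]
            exact ⟨l, by rw [e1], e2, by rw [e1, hx]⟩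
          · left
            have e1 : a' i = a i := by simp only [a', hUi, hx, if_false]
            have e2 : U' i = x :: l := by simp only [U', hUi, hx, if_false]
            refine ⟨e1, e2, ?_⟩
            have hiS : i ∈ S := by simp [hS, hUi]
            have h1 := hmin i hiS
            have h2 : g i = ht i x := by simp only [g, hUi]
            rw [h2] at h1
            have h3 : h < ht i x := lt_of_le_of_ne h1 (Ne.symm hx)
            intro y hy
            rcases List.mem_cons.mp hy with rfl | hy
            · exact h3
            · have h4 := hpw i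
              rw [hUi, List.pairwise_cons] at h4
              exact h3.trans (h4.1 y hy)
      have hsub : ∀ i, ∀ x, x ∈ a' i :: U' i → x ∈ a i :: U i := by
        intro i x hx
        rcases hcase i with ⟨e1, e2, _⟩ | ⟨l, e1, e2, _⟩
        · rwa [e1, e2] at hx
        · rw [e1, List.mem_cons]
          rw [e2] at hx
          exact Or.inr hx
      have hθh : θ < (h : WithBot ℤ) := by
        rcases hUi : U i0 with _ | ⟨x, l⟩
        · exact absurd hUi hi0'
        · have h2 : h = ht i0 x := by simp only [hh, g, hUi]
          rw [h2]
          exact hθ i0 x (by rw [hUi]; simp)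
      have hstep : Step ht E Ok (a, θ) (a', (h : WithBot ℤ)) := by
        refine ⟨hθh, ?_, ?_⟩
        · intro i
          rcases hcase i with ⟨e1, _, _⟩ | ⟨l, e1, _, e3⟩
          · exact Or.inl e1
          · right
            refine ⟨?_, by simp only [e3]⟩
            have := hch i
            rw [e1, List.isChain_cons_cons] at this
            exact this.1
        · apply hok
          intro i
          exact hsub i _ (by simp)
      have hlen : ∑ i, (U' i).length ≤ n := by
        have h1 : ∑ i, (U' i).length < ∑ i, (U i).length := by
          apply Finset.sum_lt_sum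
          · intro i _
            rcases hcase i with ⟨_, e2, _⟩ | ⟨l, e1, e2, _⟩
            · rw [e2]
            · rw [e1, e2]; simp
          · refine ⟨i0, Finset.mem_univ _, ?_⟩
            rcases hUi : U i0 with _ | ⟨x, l⟩
            · exact absurd hUi hi0'
            · have h2 : ht i0 x = h := by simp only [hh, g, hUi]
              have e2 : U' i0 = l := by simp only [U', hUi, h2, if_true]
              rw [e2]; simp
        omega
      obtain ⟨θ', hrun⟩ := ih a' U' (h : WithBot ℤ) hlen
        (by
          intro i
          rcases hcase i with ⟨e1, e2, _⟩ | ⟨l, e1, e2, _⟩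
          · rw [e1, e2]; exact hch i
          · have := hch i
            rw [e1] at this
            rw [e2]
            exact this.tail)
        (by
          intro i
          rcases hcase i with ⟨e1, e2, _⟩ | ⟨l, e1, e2, _⟩
          · rw [e2]; exact hpw i
          · have := hpw i
            rw [e1, List.pairwise_cons] at this
            rw [e2]; exact this.2)
        (by
          intro i x hx
          rcases hcase i with ⟨e1, e2, e3⟩ | ⟨l, e1, e2, e3⟩
          · rw [e2] at hx
            exact WithBot.coe_lt_coe.mpr (e3 x hx)
          · have := hpw i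
            rw [e1, List.pairwise_cons] at this
            rw [e2] at hx
            rw [← e3]
            exact WithBot.coe_lt_coe.mpr (this.1 x hx))
        (by
          intro p hp
          exact hok p fun i => hsub i _ (hp i))
      refine ⟨θ', ?_⟩
      have hlast : (fun i => (a i :: U i).getLast (by simp)) =
          (fun i => (a' i :: U' i).getLast (by simp)) := by
        funext i
        rcases hcase i with ⟨e1, e2, _⟩ | ⟨l, e1, e2, _⟩
        · simp only [e1, e2]
        · simp only [e2]
          have : (a i :: U i).getLast (by simp) = (a i :: a' i :: l).getLast (by simp) := by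
            congr 1; rw [e1]
          rw [this, List.getLast_cons_cons]
      rw [hlast]
      exact ReflTransGen.head hstep hrun

end Pool.Agent.DPO
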