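import Pool.Agent.DPO.Types
import Pool.Agent.DPO.Run
import Pool.Agent.DPO.Blocks

/-!
# Certificates for the abstract path problem
-/

namespace Pool.Agent.DPO

open Relation

namespace Abs

variable {κ N : Type*} (A : Abs κ N) {B : ℕ}

/-- The static conditions on a certificate: segment ends `a`, `b` and roots `r`. -/
structure Static (a b : κ → Fin (B + 1) → N) (r : κ → Fin (B + 1) → κ) : Prop where
  start : ∀ l, A.S l (a l 0)
  final : ∀ l, A.F l (b l (Fin.last B))
  link : ∀ l (j : Fin B), A.T l (b l j.castSucc) (a l j.succ) ∨ b l j.castSucc = a l j.succ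
  tight : ∀ l j, |A.δ (r l j) (b l j) - A.δ (r l j) (a l j)| = A.δ l (b l j) - A.δ l (a l j)
  faa : ∀ l m, l ≠ m → ∀ j j', ¬ A.Inc (a l j) (a m j')
  fab : ∀ l m, l ≠ m → ∀ j j', ¬ A.Inc (a l j) (b m j')
  fbb : ∀ l m, l ≠ m → ∀ j j', ¬ A.Inc (b l j) (b m j')
  root : ∀ l m, l ≠ m → ∀ j j' x y, A.Btw l (a l j) x (b l j) → A.Btw m (a m j') y (b m j') →
    A.Inc x y → r l j = r m j'

/-- height function of a segment -/
def ht (r : κ → Fin (B + 1) → κ) (i : κ × Fin (B + 1)) (x : N) : ℤ := A.δ (r i.1 i.2) x

/-- the segment is traversed upwards -/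
def Up (a b : κ → Fin (B + 1) → N) (r : κ → Fin (B + 1) → κ) (i : κ × Fin (B + 1)) : Prop :=
  A.ht r i (a i.1 i.2) ≤ A.ht r i (b i.1 i.2)

/-- upward moves -/
def E (a b : κ → Fin (B + 1) → N) (r : κ → Fin (B + 1) → κ) (i : κ × Fin (B + 1)) (x y : N) :
    Prop :=
  (A.Up a b r i ∧ A.T i.1 x y) ∨ (¬ A.Up a b r i ∧ A.T i.1 y x)

/-- admissible positions -/
def Ok (a b : κ → Fin (B + 1) → N) (p : κ × Fin (B + 1) → N) : Prop :=
  (∀ i i' : κ × Fin (B + 1), i.1 ≠ i'.1 → ¬ A.Inc (p i) (p i')) ∧
  (∀ i i' : κ × Fin (B + 1), i.1 ≠ i'.1 → ¬ A.Inc (p i) (a i'.1 i'.2) ∧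
    ¬ A.Inc (p i) (b i'.1 i'.2))

open Classical in
/-- lower end of a segment -/
noncomputable def low (a b : κ → Fin (B + 1) → N) (r : κ → Fin (B + 1) → κ)
    (i : κ × Fin (B + 1)) : N := if A.Up a b r i then a i.1 i.2 else b i.1 i.2

open Classical in
/-- upper end of a segment -/
noncomputable def high (a b : κ → Fin (B + 1) → N) (r : κ → Fin (B + 1) → κ)
    (i : κ × Fin (B + 1)) : N := if A.Up a b r i then b i.1 i.2 else a i.1 i.2

/-- The certificate is realised by a sweep. -/
def Sweep (a b : κ → Fin (B + 1) → N) (r : κ → Fin (B + 1) → κ) : Prop :=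
  ∃ θ, ReflTransGen (Step (A.ht r) (A.E a b r) (A.Ok a b)) (A.low a b r, ⊥) (A.high a b r, θ)

variable {A}

theorem chain_pairwise {l : κ} {W : List N} (h : W.IsChain (A.T l)) :
    W.Pairwise (fun x y => A.Le l x y ∧ A.δ l x < A.δ l y) := by
  have h1 : W.IsChain (fun x y => A.Le l x y ∧ A.δ l x < A.δ l y) :=
    h.imp fun x y hxy => ⟨Le.of_T hxy, A.inc l x y hxy⟩
  have : IsTrans N (fun x y => A.Le l x y ∧ A.δ l x < A.δ l y) :=
    ⟨fun x y z h h' => ⟨h.1.trans h'.1, h.2.trans h'.2⟩⟩
  exact List.isChain_iff_pairwise.mp h1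

theorem eq_head_or {l : κ} {W : List N} (h : W.IsChain (A.T l)) {a x : N}
    (ha : W.head? = some a) (hx : x ∈ W) : x = a ∨ (A.Le l a x ∧ A.δ l a < A.δ l x) := by
  rcases W with _ | ⟨w, W⟩
  · simp at hx
  · simp only [List.head?_cons, Option.some.injEq] at ha
    subst ha
    rcases List.mem_cons.mp hx with rfl | hx
    · exact Or.inl rfl
    · have := chain_pairwise h
      rw [List.pairwise_cons] at this
      exact Or.inr (this.1 x hx)

theorem eq_last_or {l : κ} {W : List N} (h : W.IsChain (A.T l)) {b x : N}
    (hb : W.getLast? = some b) (hx : x ∈ W) : x = b ∨ (A.Le l x b ∧ A.δ l x < A.δ l b) := by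
  have hne : W ≠ [] := List.ne_nil_of_mem hx
  rw [List.getLast?_eq_getLast_of_ne_nil hne, Option.some.injEq] at hb
  have h1 := chain_pairwise h
  rw [← List.dropLast_append_getLast hne, hb] at hx h1
  rw [List.pairwise_append] at h1
  rcases List.mem_append.mp hx with hx | hx
  · exact Or.inr (h1.2.2 x hx b (by simp))
  · left; simpa using hx

/-- **Soundness of certificates.** -/
theorem solution_of_cert {a b : κ → Fin (B + 1) → N} {r : κ → Fin (B + 1) → κ}
    (hst : A.Static a b r) (hsw : A.Sweep a b r) : ∃ P, A.Solution P := by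
  classical
  obtain ⟨θ, hrun⟩ := hsw
  obtain ⟨Q, hQ, _, hone, htwo⟩ := run_sound hrun
  -- the segment lists
  have hW : ∀ i : κ × Fin (B + 1), ∃ W : List N, W ≠ [] ∧ W.IsChain (A.T i.1) ∧
      W.head? = some (a i.1 i.2) ∧ W.getLast? = some (b i.1 i.2) ∧
      ∀ x ∈ W, x = a i.1 i.2 ∨ x = b i.1 i.2 ∨ x ∈ Q i := by
    intro i
    obtain ⟨h1, h2⟩ := hQ i
    by_cases hup : A.Up a b r i
    · refine ⟨A.low a b r i :: Q i, by simp, ?_, ?_, ?_, ?_⟩
      · refine h1.imp fun x y hxy => ?_
        rcases hxy with ⟨_, h⟩ | ⟨h, _⟩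
        · exact h
        · exact absurd hup h
      · simp [low, hup]
      · rw [List.getLast?_eq_getLast_of_ne_nil (by simp), h2]
        simp [high, hup]
      · intro x hx
        rcases List.mem_cons.mp hx with rfl | hx
        · left; simp [low, hup]
        · exact Or.inr (Or.inr hx)
    · refine ⟨(A.low a b r i :: Q i).reverse, by simp, ?_, ?_, ?_, ?_⟩
      · rw [List.isChain_reverse]
        refine h1.imp fun x y hxy => ?_
        rcases hxy with ⟨h, _⟩ | ⟨_, h⟩
        · exact absurd h hup
        · exact h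
      · rw [List.head?_reverse, List.getLast?_eq_getLast_of_ne_nil (by simp), h2]
        simp [high, hup]
      · rw [List.getLast?_reverse]
        simp [low, hup]
      · intro x hx
        rw [List.mem_reverse] at hx
        rcases List.mem_cons.mp hx with rfl | hx
        · right; left; simp [low, hup]
        · exact Or.inr (Or.inr hx)
  choose W hne hch hhead hlast hmem using hW
  -- conflict-freeness
  have hfree : ∀ i i' : κ × Fin (B + 1), i.1 ≠ i'.1 → ∀ x ∈ W i, ∀ y ∈ W i', ¬ A.Inc x y := by
    intro i i' hii x hx y hy hxy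
    have hends : ∀ i i' : κ × Fin (B + 1), i.1 ≠ i'.1 → ∀ x ∈ W i,
        ¬ A.Inc x (a i'.1 i'.2) ∧ ¬ A.Inc x (b i'.1 i'.2) := by
      intro i i' hii x hx
      rcases hmem i x hx with rfl | rfl | hq
      · exact ⟨hst.faa _ _ hii _ _, hst.fab _ _ hii _ _⟩
      · exact ⟨fun h => hst.fab _ _ hii.symm _ _ (A.symm _ _ h), hst.fbb _ _ hii _ _⟩
      · obtain ⟨p, hp, rfl⟩ := hone i x hq
        exact hp.2 i i' hii
    by_cases hya : y = a i'.1 i'.2
    · rw [hya] at hxy; exact (hends i i' hii x hx).1 hxy
    by_cases hyb : y = b i'.1 i'.2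
    · rw [hyb] at hxy; exact (hends i i' hii x hx).2 hxy
    by_cases hxa : x = a i.1 i.2
    · rw [hxa] at hxy; exact (hends i' i hii.symm y hy).1 (A.symm _ _ hxy)
    by_cases hxb : x = b i.1 i.2
    · rw [hxb] at hxy; exact (hends i' i hii.symm y hy).2 (A.symm _ _ hxy)
    have hxQ : x ∈ Q i := by
      rcases hmem i x hx with h | h | h
      · exact absurd h hxa
      · exact absurd h hxb
      · exact h
    have hyQ : y ∈ Q i' := by
      rcases hmem i' y hy with h | h | h
      · exact absurd h hya
      · exact absurd h hyb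
      · exact h
    have btw : A.Btw i.1 (a i.1 i.2) x (b i.1 i.2) := by
      have h1 := (eq_head_or (hch i) (hhead i) hx).resolve_left hxa
      have h2 := (eq_last_or (hch i) (hlast i) hx).resolve_left hxb
      exact ⟨h1.1, h2.1, h1.2, h2.2⟩
    have btw' : A.Btw i'.1 (a i'.1 i'.2) y (b i'.1 i'.2) := by
      have h1 := (eq_head_or (hch i') (hhead i') hy).resolve_left hya
      have h2 := (eq_last_or (hch i') (hlast i') hy).resolve_left hyb
      exact ⟨h1.1, h2.1, h1.2, h2.2⟩
    have hr := hst.root i.1 i'.1 hii i.2 i'.2 x y btw btw' hxy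
    have hht : A.ht r i x = A.ht r i' y := by
      simp only [ht, hr]
      exact A.loc x y hxy _
    obtain ⟨p, hp, rfl, rfl⟩ := htwo i i' x hxQ y hyQ hht (fun h => hii (by rw [h]))
    exact hp.1 i i' hii hxy
  -- glue
  have hP : ∀ l : κ, ∃ P : List N, P ≠ [] ∧ P.IsChain (A.T l) ∧ P.head? = some (a l 0) ∧
      P.getLast? = some (b l (Fin.last B)) ∧ ∀ x ∈ P, ∃ j, x ∈ W (l, j) := by
    intro l
    obtain ⟨P, h1, h2, h3, h4, h5⟩ := exists_glue (A.T l)
      (fun j => if h : j < B + 1 then W (l, ⟨j, h⟩) else W (l, 0))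
      (fun j => by
        by_cases hj : j < B + 1
        · simp only [hj, dite_true]; exact hne _
        · simp only [hj, dite_false]; exact hne _) B
      (fun j hj => by
        have hj' : j < B + 1 := by omega
        simp only [hj', dite_true]; exact hch (l, ⟨j, hj'⟩))
      (fun j hj x hx y hy => by
        have hj' : j < B + 1 := by omega
        have hj'' : j + 1 < B + 1 := by omega
        simp only [hj', hj'', dite_true] at hx hy
        rw [hlast] at hx
        rw [hhead] at hy
        simp only [Option.mem_def, Option.some.injEq] at hx hy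
        have := hst.link l ⟨j, hj⟩
        rw [← hx, ← hy]
        exact this)
    refine ⟨P, h1, h2, ?_, ?_, ?_⟩
    · rw [h3]
      simp only [Nat.zero_lt_succ, dite_true]
      exact hhead (l, 0)
    · rw [h4]
      simp only [Nat.lt_succ_self, dite_true]
      exact hlast (l, Fin.last B)
    · intro x hx
      obtain ⟨j, hj, hxj⟩ := h5 x hx
      have hj' : j < B + 1 := by omega
      simp only [hj', dite_true] at hxj
      exact ⟨_, hxj⟩
  choose P h1 h2 h3 h4 h5 using hP
  refine ⟨P, ⟨h1, h2, ?_, ?_, ?_⟩⟩
  · intro l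
    have : (P l).head (h1 l) = a l 0 := by
      have := h3 l
      rw [List.head?_eq_some_head (h1 l)] at this
      exact Option.some.inj this
    rw [this]; exact hst.start l
  · intro l
    have : (P l).getLast (h1 l) = b l (Fin.last B) := by
      have := h4 l
      rw [List.getLast?_eq_getLast_of_ne_nil (h1 l)] at this
      exact Option.some.inj this
    rw [this]; exact hst.final l
  · intro l m hlm x hx y hy
    obtain ⟨j, hj⟩ := h5 l x hx
    obtain ⟨j', hj'⟩ := h5 m y hy
    exact hfree (l, j) (m, j') hlm x hj y hj'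

theorem tight_between {l m : κ} {a x y b : N} (h1 : A.Le l a x) (h2 : A.Le l x y)
    (h3 : A.Le l y b) (ht : |A.δ m b - A.δ m a| = A.δ l b - A.δ l a) :
    (A.δ m a ≤ A.δ m b → A.δ m y - A.δ m x = A.δ l y - A.δ l x) ∧
    (¬ A.δ m a ≤ A.δ m b → A.δ m x - A.δ m y = A.δ l y - A.δ l x) := by
  have e1 := abs_le.mp (h1 m)
  have e2 := abs_le.mp (h2 m)
  have e3 := abs_le.mp (h3 m)
  constructor
  · intro h
    rw [abs_of_nonneg (by linarith)] at ht
    linarith
  · intro h
    rw [abs_of_nonpos (by linarith)] at ht
    linarith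

/-- **Completeness of certificates.** -/
theorem cert_of_solution [Fintype κ] [DecidableEq κ] {P : κ → List N} (hP : A.Solution P)
    (hB : Fintype.card (Finset κ × (Line κ → Option SignType)) ≤ B + 1) :
    ∃ (a b : κ → Fin (B + 1) → N) (r : κ → Fin (B + 1) → κ), A.Static a b r ∧ A.Sweep a b r ∧
      ∀ l j, a l j ∈ P l ∧ b l j ∈ P l := by
  classical
  obtain ⟨c, hsep⟩ := hP.exists_sep
  -- blocks
  have hblk : ∀ l, ∃ W : ℕ → List N, (∀ j, W j ≠ []) ∧ (∀ j, (W j).IsChain (A.T l)) ∧
      (∀ j, ∀ x ∈ W j, x ∈ P l) ∧ (∀ j, ∀ x ∈ W j, ∀ y ∈ W j, A.tp c l x = A.tp c l y) ∧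
      (∀ j, ∀ x ∈ (W j).getLast?, ∀ y ∈ (W (j + 1)).head?, A.T l x y ∨ x = y) ∧
      (W 0).head? = (P l).head? ∧ (W B).getLast? = (P l).getLast? := by
    intro l
    obtain ⟨L, hL, hb, hcard⟩ := exists_blocks (A.tp c l) (P l).length (P l) le_rfl (by
      intro x y z hs hxz
      have h1 := (hP.pairwise l).sublist hs
      simp only [List.pairwise_cons, List.mem_cons, List.not_mem_nil, or_false, forall_eq_or_imp,
        forall_eq] at h1
      exact tp_convex h1.1.1.1 h1.2.1.1 hxz)
    have hLne : L ≠ [] := by
      rintro rfl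
      simp only [List.flatten_nil] at hL
      exact hP.ne l hL.symm
    obtain ⟨W, h1, h2, h3, h4, h5, h6⟩ := exists_pad (A.T l) L hLne (fun b hb' => (hb b hb').1)
      (by rw [hL]; exact hP.chain l)
    refine ⟨W, h1, h2, ?_, ?_, h4, by rw [h5, hL], ?_⟩
    · intro j x hx
      obtain ⟨b, hbL, hxb⟩ := h3 j
      rw [← hL]
      exact List.mem_flatten.mpr ⟨b, hbL, hxb x hx⟩
    · intro j x hx y hy
      obtain ⟨b, hbL, hxb⟩ := h3 j
      exact (hb b hbL).2 x (hxb x hx) y (hxb y hy)
    · rw [h6 B, hL]
      have : ((P l).map (A.tp c l)).toFinset.card ≤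
          Fintype.card (Finset κ × (Line κ → Option SignType)) := Finset.card_le_univ _
      omega
  choose W hne hch hWP htp hlink hhead hlast using hblk
  let a : κ → Fin (B + 1) → N := fun l j => (W l j).head (hne l j)
  let b : κ → Fin (B + 1) → N := fun l j => (W l j).getLast (hne l j)
  let rt : Finset κ → κ → κ := fun s l => if h : s.Nonempty then h.choose else l
  have hrt : ∀ (s : Finset κ) (l : κ), l ∈ s → rt s l ∈ s := by
    intro s l hl
    have : s.Nonempty := ⟨l, hl⟩
    simp only [rt, this, dite_true]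
    exact this.choose_spec
  have hrt' : ∀ (s : Finset κ) (l m : κ), l ∈ s → rt s l = rt s m := by
    intro s l m hl
    have : s.Nonempty := ⟨l, hl⟩
    simp only [rt, this, dite_true]
  let r : κ → Fin (B + 1) → κ := fun l j => rt (A.comp c l (a l j)) l
  have haW : ∀ l (j : Fin (B + 1)), a l j ∈ W l j := fun l j => List.head_mem _
  have hbW : ∀ l (j : Fin (B + 1)), b l j ∈ W l j := fun l j => List.getLast_mem _
  have haP : ∀ l (j : Fin (B + 1)), a l j ∈ P l := fun l j => hWP l j _ (haW l j)
  have hbP : ∀ l (j : Fin (B + 1)), b l j ∈ P l := fun l j => hWP l j _ (hbW l j)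
  have hah : ∀ l (j : Fin (B + 1)), (W l j).head? = some (a l j) :=
    fun l j => List.head?_eq_some_head _
  have hbl : ∀ l (j : Fin (B + 1)), (W l j).getLast? = some (b l j) :=
    fun l j => List.getLast?_eq_getLast_of_ne_nil _
  have hLe : ∀ l (j : Fin (B + 1)), A.Le l (a l j) (b l j) := by
    intro l j
    rcases eq_head_or (hch l j) (hah l j) (hbW l j) with h | h
    · rw [h]; exact Le.refl _ _
    · exact h.1
  have htight : ∀ l (j : Fin (B + 1)), |A.δ (r l j) (b l j) - A.δ (r l j) (a l j)| =
      A.δ l (b l j) - A.δ l (a l j) := by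
    intro l j
    exact tight_of_tp (hLe l j) (htp l j _ (haW l j) _ (hbW l j))
      (hrt _ _ self_mem_comp)
  refine ⟨a, b, r, ?_, ?_, fun l j => ⟨haP l j, hbP l j⟩⟩
  · constructor
    · intro l
      have : a l 0 = (P l).head (hP.ne l) := by
        have h1 := hah l 0
        have h2 : (W l ((0 : Fin (B + 1)) : ℕ)).head? = (P l).head? := by
          rw [← hhead l]; rfl
        rw [h2, List.head?_eq_some_head (hP.ne l)] at h1
        exact (Option.some.inj h1).symm
      rw [this]; exact hP.start l
    · intro l
      have : b l (Fin.last B) = (P l).getLast (hP.ne l) := by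
        have h1 := hbl l (Fin.last B)
        have h2 : (W l ((Fin.last B : Fin (B + 1)) : ℕ)).getLast? = (P l).getLast? := by
          rw [← hlast l]; rfl
        rw [h2, List.getLast?_eq_getLast_of_ne_nil (hP.ne l)] at h1
        exact (Option.some.inj h1).symm
      rw [this]; exact hP.final l
    · intro l j
      exact hlink l j _ (by
        have := hbl l j.castSucc
        simpa using this) _ (by
        have := hah l j.succ
        simpa using this)
    · exact htight
    · intro l m hlm j j'
      exact hP.free l m hlm _ (haP l j) _ (haP m j')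
    · intro l m hlm j j'
      exact hP.free l m hlm _ (haP l j) _ (hbP m j')
    · intro l m hlm j j'
      exact hP.free l m hlm _ (hbP l j) _ (hbP m j')
    · intro l m hlm j j' x y hx hy hxy
      have hloc := A.loc x y hxy
      have t1 := htp l j _ (haW l j) _ (hbW l j)
      have t2 := htp m j' _ (haW m j') _ (hbW m j')
      have hadj := adj_of_coloc (hsep l m hlm) (haP l j) (hbP l j) hx t1
        (haP m j') (hbP m j') hy t2 hloc
      have e1 : A.comp c l x = A.comp c l (a l j) := comp_eq_of_tp (tp_convex hx.le1 hx.le2 t1)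
      have e2 : A.comp c m y = A.comp c m (a m j') := comp_eq_of_tp (tp_convex hy.le1 hy.le2 t2)
      have e3 : A.comp c l x = A.comp c m x := comp_eq_of_adj hadj
      have e4 : A.comp c m x = A.comp c m y := comp_congr hloc
      have e5 : A.comp c l (a l j) = A.comp c m (a m j') := by rw [← e1, e3, e4, e2]
      change rt _ _ = rt _ _
      rw [e5]
      apply hrt'
      rw [← e5]
      exact self_mem_comp
  · -- the sweep
    have hU : ∀ i : κ × Fin (B + 1), ∃ U : List N,
        (A.low a b r i :: U).IsChain (A.E a b r i) ∧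
        U.Pairwise (fun x y => A.ht r i x < A.ht r i y) ∧
        (∀ x ∈ A.low a b r i :: U, x ∈ P i.1) ∧
        (A.low a b r i :: U).getLast (by simp) = A.high a b r i := by
      intro i
      obtain ⟨l, j⟩ := i
      by_cases hup : A.Up a b r (l, j)
      · have hlow : A.low a b r (l, j) = a l j := by simp [low, hup]
        have hhigh : A.high a b r (l, j) = b l j := by simp [high, hup]
        have hcons : a l j :: (W l j).tail = W l j := by
          simp only [a]; exact List.cons_head_tail _
        refine ⟨(W l j).tail, ?_, ?_, ?_, ?_⟩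
        · rw [hlow, hcons]
          exact (hch l j).imp fun x y hxy => Or.inl ⟨hup, hxy⟩
        · have hpw := chain_pairwise (hch l j)
          refine (hpw.sublist (List.tail_sublist _)).imp_of_mem ?_
          intro x y hx hy hxy
          have hx' := List.mem_of_mem_tail hx
          have hy' := List.mem_of_mem_tail hy
          have h1 : A.Le l (a l j) x := by
            rcases eq_head_or (hch l j) (hah l j) hx' with h | h
            · rw [h]; exact Le.refl _ _
            · exact h.1
          have h2 : A.Le l y (b l j) := by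
            rcases eq_last_or (hch l j) (hbl l j) hy' with h | h
            · rw [h]; exact Le.refl _ _
            · exact h.1
          have := (tight_between h1 hxy.1 h2 (htight l j)).1 hup
          have h3 := hxy.2
          simp only [ht]
          linarith
        · intro x hx
          rw [hlow, hcons] at hx
          exact hWP l j x hx
        · rw [hhigh]
          simp only [hlow, hcons, b]
      · have hlow : A.low a b r (l, j) = b l j := by simp [low, hup]
        have hhigh : A.high a b r (l, j) = a l j := by simp [high, hup]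
        have hne' : (W l j).reverse ≠ [] := by simp [hne l j]
        have hcons : b l j :: (W l j).reverse.tail = (W l j).reverse := by
          have : b l j = (W l j).reverse.head hne' := by
            simp only [b]
            rw [List.head_reverse]
          rw [this]; exact List.cons_head_tail _
        refine ⟨(W l j).reverse.tail, ?_, ?_, ?_, ?_⟩
        · rw [hlow, hcons, List.isChain_reverse]
          exact (hch l j).imp fun x y hxy => Or.inr ⟨hup, hxy⟩
        · have hpw := chain_pairwise (hch l j)
          have hpw' : (W l j).reverse.Pairwise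
              (fun x y => A.Le l y x ∧ A.δ l y < A.δ l x) := List.pairwise_reverse.mpr hpw
          refine (hpw'.sublist (List.tail_sublist _)).imp_of_mem ?_
          intro x y hx hy hxy
          have hx' := List.mem_reverse.mp (List.mem_of_mem_tail hx)
          have hy' := List.mem_reverse.mp (List.mem_of_mem_tail hy)
          have h1 : A.Le l (a l j) y := by
            rcases eq_head_or (hch l j) (hah l j) hy' with h | h
            · rw [h]; exact Le.refl _ _
            · exact h.1
          have h2 : A.Le l x (b l j) := by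
            rcases eq_last_or (hch l j) (hbl l j) hx' with h | h
            · rw [h]; exact Le.refl _ _
            · exact h.1
          have := (tight_between h1 hxy.1 h2 (htight l j)).2 hup
          have h3 := hxy.2
          simp only [ht]
          linarith
        · intro x hx
          rw [hlow, hcons, List.mem_reverse] at hx
          exact hWP l j x hx
        · rw [hhigh]
          simp only [hlow, hcons]
          rw [List.getLast_reverse]
    choose U hU1 hU2 hU3 hU4 using hU
    obtain ⟨θ', hrun⟩ := run_complete (ht := A.ht r) (E := A.E a b r) (Ok := A.Ok a b) _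
      (A.low a b r) U ⊥ le_rfl hU1 hU2 (fun i x _ => WithBot.bot_lt_coe _) (by
        intro p hp
        constructor
        · intro i i' hii
          exact hP.free _ _ hii _ (hU3 i _ (hp i)) _ (hU3 i' _ (hp i'))
        · intro i i' hii
          exact ⟨hP.free _ _ hii _ (hU3 i _ (hp i)) _ (haP _ _),
            hP.free _ _ hii _ (hU3 i _ (hp i)) _ (hbP _ _)⟩)
    refine ⟨θ', ?_⟩
    have : (fun i => (A.low a b r i :: U i).getLast (by simp)) = A.high a b r := by
      funext i
      exact hU4 i
    rw [this] at hrun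
    exact hrun

end Abs

end Pool.Agent.DPO
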