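import Mathlib

/-!
# Multigraphs: undirected and directed steps, connection, opposite demands
-/

namespace Pool.Agent.DPO

open Relation

/-- One undirected step using an edge of `F` (edge `e` has the ends `src e` and `dst e`). -/
def UStep {V E : Type*} (src dst : E → V) (F : E → Prop) (x y : V) : Prop :=
  ∃ e, F e ∧ ((src e = x ∧ dst e = y) ∨ (src e = y ∧ dst e = x))

/-- Connection by edges of `F`. -/
def Conn {V E : Type*} (src dst : E → V) (F : E → Prop) (x y : V) : Prop :=
  ReflTransGen (UStep src dst F) x y

/-- One step along an edge of `F` in the direction given by the orientation `o`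
(`true`: from `src` to `dst`; `false`: from `dst` to `src`). -/
def DStep {V E : Type*} (src dst : E → V) (F : E → Prop) (o : E → Bool) (x y : V) : Prop :=
  ∃ e, F e ∧ ((o e = true ∧ src e = x ∧ dst e = y) ∨ (o e = false ∧ src e = y ∧ dst e = x))

/-- The demands `x → y` and `x' → y'` need opposite orientations of some edge of `F`. -/
def Opp {V E : Type*} (src dst : E → V) (F : E → Prop) (x y x' y' : V) : Prop :=
  ∃ e, F e ∧ ¬ Conn src dst (fun e' => F e' ∧ e' ≠ e) x y ∧
    Conn src dst (fun e' => F e' ∧ e' ≠ e) x y' ∧ Conn src dst (fun e' => F e' ∧ e' ≠ e) x' y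

end Pool.Agent.DPO
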