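import Pool.Agent.DPO.Abs
import Pool.Agent.DPO.Graph

/-!
# From orientations to the abstract path problem and back
-/

namespace Pool.Agent.DPO

open Relation

/-- A multigraph with natural edge lengths, coordinates `D l` which are 1-Lipschitz, and
terminals. -/
structure Net (κ V E : Type*) where
  src : E → V
  dst : E → V
  len : E → ℕ
  ok : E → Prop
  fin : {e | ok e}.Finite
  D : κ → V → ℕ
  s : κ → V
  t : κ → V
  lip1 : ∀ l e, ok e → D l (dst e) ≤ D l (src e) + len e
  lip2 : ∀ l e, ok e → D l (src e) ≤ D l (dst e) + len e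

namespace Net

variable {κ V E : Type*} (G : Net κ V E)

/-- zero edges -/
def Z (e : E) : Prop := G.ok e ∧ G.len e = 0

/-- tail of a dart -/
def tail (d : E × Bool) : V := if d.2 then G.src d.1 else G.dst d.1

/-- head of a dart -/
def head (d : E × Bool) : V := if d.2 then G.dst d.1 else G.src d.1

/-- nodes: pairs (entry, exit) and darts -/
abbrev Node (V E : Type*) := (V × V) ⊕ (E × Bool)

/-- connected by zero edges -/
def ZConn (x y : V) : Prop := Conn G.src G.dst G.Z x y

/-- coordinates (doubled) -/
def δ (l : κ) : Node V E → ℕ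
  | .inl p => G.D l p.1 + G.D l p.1
  | .inr d => G.D l (G.src d.1) + G.D l (G.dst d.1)

/-- tight darts -/
def Tight (l : κ) (d : E × Bool) : Prop :=
  G.ok d.1 ∧ 0 < G.len d.1 ∧ G.D l (G.head d) = G.D l (G.tail d) + G.len d.1

/-- transitions -/
def T (l : κ) : Node V E → Node V E → Prop
  | .inl p, .inr d => G.ZConn p.1 p.2 ∧ G.Tight l d ∧ G.tail d = p.2
  | .inr d, .inl p => G.ZConn p.1 p.2 ∧ G.Tight l d ∧ G.head d = p.1
  | .inl _, .inl _ => False
  | .inr _, .inr _ => False

/-- conflicts -/
def Inc : Node V E → Node V E → Prop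
  | .inl p, .inl p' => G.ZConn p.1 p.2 ∧ G.ZConn p'.1 p'.2 ∧
      Opp G.src G.dst G.Z p.1 p.2 p'.1 p'.2
  | .inr d, .inr d' => G.ok d.1 ∧ d.1 = d'.1 ∧ d.2 ≠ d'.2
  | .inl _, .inr _ => False
  | .inr _, .inl _ => False

/-- start nodes -/
def S (l : κ) : Node V E → Prop
  | .inl p => G.ZConn p.1 p.2 ∧ p.1 = G.s l
  | .inr _ => False

/-- final nodes -/
def F (l : κ) : Node V E → Prop
  | .inl p => G.ZConn p.1 p.2 ∧ p.2 = G.t l
  | .inr _ => False

variable {G}

theorem Conn_mono {V E : Type*} {src dst : E → V} {F F' : E → Prop} (h : ∀ e, F e → F' e)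
    {x y : V} (hxy : Conn src dst F x y) : Conn src dst F' x y := by
  induction hxy with
  | refl => exact ReflTransGen.refl
  | tail _ hb ih =>
    obtain ⟨e, he, hab⟩ := hb
    exact ih.tail ⟨e, h e he, hab⟩

theorem Conn_symm {V E : Type*} {src dst : E → V} {F : E → Prop} {x y : V}
    (hxy : Conn src dst F x y) : Conn src dst F y x := by
  induction hxy with
  | refl => exact ReflTransGen.refl
  | tail _ hb ih =>
    obtain ⟨e, he, hab⟩ := hb
    exact ReflTransGen.head ⟨e, he, hab.symm⟩ ih

theorem ZConn.D_eq {x y : V} (h : G.ZConn x y) (l : κ) : G.D l x = G.D l y := by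
  induction h with
  | refl => rfl
  | tail _ hb ih =>
    obtain ⟨e, ⟨hok, h0⟩, hab⟩ := hb
    have h1 := G.lip1 l e hok
    have h2 := G.lip2 l e hok
    rw [ih]
    rcases hab with ⟨h3, h4⟩ | ⟨h3, h4⟩ <;> rw [h3, h4] at h1 h2 <;> omega

theorem src_dst_eq (d : E × Bool) (l : κ) :
    G.D l (G.src d.1) + G.D l (G.dst d.1) = G.D l (G.tail d) + G.D l (G.head d) := by
  rcases d with ⟨e, b⟩
  cases b
  · simp only [tail, head, Bool.false_eq_true, if_false]; omega
  · simp only [tail, head, if_true]

theorem lip_head (d : E × Bool) (hok : G.ok d.1) (l : κ) :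
    G.D l (G.head d) ≤ G.D l (G.tail d) + G.len d.1 ∧
    G.D l (G.tail d) ≤ G.D l (G.head d) + G.len d.1 := by
  have h1 := G.lip1 l d.1 hok
  have h2 := G.lip2 l d.1 hok
  rcases d with ⟨e, b⟩
  cases b
  · simp only [tail, head, Bool.false_eq_true, if_false]; exact ⟨h2, h1⟩
  · simp only [tail, head, if_true]; exact ⟨h1, h2⟩

theorem opp_symm {p p' : V × V}
    (h : Opp G.src G.dst G.Z p.1 p.2 p'.1 p'.2) : Opp G.src G.dst G.Z p'.1 p'.2 p.1 p.2 := by
  obtain ⟨e, he, h1, h2, h3⟩ := h
  refine ⟨e, he, ?_, h3, h2⟩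
  intro h4
  exact h1 (h2.trans ((Conn_symm h4).trans h3))

variable (G)

/-- The abstract path problem of a network. -/
def abs : Abs κ (Node V E) where
  δ := fun l x => (G.δ l x : ℤ)
  T := G.T
  Inc := G.Inc
  S := G.S
  F := G.F
  lip := by
    intro l m x y h
    rcases x with p | d <;> rcases y with p' | d'
    · exact h.elim
    · obtain ⟨hz, ⟨hok, _, ht⟩, htl⟩ := h
      have h1 := hz.D_eq m
      have h2 := hz.D_eq l
      have h3 := src_dst_eq (G := G) d' m
      have h4 := src_dst_eq (G := G) d' l
      have h5 := lip_head (G := G) d' hok m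
      rw [← htl] at h1 h2
      simp only [δ]
      rw [h3, h4, abs_le]
      push_cast
      omega
    · obtain ⟨hz, ⟨hok, _, ht⟩, htl⟩ := h
      have h3 := src_dst_eq (G := G) d m
      have h4 := src_dst_eq (G := G) d l
      have h5 := lip_head (G := G) d hok m
      simp only [δ]
      rw [h3, h4, abs_le, ← htl]
      push_cast
      omega
    · exact h.elim
  inc := by
    intro l x y h
    rcases x with p | d <;> rcases y with p' | d'
    · exact h.elim
    · obtain ⟨hz, ⟨hok, hpos, ht⟩, htl⟩ := h
      have h2 := hz.D_eq l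
      have h4 := src_dst_eq (G := G) d' l
      rw [← htl] at h2
      simp only [δ]
      rw [h4]
      push_cast
      omega
    · obtain ⟨hz, ⟨hok, hpos, ht⟩, htl⟩ := h
      have h4 := src_dst_eq (G := G) d l
      simp only [δ]
      rw [h4, ← htl]
      push_cast
      omega
    · exact h.elim
  symm := by
    intro x y h
    rcases x with p | d <;> rcases y with p' | d'
    · exact ⟨h.2.1, h.1, opp_symm h.2.2⟩
    · exact h.elim
    · exact h.elim
    · exact ⟨h.2.1 ▸ h.1, h.2.1.symm, h.2.2.symm⟩
  loc := by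
    intro x y h m
    rcases x with p | d <;> rcases y with p' | d'
    · obtain ⟨hz, hz', e, he, _, h2, h3⟩ := h
      have h4 : G.ZConn p.1 p'.2 := Conn_mono (fun e he => he.1) h2
      have h5 := h4.D_eq m
      have h6 := hz'.D_eq m
      simp only [δ]
      rw [h5, h6]
    · exact h.elim
    · exact h.elim
    · simp only [δ]; rw [h.2.1]

/-- Tight directed steps of an orientation. -/
def TStep (o : E → Bool) (l : κ) (x y : V) : Prop :=
  ∃ e, G.ok e ∧ ((o e = true ∧ G.src e = x ∧ G.dst e = y) ∨
    (o e = false ∧ G.src e = y ∧ G.dst e = x)) ∧ G.D l y = G.D l x + G.len e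

variable {G}

theorem DStep.uconn {V E : Type*} {src dst : E → V} {F : E → Prop} {o : E → Bool} {x y : V}
    (h : ReflTransGen (DStep src dst F o) x y) : Conn src dst F x y := by
  induction h with
  | refl => exact ReflTransGen.refl
  | tail _ hb ih =>
    obtain ⟨e, he, hab⟩ := hb
    refine ih.tail ⟨e, he, ?_⟩
    rcases hab with ⟨_, h⟩ | ⟨_, h⟩
    · exact Or.inl h
    · exact Or.inr h

/-- From an orientation to a solution of the abstract problem. -/
theorem solution_of_orientation
    (hopp : ∀ (o : E → Bool) {x y x' y' : V}, ReflTransGen (DStep G.src G.dst G.Z o) x y →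
      ReflTransGen (DStep G.src G.dst G.Z o) x' y' → ¬ Opp G.src G.dst G.Z x y x' y')
    (o : E → Bool) (h : ∀ l, ReflTransGen (G.TStep o l) (G.s l) (G.t l)) :
    ∃ P, G.abs.Solution P := by
  -- nodes realised by the orientation
  let R : Node V E → Prop := fun x => match x with
    | .inl p => ReflTransGen (DStep G.src G.dst G.Z o) p.1 p.2
    | .inr d => o d.1 = d.2
  have key : ∀ l x, ReflTransGen (G.TStep o l) x (G.t l) →
      ∃ (y : V) (P : List (Node V E)), (Sum.inl (x, y) :: P).IsChain (G.T l) ∧
        G.F l ((Sum.inl (x, y) :: P).getLast (by simp)) ∧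
        ∀ z ∈ (Sum.inl (x, y) :: P), R z := by
    intro l x hx
    induction hx using ReflTransGen.head_induction_on with
    | refl =>
      refine ⟨G.t l, [], by simp, ?_, ?_⟩
      · exact ⟨ReflTransGen.refl, rfl⟩
      · intro z hz
        simp only [List.mem_singleton] at hz
        subst hz
        exact ReflTransGen.refl
    | @head a b hab _ ih =>
      obtain ⟨y, P, hch, hF, hR⟩ := ih
      obtain ⟨e, hok, hdir, hD⟩ := hab
      have hRy : ReflTransGen (DStep G.src G.dst G.Z o) b y := hR (Sum.inl (b, y)) (by simp)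
      by_cases h0 : G.len e = 0
      · -- zero edge
        have hstep : DStep G.src G.dst G.Z o a b := ⟨e, ⟨hok, h0⟩, hdir⟩
        have hRa : ReflTransGen (DStep G.src G.dst G.Z o) a y := ReflTransGen.head hstep hRy
        refine ⟨y, P, ?_, ?_, ?_⟩
        · rcases P with _ | ⟨z, P⟩
          · simp
          · rw [List.isChain_cons_cons] at hch ⊢
            refine ⟨?_, hch.2⟩
            rcases z with p | d
            · exact hch.1.elim
            · exact ⟨DStep.uconn hRa, hch.1.2⟩
        · rcases P with _ | ⟨z, P⟩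
          · simp only [List.getLast_singleton] at hF ⊢
            exact ⟨DStep.uconn hRa, hF.2⟩
          · simp only [List.getLast_cons_cons] at hF ⊢
            exact hF
        · intro z hz
          rcases List.mem_cons.mp hz with rfl | hz
          · exact hRa
          · exact hR z (List.mem_cons_of_mem _ hz)
      · -- positive edge
        have hpos : 0 < G.len e := Nat.pos_of_ne_zero h0
        obtain ⟨c, hoc, htl, hhd⟩ : ∃ c : Bool, o e = c ∧ G.tail (e, c) = a ∧
            G.head (e, c) = b := by
          rcases hdir with ⟨h1, h2, h3⟩ | ⟨h1, h2, h3⟩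
          · exact ⟨true, h1, by simp [tail, h2], by simp [head, h3]⟩
          · exact ⟨false, h1, by simp [tail, h3], by simp [head, h2]⟩
        have htight : G.Tight l (e, c) := ⟨hok, hpos, by rw [htl, hhd]; exact hD⟩
        refine ⟨a, Sum.inr (e, c) :: Sum.inl (b, y) :: P, ?_, ?_, ?_⟩
        · rw [List.isChain_cons_cons, List.isChain_cons_cons]
          refine ⟨⟨ReflTransGen.refl, htight, htl⟩, ⟨DStep.uconn hRy, htight, hhd⟩, hch⟩
        · simp only [List.getLast_cons_cons]
          exact hF
        · intro z hz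
          rcases List.mem_cons.mp hz with rfl | hz
          · exact ReflTransGen.refl
          rcases List.mem_cons.mp hz with rfl | hz
          · exact hoc
          · exact hR z hz
  choose y P hch hF hR using fun l => key l (G.s l) (h l)
  refine ⟨fun l => Sum.inl (G.s l, y l) :: P l, ⟨fun l => by simp, hch, ?_, hF, ?_⟩⟩
  · intro l
    exact ⟨DStep.uconn (hR l (Sum.inl (G.s l, y l)) (by simp)), rfl⟩
  · intro l m _ x hx z hz hinc
    have h1 := hR l x hx
    have h2 := hR m z hz
    rcases x with p | d <;> rcases z with p' | d'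
    · exact hopp o h1 h2 hinc.2.2
    · exact hinc.elim
    · exact hinc.elim
    · have h3 : o d.1 = d.2 := h1
      have h4 : o d'.1 = d'.2 := h2
      have h5 : G.ok d.1 ∧ d.1 = d'.1 ∧ d.2 ≠ d'.2 := hinc
      apply h5.2.2
      rw [← h3, ← h4, h5.2.1]

/-- well-formed nodes for `l` -/
def WF (G : Net κ V E) (l : κ) : Node V E → Prop
  | .inl p => G.ZConn p.1 p.2
  | .inr d => G.Tight l d

theorem wf_of_T {l : κ} {x y : Node V E} (h : G.T l x y) : G.WF l x ∧ G.WF l y := by
  rcases x with p | d <;> rcases y with p' | d'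
  · exact h.elim
  · exact ⟨h.1, h.2.1⟩
  · exact ⟨h.2.1, h.1⟩
  · exact h.elim

theorem chain_wf {l : κ} : ∀ (W : List (Node V E)) (a : Node V E),
    (a :: W).IsChain (G.T l) → G.WF l a → ∀ x ∈ a :: W, G.WF l x := by
  intro W
  induction W with
  | nil =>
    intro a _ ha x hx
    simp only [List.mem_singleton] at hx
    rw [hx]; exact ha
  | cons b W ih =>
    intro a hch ha x hx
    rw [List.isChain_cons_cons] at hch
    rcases List.mem_cons.mp hx with rfl | hx
    · exact ha
    · exact ih b hch.2 (wf_of_T hch.1).2 x hx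

/-- entry and exit of a node -/
def entry (G : Net κ V E) : Node V E → V
  | .inl p => p.1
  | .inr d => G.tail d

/-- exit of a node -/
def exit (G : Net κ V E) : Node V E → V
  | .inl p => p.2
  | .inr d => G.head d

theorem exit_eq_entry {l : κ} {x y : Node V E} (h : G.T l x y) : G.exit x = G.entry y := by
  rcases x with p | d <;> rcases y with p' | d'
  · exact h.elim
  · exact h.2.2.symm
  · exact h.2.2
  · exact h.elim

theorem walk_of_chain {l : κ} {o : E → Bool} : ∀ (W : List (Node V E)) (a : Node V E),
    (a :: W).IsChain (G.T l) →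
    (∀ x ∈ a :: W, ReflTransGen (G.TStep o l) (G.entry x) (G.exit x)) →
    ReflTransGen (G.TStep o l) (G.entry a) (G.exit ((a :: W).getLast (by simp))) := by
  intro W
  induction W with
  | nil =>
    intro a _ h
    exact h a (by simp)
  | cons b W ih =>
    intro a hch h
    rw [List.isChain_cons_cons] at hch
    have h1 := h a (by simp)
    have h2 := ih b hch.2 (fun x hx => h x (List.mem_cons_of_mem _ hx))
    rw [exit_eq_entry hch.1] at h1
    rw [List.getLast_cons_cons]
    exact h1.trans h2

/-- From a solution of the abstract problem to an orientation. -/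
theorem orientation_of_solution
    (hex : ∀ (R : V → V → Prop), (∀ x y, R x y → Conn G.src G.dst G.Z x y) →
      (∀ x y x' y', R x y → R x' y' → ¬ Opp G.src G.dst G.Z x y x' y') →
      ∃ o : E → Bool, ∀ x y, R x y → ReflTransGen (DStep G.src G.dst G.Z o) x y)
    {P : κ → List (Node V E)} (hP : G.abs.Solution P) :
    ∃ o : E → Bool, ∀ l, ReflTransGen (G.TStep o l) (G.s l) (G.t l) := by
  classical
  -- nodes of the solution are well formed
  have hwf : ∀ l, ∀ x ∈ P l, G.WF l x := by
    intro l x hx
    have hne := hP.ne l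
    have hst := hP.start l
    have hch := hP.chain l
    rcases hPl : P l with _ | ⟨a, W⟩
    · exact absurd hPl hne
    · rw [hPl] at hx hch
      have ha : (P l).head hne = a := by simp [hPl]
      rw [ha] at hst
      refine chain_wf W a hch ?_ x hx
      rcases a with p | d
      · exact hst.1
      · exact hst.elim
  have hstrict : ∀ l, ∀ x ∈ P l, ∀ y ∈ P l, (∀ m, G.abs.δ m x = G.abs.δ m y) → x = y := by
    intro l x hx y hy hxy
    by_contra hne
    have h1 := hP.pairwise l
    have h2 : (P l).Pairwise (fun x y => G.abs.δ l x ≠ G.abs.δ l y) :=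
      h1.imp fun h => ne_of_lt h.2
    have : Std.Symm (fun x y => G.abs.δ l x ≠ G.abs.δ l y) := ⟨fun x y h => Ne.symm h⟩
    exact h2.forall hx hy hne (hxy l)
  let R : V → V → Prop := fun x y => ∃ l, Sum.inl (x, y) ∈ P l
  obtain ⟨o0, ho0⟩ := hex R (by
      rintro x y ⟨l, hl⟩
      exact hwf l _ hl) (by
      rintro x y x' y' ⟨l, hl⟩ ⟨m, hm⟩ hopp
      have hinc : G.abs.Inc (Sum.inl (x, y)) (Sum.inl (x', y')) :=
        ⟨hwf l _ hl, hwf m _ hm, hopp⟩
      by_cases hlm : l = m
      · subst hlm
        have := hstrict l _ hl _ hm (G.abs.loc _ _ hinc)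
        simp only [Sum.inl.injEq, Prod.mk.injEq] at this
        obtain ⟨rfl, rfl⟩ := this
        obtain ⟨e, _, h1, h2, _⟩ := hopp
        exact h1 h2
      · exact hP.free l m hlm _ hl _ hm hinc)
  let o : E → Bool := fun e => if ∃ l, Sum.inr (e, true) ∈ P l then true else
    if ∃ l, Sum.inr (e, false) ∈ P l then false else o0 e
  have ho1 : ∀ l e b, Sum.inr (e, b) ∈ P l → o e = b := by
    intro l e b hl
    cases b
    · have hno : ¬ ∃ m, Sum.inr (e, true) ∈ P m := by
        rintro ⟨m, hm⟩
        have hinc : G.abs.Inc (Sum.inr (e, true)) (Sum.inr (e, false)) :=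
          ⟨(hwf m _ hm).1, rfl, by simp⟩
        by_cases hlm : m = l
        · subst hlm
          have := hstrict m _ hm _ hl (G.abs.loc _ _ hinc)
          simp at this
        · exact hP.free m l hlm _ hm _ hl hinc
      have hyes : ∃ l, Sum.inr (e, false) ∈ P l := ⟨l, hl⟩
      simp only [o, hno, hyes, if_true, if_false]
    · have hyes : ∃ l, Sum.inr (e, true) ∈ P l := ⟨l, hl⟩
      simp only [o, hyes, if_true]
  have ho2 : ∀ e, G.len e = 0 → o e = o0 e := by
    intro e he
    have hno : ∀ b, ¬ ∃ m, Sum.inr (e, b) ∈ P m := by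
      rintro b ⟨m, hm⟩
      have := (hwf m _ hm).2.1
      simp only at this
      omega
    simp only [o, hno true, hno false, if_false]
  refine ⟨o, fun l => ?_⟩
  have hnode : ∀ x ∈ P l, ReflTransGen (G.TStep o l) (G.entry x) (G.exit x) := by
    intro x hx
    rcases x with ⟨x, y⟩ | ⟨e, b⟩
    · have h1 : ReflTransGen (DStep G.src G.dst G.Z o0) x y := ho0 x y ⟨l, hx⟩
      simp only [entry, exit]
      refine ReflTransGen.mono ?_ _ _ h1
      rintro u v ⟨e, ⟨hok, h0⟩, hdir⟩
      have hD : G.D l u = G.D l v := by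
        apply ZConn.D_eq
        refine ReflTransGen.single ⟨e, ⟨hok, h0⟩, ?_⟩
        rcases hdir with ⟨_, h⟩ | ⟨_, h⟩
        · exact Or.inl h
        · exact Or.inr h
      refine ⟨e, hok, ?_, by rw [h0, hD]; rfl⟩
      rw [ho2 e h0]
      exact hdir
    · have hw := hwf l _ hx
      have hoe := ho1 l e b hx
      refine ReflTransGen.single ⟨e, hw.1, ?_, hw.2.2⟩
      cases b
      · right; exact ⟨hoe, by simp [exit, head], by simp [entry, tail]⟩
      · left; exact ⟨hoe, by simp [entry, tail], by simp [exit, head]⟩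
  have hne := hP.ne l
  have hst := hP.start l
  have hfi := hP.final l
  have hch := hP.chain l
  rcases hPl : P l with _ | ⟨a, W⟩
  · exact absurd hPl hne
  · rw [hPl] at hnode hch
    have h1 := walk_of_chain W a hch hnode
    have ha : (P l).head hne = a := by simp [hPl]
    rw [ha] at hst
    have e1 : G.entry a = G.s l := by
      rcases a with p | d
      · exact hst.2
      · exact hst.elim
    have hlast : (P l).getLast hne = (a :: W).getLast (by simp) := by
      simp only [hPl]
    rw [hlast] at hfi
    have e2 : G.exit ((a :: W).getLast (by simp)) = G.t l := by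
      rcases hz : (a :: W).getLast (by simp) with p | d
      · rw [hz] at hfi
        exact hfi.2
      · rw [hz] at hfi
        exact hfi.elim
    rw [e1, e2] at h1
    exact h1

end Net

end Pool.Agent.DPO
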