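import Pool.Agent.DPO.Alg
import Pool.Agent.DPO.Cert
import Pool.Agent.DPO.Reduce

/-!
# Correctness of the algorithm
-/

namespace Pool.Agent.DPO

open Pool.Agent.PT Relation

/-- Well-formed data. -/
structure Good (k : ℕ) (Γ : Ctx) : Prop where
  hG : ∀ e ∈ Γ.2.1, e.1 < Γ.1 ∧ e.2.1 < Γ.1
  hs : ∀ l < k, pS Γ l < Γ.1
  ht : ∀ l < k, pT0 Γ l < Γ.1

/-- the graph with natural lengths -/
def valG (Γ : Ctx) : List (ℕ × ℕ × ℕ) := Γ.2.1.map fun e => (e.1, e.2.1, bval e.2.2)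

theorem mem_valG {Γ : Ctx} {e : ℕ} (he : e < Γ.2.1.length) :
    (eS Γ e, eT Γ e, bval (eL Γ e)) ∈ valG Γ := by
  rw [valG, List.mem_map]
  refine ⟨Γ.2.1[e], List.getElem_mem he, ?_⟩
  simp only [eS, eT, eL, List.getD_eq_getElem _ _ he]

variable {k : ℕ} {Γ : Ctx}

theorem Good.end_lt (h : Good k Γ) {e : ℕ} (he : e < Γ.2.1.length) :
    eS Γ e < Γ.1 ∧ eT Γ e < Γ.1 := by
  have := h.hG (Γ.2.1[e]) (List.getElem_mem he)
  simp only [eS, eT, List.getD_eq_getElem _ _ he]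
  exact this

theorem Good.dO_none (h : Good k Γ) {l v : ℕ} (hl : l < k) (hv : v < Γ.1) (hn : dO Γ l v = none)
    (L : ℕ) : ¬ NWalk (valG Γ) (pS Γ l) v L := bf_none h.hG (h.hs l hl) hv hn L

theorem Good.dO_some (h : Good k Γ) {l v : ℕ} (hl : l < k) (hv : v < Γ.1) {b : List Bool}
    (hn : dO Γ l v = some b) : NWalk (valG Γ) (pS Γ l) v (bval b) ∧
      ∀ L, NWalk (valG Γ) (pS Γ l) v L → bval b ≤ L := bf_some h.hG (h.hs l hl) hv hn

theorem Good.lip (h : Good k Γ) {l u v c : ℕ} (hl : l < k) (hu : u < Γ.1) (hv : v < Γ.1)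
    (hw : NWalk (valG Γ) u v c) : bval (dB Γ l v) ≤ bval (dB Γ l u) + c := by
  simp only [dB]
  cases hdu : dO Γ l u with
  | none =>
    cases hdv : dO Γ l v with
    | none => simp
    | some b =>
      exfalso
      exact h.dO_none hl hu hdu _ ((h.dO_some hl hv hdv).1.trans hw.symm)
  | some a =>
    have hwalk := (h.dO_some hl hu hdu).1.trans hw
    cases hdv : dO Γ l v with
    | none => exact absurd hwalk (h.dO_none hl hv hdv _)
    | some b => exact (h.dO_some hl hv hdv).2 _ hwalk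

/-- The network of the data. -/
def net (h : Good k Γ) : Net (Fin k) ℕ ℕ where
  src := eS Γ
  dst := eT Γ
  len := fun e => bval (eL Γ e)
  ok := fun e => e < Γ.2.1.length
  fin := Set.finite_lt_nat _
  D := fun l v => bval (dB Γ l v)
  s := fun l => pS Γ l
  t := fun l => pT Γ l
  lip1 := by
    intro l e he
    have h1 := h.end_lt he
    have hw : NWalk (valG Γ) (eS Γ e) (eT Γ e) (bval (eL Γ e) + 0) :=
      NWalk.fwd (mem_valG he) (NWalk.nil _)
    exact h.lip l.2 h1.1 h1.2 hw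
  lip2 := by
    intro l e he
    have h1 := h.end_lt he
    have hw : NWalk (valG Γ) (eT Γ e) (eS Γ e) (bval (eL Γ e) + 0) :=
      NWalk.bwd (mem_valG he) (NWalk.nil _)
    exact h.lip l.2 h1.2 h1.1 hw

variable (h : Good k Γ)

theorem isZ_iff (e : ℕ) : isZ Γ e = true ↔ (net h).Z e := by
  simp only [isZ, Bool.and_eq_true, decide_eq_true_eq, ble_iff, Net.Z, net, bval_nil]
  omega

theorem zE_iff (a x y : ℕ) :
    zE Γ a x y = true ↔ UStep (eS Γ) (eT Γ) (fun e => (net h).Z e ∧ e ≠ a) x y := by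
  simp only [zE, List.any_eq_true, List.mem_range, Bool.and_eq_true, Bool.or_eq_true,
    Bool.not_eq_true', decide_eq_false_iff_not, decide_eq_true_eq, UStep, isZ_iff h]
  constructor
  · rintro ⟨e, _, ⟨h1, h2⟩, h3⟩
    exact ⟨e, ⟨h1, h2⟩, h3⟩
  · rintro ⟨e, ⟨h1, h2⟩, h3⟩
    exact ⟨e, h1.1, ⟨h1, h2⟩, h3⟩

theorem zC_iff (a : ℕ) {x : ℕ} (hx : x < Γ.1) (y : ℕ) :
    zC Γ a x y = true ↔ Conn (eS Γ) (eT Γ) (fun e => (net h).Z e ∧ e ≠ a) x y := by
  rw [zC, decide_eq_true_eq, mem_reachL (List.mem_range.mpr hx)]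
  constructor
  · intro hr
    induction hr with
    | refl => exact ReflTransGen.refl
    | tail _ hb ih => exact ih.tail ((zE_iff h a _ _).mp hb.2)
  · intro hr
    induction hr with
    | refl => exact ReflTransGen.refl
    | @tail b c _ hb ih =>
      refine ih.tail ⟨?_, (zE_iff h a _ _).mpr hb⟩
      obtain ⟨e, he, hbc⟩ := hb
      have h1 := h.end_lt (show e < Γ.2.1.length from he.1.1)
      rw [List.mem_range]
      rcases hbc with ⟨_, rfl⟩ | ⟨rfl, _⟩
      · exact h1.2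
      · exact h1.1

theorem cB_iff {x : ℕ} (hx : x < Γ.1) (y : ℕ) : cB Γ x y = true ↔ (net h).ZConn x y := by
  rw [cB, zC_iff h _ hx]
  have : (fun e => (net h).Z e ∧ e ≠ Γ.2.1.length) = (net h).Z := by
    funext e
    apply propext
    constructor
    · exact fun h => h.1
    · intro he
      refine ⟨he, ?_⟩
      have : e < Γ.2.1.length := he.1
      omega
  rw [this]
  rfl

theorem conn_lt {x y : ℕ} (hxy : (net h).ZConn x y) : x < Γ.1 ↔ y < Γ.1 := by
  induction hxy with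
  | refl => rfl
  | @tail b c _ hb ih =>
    rw [ih]
    obtain ⟨e, he, hbc⟩ := hb
    have h1 := h.end_lt (show e < Γ.2.1.length from he.1)
    rcases hbc with ⟨rfl, rfl⟩ | ⟨rfl, rfl⟩
    · exact ⟨fun _ => h1.2, fun _ => h1.1⟩
    · exact ⟨fun _ => h1.1, fun _ => h1.2⟩

theorem opB_iff {p p' : ℕ × ℕ} (hp : p.1 < Γ.1) (hp' : p'.1 < Γ.1) :
    opB Γ p p' = true ↔ Opp (eS Γ) (eT Γ) (net h).Z p.1 p.2 p'.1 p'.2 := by
  simp only [opB, List.any_eq_true, List.mem_range, Bool.and_eq_true, Opp]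
  constructor
  · rintro ⟨e, he, ⟨⟨h1, h2⟩, h3⟩, h4⟩
    refine ⟨e, (isZ_iff h e).mp h1, ?_, (zC_iff h e hp _).mp h3, (zC_iff h e hp' _).mp h4⟩
    intro h5
    rw [← zC_iff h e hp] at h5
    rw [h5] at h2
    simp at h2
  · rintro ⟨e, h1, h2, h3, h4⟩
    refine ⟨e, h1.1, ⟨⟨(isZ_iff h e).mpr h1, ?_⟩, (zC_iff h e hp _).mpr h3⟩,
      (zC_iff h e hp' _).mpr h4⟩
    rw [Bool.not_eq_true', Bool.eq_false_iff]
    intro h5
    exact h2 ((zC_iff h e hp _).mp h5)

theorem bEq_iff (a b : List Bool) : bEq a b = true ↔ bval a = bval b := by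
  simp only [bEq, Bool.and_eq_true, ble_iff]
  omega

theorem bLt_iff (a b : List Bool) : bLt a b = true ↔ bval a < bval b := by
  simp only [bLt, Bool.not_eq_true', Bool.eq_false_iff]
  rw [ne_eq, ble_iff]
  omega

theorem tlB_eq (d : ℕ × Bool) : tlB Γ d = (net h).tail d := by
  rcases d with ⟨e, b⟩
  cases b <;> rfl

theorem hdB_eq (d : ℕ × Bool) : hdB Γ d = (net h).head d := by
  rcases d with ⟨e, b⟩
  cases b <;> rfl

theorem tgB_iff (l : Fin k) (d : ℕ × Bool) : tgB Γ l d = true ↔ (net h).Tight l d := by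
  simp only [tgB, Bool.and_eq_true, decide_eq_true_eq, Bool.not_eq_true', Bool.eq_false_iff,
    ne_eq, ble_iff, bEq_iff, bval_badd, Net.Tight, tlB_eq h, hdB_eq h, bval_nil]
  constructor
  · rintro ⟨⟨h1, h2⟩, h3⟩
    exact ⟨h1, by change 0 < bval _; omega, h3⟩
  · rintro ⟨h1, h2, h3⟩
    exact ⟨⟨h1, by change 0 < bval _ at h2; omega⟩, h3⟩

/-- well-formed nodes -/
def Wf (Γ : Ctx) : Nd → Prop
  | .inl p => p.1 < Γ.1 ∧ p.2 < Γ.1
  | .inr d => d.1 < Γ.2.1.length

theorem mem_ndL (x : Nd) : x ∈ ndL Γ ↔ Wf Γ x := by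
  rcases x with ⟨x, y⟩ | ⟨e, b⟩
  · simp [ndL, Wf]
  · simp [ndL, Wf]

theorem TB_iff (l : Fin k) {x y : Nd} (hx : Wf Γ x) (hy : Wf Γ y) :
    TB Γ l x y = true ↔ (net h).T l x y := by
  rcases x with p | d <;> rcases y with p' | d'
  · simp [TB, Net.T]
  · simp only [TB, Net.T, Bool.and_eq_true, decide_eq_true_eq, cB_iff h hx.1, tgB_iff h,
      tlB_eq h, and_assoc]
  · simp only [TB, Net.T, Bool.and_eq_true, decide_eq_true_eq, cB_iff h hy.1, tgB_iff h,
      hdB_eq h, and_assoc]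
  · simp [TB, Net.T]

theorem IB_iff {x y : Nd} (hx : Wf Γ x) (hy : Wf Γ y) :
    IB Γ x y = true ↔ (net h).Inc x y := by
  rcases x with p | d <;> rcases y with p' | d'
  · simp only [IB, Net.Inc, Bool.and_eq_true, cB_iff h hx.1, cB_iff h hy.1,
      opB_iff h hx.1 hy.1, and_assoc]
    rfl
  · simp [IB, Net.Inc]
  · simp [IB, Net.Inc]
  · simp only [IB, Net.Inc, Bool.and_eq_true, decide_eq_true_eq, Bool.not_eq_true',
      decide_eq_false_iff_not, and_assoc]
    rfl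

theorem SB_iff (l : Fin k) {x : Nd} (hx : Wf Γ x) : SB Γ l x = true ↔ (net h).S l x := by
  rcases x with p | d
  · simp only [SB, Net.S, Bool.and_eq_true, decide_eq_true_eq, cB_iff h hx.1]
    rfl
  · simp [SB, Net.S]

theorem FB_iff (l : Fin k) {x : Nd} (hx : Wf Γ x) : FB Γ l x = true ↔ (net h).F l x := by
  rcases x with p | d
  · simp only [FB, Net.F, Bool.and_eq_true, decide_eq_true_eq, cB_iff h hx.1]
    rfl
  · simp [FB, Net.F]

theorem δB_eq (l : Fin k) (x : Nd) : (bval (δB Γ l x) : ℤ) = (net h).abs.δ l x := by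
  rcases x with p | d
  · simp only [δB, bval_badd]
    rfl
  · simp only [δB, bval_badd]
    rfl

theorem leB_iff (l : Fin k) (x y : Nd) : leB k Γ l x y = true ↔ (net h).abs.Le l x y := by
  simp only [leB, List.all_eq_true, List.mem_range, Bool.and_eq_true, ble_iff, bval_badd, Abs.Le]
  constructor
  · intro H m
    obtain ⟨h1, h2⟩ := H m m.2
    have e1 := δB_eq h m x
    have e2 := δB_eq h m y
    have e3 := δB_eq h l x
    have e4 := δB_eq h l y
    rw [← e1, ← e2, ← e3, ← e4, abs_le]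
    omega
  · intro H m hm
    have H' := H ⟨m, hm⟩
    have e1 := δB_eq h ⟨m, hm⟩ x
    have e2 := δB_eq h ⟨m, hm⟩ y
    have e3 := δB_eq h l x
    have e4 := δB_eq h l y
    rw [← e1, ← e2, ← e3, ← e4, abs_le] at H'
    simp only at H'
    omega

theorem btB_iff (l : Fin k) (a x b : Nd) :
    btB k Γ l a x b = true ↔ (net h).abs.Btw l a x b := by
  simp only [btB, Bool.and_eq_true, leB_iff h, bLt_iff]
  have e1 := δB_eq h l a
  have e2 := δB_eq h l x
  have e3 := δB_eq h l b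
  constructor
  · rintro ⟨⟨⟨h1, h2⟩, h3⟩, h4⟩
    exact ⟨h1, h2, by rw [← e1, ← e2]; exact_mod_cast h3, by rw [← e2, ← e3]; exact_mod_cast h4⟩
  · rintro ⟨h1, h2, h3, h4⟩
    rw [← e1, ← e2] at h3
    rw [← e2, ← e3] at h4
    exact ⟨⟨⟨h1, h2⟩, by exact_mod_cast h3⟩, by exact_mod_cast h4⟩

theorem wf_T {l : Fin k} {x y : Nd} (hxy : (net h).T l x y) : Wf Γ x ∧ Wf Γ y := by
  rcases x with p | d <;> rcases y with p' | d'
  · exact hxy.elim
  · obtain ⟨h1, h2, h3⟩ := hxy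
    have h4 := h.end_lt (show d'.1 < Γ.2.1.length from h2.1)
    have h5 : p.2 < Γ.1 := by
      rw [← h3]
      rcases d' with ⟨e, b⟩
      cases b
      · exact h4.2
      · exact h4.1
    exact ⟨⟨(conn_lt h h1).mpr h5, h5⟩, h2.1⟩
  · obtain ⟨h1, h2, h3⟩ := hxy
    have h4 := h.end_lt (show d.1 < Γ.2.1.length from h2.1)
    have h5 : p'.1 < Γ.1 := by
      rw [← h3]
      rcases d with ⟨e, b⟩
      cases b
      · exact h4.1
      · exact h4.2
    exact ⟨h2.1, ⟨h5, (conn_lt h h1).mp h5⟩⟩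
  · exact hxy.elim

theorem wf_S {l : Fin k} {x : Nd} (hx : (net h).S l x) : Wf Γ x := by
  rcases x with p | d
  · obtain ⟨h1, h2⟩ := hx
    have h3 : p.1 < Γ.1 := by rw [h2]; exact h.hs l l.2
    exact ⟨h3, (conn_lt h h1).mp h3⟩
  · exact hx.elim

theorem wf_Inc {x y : Nd} (hxy : (net h).Inc x y) : Wf Γ x ∧ Wf Γ y := by
  rcases x with p | d <;> rcases y with p' | d'
  · obtain ⟨h1, h2, h3⟩ := hxy
    have key : ∀ p : ℕ × ℕ, ∀ p' : ℕ × ℕ, (net h).ZConn p.1 p.2 →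
        Opp (net h).src (net h).dst (net h).Z p.1 p.2 p'.1 p'.2 → p.1 < Γ.1 ∧ p.2 < Γ.1 := by
      intro p p' hc ho
      have hne : p.1 ≠ p.2 := by
        rintro heq
        obtain ⟨e, _, h5, _⟩ := ho
        apply h5
        rw [heq]
        exact ReflTransGen.refl
      rcases ReflTransGen.cases_head hc with h5 | ⟨c, h5, _⟩
      · exact absurd h5 hne
      · obtain ⟨e, he, hbc⟩ := h5
        have h1 := h.end_lt (show e < Γ.2.1.length from he.1)
        have h6 : p.1 < Γ.1 := by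
          rcases hbc with ⟨h7, _⟩ | ⟨_, h7⟩
          · rw [← h7]; exact h1.1
          · rw [← h7]; exact h1.2
        exact ⟨h6, (conn_lt h hc).mp h6⟩
    exact ⟨key p p' h1 h3, key p' p h2 (Net.opp_symm h3)⟩
  · exact hxy.elim
  · exact hxy.elim
  · exact ⟨hxy.1, by
      change d'.1 < _
      rw [← hxy.2.1]; exact hxy.1⟩

end Pool.Agent.DPO
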