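import Pool.Agent.DPO.AlgCorrect

/-!
# Correctness of the algorithm: certificates and sweeps
-/

namespace Pool.Agent.DPO

open Pool.Agent.PT Relation

variable {k B : ℕ} {Γ : Ctx} (h : Good k Γ)

/-- list of lists from a function -/
def ofP {σ : Type*} (p : Fin k → Fin (B + 1) → σ) : List (List σ) :=
  List.ofFn fun l => List.ofFn fun j => p l j

theorem getD_ofP {σ : Type*} (p : Fin k → Fin (B + 1) → σ) (l : Fin k) (j : Fin (B + 1)) (d : σ) :
    ((ofP p).getD l []).getD j d = p l j := by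
  have hl : (l : ℕ) < (ofP p).length := by simp [ofP]
  have e : (ofP p).getD l [] = List.ofFn fun j => p l j := by
    rw [List.getD_eq_getElem _ _ hl]
    simp only [ofP, List.getElem_ofFn]
  rw [e]
  have hj : (j : ℕ) < (List.ofFn fun j => p l j).length := by
    rw [List.length_ofFn]; exact j.2
  rw [List.getD_eq_getElem _ _ hj, List.getElem_ofFn]

theorem ofP_mem {σ : Type*} {X : List σ} {p : Fin k → Fin (B + 1) → σ} (hp : ∀ l j, p l j ∈ X) :
    ofP p ∈ allL k (allL (B + 1) X) := by
  rw [mem_allL]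
  refine ⟨by simp [ofP], ?_⟩
  intro l hl
  rw [ofP, List.mem_ofFn] at hl
  obtain ⟨i, rfl⟩ := hl
  rw [mem_allL]
  refine ⟨by simp, ?_⟩
  intro x hx
  rw [List.mem_ofFn] at hx
  obtain ⟨j, rfl⟩ := hx
  exact hp i j

theorem getD_mem_allL {σ : Type*} {X : List σ} {c : List (List σ)}
    (hc : c ∈ allL k (allL (B + 1) X)) (l : Fin k) (j : Fin (B + 1)) (d : σ) :
    (c.getD l []).getD j d ∈ X := by
  rw [mem_allL] at hc
  have hl : (l : ℕ) < c.length := by rw [hc.1]; exact l.2
  rw [List.getD_eq_getElem _ _ hl]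
  have h1 := hc.2 _ (List.getElem_mem hl)
  rw [mem_allL] at h1
  have key : ∀ w : List σ, (w.length = B + 1 ∧ ∀ x ∈ w, x ∈ X) → w.getD j d ∈ X := by
    intro w hw
    have hj : (j : ℕ) < w.length := by rw [hw.1]; exact j.2
    rw [List.getD_eq_getElem _ _ hj]
    exact hw.2 _ (List.getElem_mem hj)
  exact key _ h1

theorem map_range_eq {σ : Type*} (f : ℕ → ℕ → σ) :
    ((List.range k).map fun l => (List.range (B + 1)).map fun j => f l j) =
      ofP (fun (l : Fin k) (j : Fin (B + 1)) => f l j) := by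
  simp only [ofP]
  apply List.ext_getElem
  · simp
  · intro i h1 h2
    simp only [List.getElem_map, List.getElem_range, List.getElem_ofFn]
    apply List.ext_getElem
    · simp
    · intro j h3 h4
      simp only [List.getElem_map, List.getElem_range, List.getElem_ofFn]

/-- the static conditions in terms of functions -/
theorem stB_iff {c : List (List Sg)} (a b : Fin k → Fin (B + 1) → Nd)
    (r : Fin k → Fin (B + 1) → Fin k)
    (hc : ∀ l j, sg c (l : Fin k) (j : Fin (B + 1)) = (a l j, b l j, (r l j : ℕ)))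
    (ha : ∀ l j, Wf Γ (a l j)) (hb : ∀ l j, Wf Γ (b l j)) :
    stB k B Γ c = true ↔ (net h).abs.Static a b r := by
  have h0 : ∀ l : Fin k, sg c l 0 = (a l 0, b l 0, (r l 0 : ℕ)) := fun l => hc l 0
  have hB : ∀ l : Fin k, sg c l B = (a l (Fin.last B), b l (Fin.last B), (r l (Fin.last B) : ℕ)) :=
    fun l => hc l (Fin.last B)
  have hpo : ∀ (l m : Fin k) (j j' : Fin (B + 1)), poB k Γ l m (a l j, b l j, (r l j : ℕ))
      (a m j', b m j', (r m j' : ℕ)) = true ↔
      (¬ (net h).Inc (a l j) (a m j') ∧ ¬ (net h).Inc (a l j) (b m j') ∧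
        ¬ (net h).Inc (b l j) (b m j')) ∧
      (∀ x y, (net h).abs.Btw l (a l j) x (b l j) → (net h).abs.Btw m (a m j') y (b m j') →
        (net h).Inc x y → r l j = r m j') := by
    intro l m j j'
    simp only [poB, Bool.and_eq_true, Bool.not_eq_true', Bool.eq_false_iff, ne_eq,
      IB_iff h (ha l j) (ha m j'), IB_iff h (ha l j) (hb m j'), IB_iff h (hb l j) (hb m j'),
      Bool.or_eq_true, decide_eq_true_eq, List.all_eq_true, btB_iff h]
    constructor
    · rintro ⟨⟨⟨h1, h2⟩, h3⟩, h4⟩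
      refine ⟨⟨h1, h2, h3⟩, ?_⟩
      intro x y hx hy hxy
      rcases h4 with h4 | h4
      · exact Fin.ext h4
      · exfalso
        obtain ⟨wx, wy⟩ := wf_Inc h hxy
        apply h4 x ((mem_ndL x).mpr wx) y ((mem_ndL y).mpr wy)
        exact ⟨⟨hx, hy⟩, (IB_iff h wx wy).mpr hxy⟩
    · rintro ⟨⟨h1, h2, h3⟩, h4⟩
      refine ⟨⟨⟨h1, h2⟩, h3⟩, ?_⟩
      by_cases hr : r l j = r m j'
      · left; rw [hr]
      · right
        intro x hx y hy hh
        obtain ⟨⟨h5, h6⟩, h7⟩ := hh
        exact hr (h4 x y h5 h6 ((IB_iff h ((mem_ndL x).mp hx) ((mem_ndL y).mp hy)).mp h7))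
  have hts : ∀ (l : Fin k) (j : Fin (B + 1)), tsB Γ l (a l j, b l j, (r l j : ℕ)) = true ↔
      |(net h).abs.δ (r l j) (b l j) - (net h).abs.δ (r l j) (a l j)| =
        (net h).abs.δ l (b l j) - (net h).abs.δ l (a l j) := by
    intro l j
    simp only [tsB, Bool.or_eq_true, Bool.and_eq_true, bEq_iff, ble_iff, bval_badd]
    have e1 := δB_eq h (r l j) (a l j)
    have e2 := δB_eq h (r l j) (b l j)
    have e3 := δB_eq h l (a l j)
    have e4 := δB_eq h l (b l j)
    rw [← e1, ← e2, ← e3, ← e4]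
    constructor
    · rintro (⟨h1, h2⟩ | ⟨h1, h2⟩)
      · rw [abs_of_nonneg (by omega)]; omega
      · rw [abs_of_nonpos (by omega)]; omega
    · intro h1
      rcases abs_choice ((bval (δB Γ (r l j) (b l j)) : ℤ) - bval (δB Γ (r l j) (a l j))) with
        h2 | h2
      · left
        have := abs_nonneg ((bval (δB Γ (r l j) (b l j)) : ℤ) - bval (δB Γ (r l j) (a l j)))
        omega
      · right
        have := abs_nonneg ((bval (δB Γ (r l j) (b l j)) : ℤ) - bval (δB Γ (r l j) (a l j)))
        omega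
  simp only [stB, List.all_eq_true, List.mem_range, Bool.and_eq_true, Bool.or_eq_true,
    decide_eq_true_eq]
  constructor
  · intro H
    refine ⟨?_, ?_, ?_, ?_, ?_, ?_, ?_, ?_⟩
    · intro l
      have := (H l l.2).1.1.1.1
      rw [h0 l] at this
      exact (SB_iff h l (ha l 0)).mp this
    · intro l
      have := (H l l.2).1.1.1.2
      rw [hB l] at this
      exact (FB_iff h l (hb l (Fin.last B))).mp this
    · intro l j
      have := (H l l.2).1.1.2 j j.2
      have e1 := hc l j.castSucc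
      have e2 := hc l j.succ
      simp only [Fin.val_castSucc, Fin.val_succ] at e1 e2
      rw [e1, e2] at this
      rcases this with h1 | h1
      · exact Or.inl ((TB_iff h l (hb _ _) (ha _ _)).mp h1)
      · exact Or.inr h1
    · intro l j
      have := (H l l.2).1.2 j j.2
      rw [hc l j] at this
      exact (hts l j).mp this
    · intro l m hlm j j'
      have := ((H l l.2).2 m m.2).resolve_left (fun h => hlm (Fin.ext h)) j j.2 j' j'.2
      rw [hc l j, hc m j'] at this
      exact ((hpo l m j j').mp this).1.1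
    · intro l m hlm j j'
      have := ((H l l.2).2 m m.2).resolve_left (fun h => hlm (Fin.ext h)) j j.2 j' j'.2
      rw [hc l j, hc m j'] at this
      exact ((hpo l m j j').mp this).1.2.1
    · intro l m hlm j j'
      have := ((H l l.2).2 m m.2).resolve_left (fun h => hlm (Fin.ext h)) j j.2 j' j'.2
      rw [hc l j, hc m j'] at this
      exact ((hpo l m j j').mp this).1.2.2
    · intro l m hlm j j'
      have := ((H l l.2).2 m m.2).resolve_left (fun h => hlm (Fin.ext h)) j j.2 j' j'.2
      rw [hc l j, hc m j'] at this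
      exact ((hpo l m j j').mp this).2
  · intro H l hl
    have h0' := h0 ⟨l, hl⟩
    have hB' := hB ⟨l, hl⟩
    simp only at h0' hB'
    refine ⟨⟨⟨⟨?_, ?_⟩, ?_⟩, ?_⟩, ?_⟩
    · rw [h0']
      exact (SB_iff h ⟨l, hl⟩ (ha _ 0)).mpr (H.start ⟨l, hl⟩)
    · rw [hB']
      exact (FB_iff h ⟨l, hl⟩ (hb _ _)).mpr (H.final ⟨l, hl⟩)
    · intro j hj
      have := H.link ⟨l, hl⟩ ⟨j, hj⟩
      have e1 := hc ⟨l, hl⟩ (Fin.castSucc ⟨j, hj⟩)
      have e2 := hc ⟨l, hl⟩ (Fin.succ ⟨j, hj⟩)
      simp only [Fin.val_castSucc, Fin.val_succ] at e1 e2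
      rw [e1, e2]
      rcases this with h1 | h1
      · exact Or.inl ((TB_iff h ⟨l, hl⟩ (hb _ _) (ha _ _)).mpr h1)
      · exact Or.inr h1
    · intro j hj
      have e1 := hc ⟨l, hl⟩ ⟨j, hj⟩
      simp only at e1
      rw [e1]
      exact (hts ⟨l, hl⟩ ⟨j, hj⟩).mpr (H.tight _ _)
    · intro m hm
      by_cases hlm : l = m
      · exact Or.inl hlm
      · right
        intro j hj j' hj'
        have e1 := hc ⟨l, hl⟩ ⟨j, hj⟩
        have e2 := hc ⟨m, hm⟩ ⟨j', hj'⟩
        simp only at e1 e2
        rw [e1, e2]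
        have hne : (⟨l, hl⟩ : Fin k) ≠ ⟨m, hm⟩ := fun h => hlm (Fin.mk.inj_iff.mp h)
        exact (hpo ⟨l, hl⟩ ⟨m, hm⟩ ⟨j, hj⟩ ⟨j', hj'⟩).mpr
          ⟨⟨H.faa _ _ hne _ _, H.fab _ _ hne _ _, H.fbb _ _ hne _ _⟩, H.root _ _ hne _ _⟩

/-- value of a threshold -/
def valO : Option (List Bool) → WithBot ℤ
  | none => ⊥
  | some b => ((bval b : ℤ) : WithBot ℤ)

theorem oLt_iff (x y : Option (List Bool)) : oLt x y = true ↔ valO x < valO y := by
  cases x <;> cases y
  · simp [oLt, valO]
  · simp [oLt, valO]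
  · simp [oLt, valO]
  · simp only [oLt, valO, bLt_iff, WithBot.coe_lt_coe]
    omega

theorem oEq_iff (x : List Bool) (y : Option (List Bool)) :
    oEq x y = true ↔ ((bval x : ℤ) : WithBot ℤ) = valO y := by
  cases y
  · simp [oEq, valO]
  · simp only [oEq, valO, bEq_iff, WithBot.coe_inj]
    omega

/-- positions as a function -/
def posF (k B : ℕ) (p : List (List Nd)) : Fin k × Fin (B + 1) → Nd := fun i => ps p i.1 i.2

section sweep

variable {c : List (List Sg)} (a b : Fin k → Fin (B + 1) → Nd)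
    (r : Fin k → Fin (B + 1) → Fin k)

theorem upB_iff (l : Fin k) (j : Fin (B + 1)) :
    upB Γ (a l j, b l j, (r l j : ℕ)) = true ↔ (net h).abs.Up a b r (l, j) := by
  simp only [upB, ble_iff, Abs.Up, Abs.ht]
  have e1 := δB_eq h (r l j) (a l j)
  have e2 := δB_eq h (r l j) (b l j)
  rw [← e1, ← e2]
  omega

theorem EB_iff (l : Fin k) (j : Fin (B + 1)) {x y : Nd} (hx : Wf Γ x) (hy : Wf Γ y) :
    EB Γ l (a l j, b l j, (r l j : ℕ)) x y = true ↔ (net h).abs.E a b r (l, j) x y := by
  have h1 := upB_iff h a b r l j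
  have h2 := TB_iff h l hx hy
  have h3 := TB_iff h l hy hx
  simp only [EB, Abs.E]
  by_cases hup : (net h).abs.Up a b r (l, j)
  · have hb := h1.mpr hup
    rw [hb]
    simp only [cond_true, hup, true_and, not_true_eq_false, false_and, or_false]
    exact h2
  · have hb : upB Γ (a l j, b l j, (r l j : ℕ)) = false := by
      rw [Bool.eq_false_iff]
      exact fun h => hup (h1.mp h)
    rw [hb]
    simp only [cond_false, hup, false_and, not_false_eq_true, true_and, false_or]
    exact h3

theorem okB_iff (hc : ∀ l j, sg c (l : Fin k) (j : Fin (B + 1)) = (a l j, b l j, (r l j : ℕ)))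
    (ha : ∀ l j, Wf Γ (a l j)) (hb : ∀ l j, Wf Γ (b l j)) {p : List (List Nd)}
    (hp : ∀ i, Wf Γ (posF k B p i)) :
    okB k B Γ c p = true ↔ (net h).abs.Ok a b (posF k B p) := by
  simp only [okB, List.all_eq_true, List.mem_range, Bool.or_eq_true, decide_eq_true_eq,
    Bool.and_eq_true, Bool.not_eq_true', Bool.eq_false_iff, ne_eq]
  constructor
  · intro H
    constructor
    · intro i i' hii
      have h1 := (H i.1 i.1.2 i'.1 i'.1.2).resolve_left (fun h => hii (Fin.ext h)) i.2 i.2.2
        i'.2 i'.2.2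
      exact fun h2 => h1.1.1 ((IB_iff h (hp i) (hp i')).mpr h2)
    · intro i i' hii
      have h1 := (H i.1 i.1.2 i'.1 i'.1.2).resolve_left (fun h => hii (Fin.ext h)) i.2 i.2.2
        i'.2 i'.2.2
      rw [hc i'.1 i'.2] at h1
      exact ⟨fun h2 => h1.1.2 ((IB_iff h (hp i) (ha _ _)).mpr h2),
        fun h2 => h1.2 ((IB_iff h (hp i) (hb _ _)).mpr h2)⟩
  · intro H l hl m hm
    by_cases hlm : l = m
    · exact Or.inl hlm
    · right
      intro j hj j' hj'
      have hne : (⟨l, hl⟩ : Fin k) ≠ ⟨m, hm⟩ := fun h => hlm (Fin.mk.inj_iff.mp h)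
      have e2 := hc ⟨m, hm⟩ ⟨j', hj'⟩
      simp only at e2
      rw [e2]
      have h1 := H.1 (⟨l, hl⟩, ⟨j, hj⟩) (⟨m, hm⟩, ⟨j', hj'⟩) hne
      have h2 := H.2 (⟨l, hl⟩, ⟨j, hj⟩) (⟨m, hm⟩, ⟨j', hj'⟩) hne
      have w1 := hp (⟨l, hl⟩, ⟨j, hj⟩)
      have w2 := hp (⟨m, hm⟩, ⟨j', hj'⟩)
      exact ⟨⟨fun h3 => h1 ((IB_iff h w1 w2).mp h3), fun h3 => h2.1 ((IB_iff h w1 (ha _ _)).mp h3)⟩,
        fun h3 => h2.2 ((IB_iff h w1 (hb _ _)).mp h3)⟩

theorem spB_iff (hc : ∀ l j, sg c (l : Fin k) (j : Fin (B + 1)) = (a l j, b l j, (r l j : ℕ)))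
    (ha : ∀ l j, Wf Γ (a l j)) (hb : ∀ l j, Wf Γ (b l j)) {s s' : Sta}
    (hs : ∀ i, Wf Γ (posF k B s.1 i)) (hs' : ∀ i, Wf Γ (posF k B s'.1 i)) :
    spB k B Γ c s s' = true ↔ Step ((net h).abs.ht r) ((net h).abs.E a b r) ((net h).abs.Ok a b)
      (posF k B s.1, valO s.2) (posF k B s'.1, valO s'.2) := by
  simp only [spB, Step, Bool.and_eq_true, oLt_iff, okB_iff h a b r hc ha hb hs', List.all_eq_true,
    List.mem_range, Bool.or_eq_true, decide_eq_true_eq, oEq_iff, and_assoc]
  refine and_congr_right fun _ => and_congr_left fun _ => ?_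
  constructor
  · intro H i
    rcases H i.1 i.1.2 i.2 i.2.2 with h1 | h1
    · exact Or.inl h1
    · right
      rw [hc i.1 i.2] at h1
      refine ⟨(EB_iff h a b r i.1 i.2 (hs i) (hs' i)).mp h1.1, ?_⟩
      rw [← h1.2, Abs.ht, ← δB_eq h]
      rfl
  · intro H l hl j hj
    rcases H (⟨l, hl⟩, ⟨j, hj⟩) with h1 | h1
    · exact Or.inl h1
    · right
      have e1 := hc ⟨l, hl⟩ ⟨j, hj⟩
      simp only at e1
      rw [e1]
      refine ⟨(EB_iff h a b r ⟨l, hl⟩ ⟨j, hj⟩ (hs _) (hs' _)).mpr h1.1, ?_⟩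
      rw [← h1.2, Abs.ht, ← δB_eq h]
      rfl

theorem low_eq (l : Fin k) (j : Fin (B + 1)) :
    lowB Γ (a l j, b l j, (r l j : ℕ)) = (net h).abs.low a b r (l, j) := by
  have h1 := upB_iff h a b r l j
  simp only [lowB, Abs.low]
  by_cases hup : (net h).abs.Up a b r (l, j)
  · rw [h1.mpr hup, if_pos hup]; rfl
  · have hb : upB Γ (a l j, b l j, (r l j : ℕ)) = false := by
      rw [Bool.eq_false_iff]
      exact fun h => hup (h1.mp h)
    rw [hb, if_neg hup]; rfl

theorem high_eq (l : Fin k) (j : Fin (B + 1)) :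
    highB Γ (a l j, b l j, (r l j : ℕ)) = (net h).abs.high a b r (l, j) := by
  have h1 := upB_iff h a b r l j
  simp only [highB, Abs.high]
  by_cases hup : (net h).abs.Up a b r (l, j)
  · rw [h1.mpr hup, if_pos hup]; rfl
  · have hb : upB Γ (a l j, b l j, (r l j : ℕ)) = false := by
      rw [Bool.eq_false_iff]
      exact fun h => hup (h1.mp h)
    rw [hb, if_neg hup]; rfl

theorem posF_ofP (p : Fin k × Fin (B + 1) → Nd) :
    posF k B (ofP fun l j => p (l, j)) = p := by
  funext i
  simp only [posF, ps]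
  rw [getD_ofP]

/-- the sweep in terms of functions -/
theorem swB_iff (hc : ∀ l j, sg c (l : Fin k) (j : Fin (B + 1)) = (a l j, b l j, (r l j : ℕ)))
    (ha : ∀ l j, Wf Γ (a l j)) (hb : ∀ l j, Wf Γ (b l j)) :
    swB k B Γ c = true ↔ (net h).abs.Sweep a b r := by
  have hlow : lowL k B Γ c = ofP fun l j => (net h).abs.low a b r (l, j) := by
    rw [lowL, map_range_eq]
    congr 1
    funext l j
    rw [hc l j, low_eq h]
  have hhigh : highL k B Γ c = ofP fun l j => (net h).abs.high a b r (l, j) := by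
    rw [highL, map_range_eq]
    congr 1
    funext l j
    rw [hc l j, high_eq h]
  have wlow : ∀ i, Wf Γ ((net h).abs.low a b r i) := by
    intro i
    simp only [Abs.low]
    split_ifs
    · exact ha _ _
    · exact hb _ _
  have hstL : ∀ (p : Fin k × Fin (B + 1) → Nd) (θ : Option (List Bool)), (∀ i, Wf Γ (p i)) →
      θ ∈ htL k Γ → ((ofP fun l j => p (l, j)), θ) ∈ stL k B Γ := by
    intro p θ hp hθ
    rw [stL, List.pair_mem_product]
    refine ⟨ofP_mem fun l j => (mem_ndL _).mpr (hp (l, j)), hθ⟩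
  have hmem : (lowL k B Γ c, (none : Option (List Bool))) ∈ stL k B Γ := by
    rw [hlow]
    exact hstL _ none wlow (by simp [htL])
  have wst : ∀ s : Sta, s ∈ stL k B Γ → ∀ i, Wf Γ (posF k B s.1 i) := by
    rintro ⟨p, θ⟩ hs i
    rw [stL, List.pair_mem_product] at hs
    exact (mem_ndL _).mp (getD_mem_allL hs.1 i.1 i.2 _)
  rw [swB, List.any_eq_true]
  constructor
  · rintro ⟨s, hs, heq⟩
    rw [mem_reachL hmem] at hs
    rw [decide_eq_true_eq] at heq
    have key : ∀ s : Sta, ReflTransGen (fun u v => v ∈ stL k B Γ ∧ spB k B Γ c u v = true)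
        (lowL k B Γ c, none) s → s ∈ stL k B Γ ∧
        ReflTransGen (Step ((net h).abs.ht r) ((net h).abs.E a b r) ((net h).abs.Ok a b))
          ((net h).abs.low a b r, ⊥) (posF k B s.1, valO s.2) := by
      intro s hs
      induction hs with
      | refl =>
        refine ⟨hmem, ?_⟩
        simp only [hlow, posF_ofP]
        exact ReflTransGen.refl
      | @tail u v _ huv ih =>
        refine ⟨huv.1, ih.2.tail ?_⟩
        exact (spB_iff h a b r hc ha hb (wst u ih.1) (wst v huv.1)).mp huv.2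
    obtain ⟨_, h2⟩ := key s hs
    rw [heq, hhigh, posF_ofP] at h2
    exact ⟨_, h2⟩
  · rintro ⟨θ, hrun⟩
    have key : ∀ s : (Fin k × Fin (B + 1) → Nd) × WithBot ℤ,
        ReflTransGen (Step ((net h).abs.ht r) ((net h).abs.E a b r) ((net h).abs.Ok a b))
          ((net h).abs.low a b r, ⊥) s → (∀ i, Wf Γ (s.1 i)) ∧
          ∃ θ' ∈ htL k Γ, valO θ' ≤ s.2 ∧
            ReflTransGen (fun u v => v ∈ stL k B Γ ∧ spB k B Γ c u v = true)
              (lowL k B Γ c, none) ((ofP fun l j => s.1 (l, j)), θ') := by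
      intro s hs
      induction hs with
      | refl =>
        refine ⟨wlow, none, by simp [htL], by simp [valO], ?_⟩
        rw [hlow]
      | @tail s s' _ hst ih =>
        obtain ⟨hwf, θ', hθ', hle, hreach⟩ := ih
        obtain ⟨hlt, hmove, hok⟩ := hst
        have hwf' : ∀ i, Wf Γ (s'.1 i) := by
          intro i
          rcases hmove i with h1 | ⟨h1, _⟩
          · rw [h1]; exact hwf i
          · rcases h1 with ⟨_, h1⟩ | ⟨_, h1⟩
            · exact (wf_T h h1).2
            · exact (wf_T h h1).1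
        refine ⟨hwf', ?_⟩
        by_cases hall : ∀ i, s'.1 i = s.1 i
        · have : s'.1 = s.1 := funext hall
          refine ⟨θ', hθ', hle.trans hlt.le, ?_⟩
          rw [this]
          exact hreach
        · push Not at hall
          obtain ⟨i, hi⟩ := hall
          have hi2 := ((hmove i).resolve_left hi).2
          have hval : valO (some (δB Γ (r i.1 i.2) (s'.1 i))) = s'.2 := by
            rw [← hi2, Abs.ht, ← δB_eq h]
            rfl
          have hin : some (δB Γ (r i.1 i.2) (s'.1 i)) ∈ htL k Γ := by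
            rw [htL, List.mem_cons]
            right
            rw [List.mem_map]
            refine ⟨((r i.1 i.2 : ℕ), s'.1 i), ?_, rfl⟩
            rw [List.pair_mem_product]
            exact ⟨List.mem_range.mpr (r i.1 i.2).2, (mem_ndL _).mpr (hwf' i)⟩
          refine ⟨some (δB Γ (r i.1 i.2) (s'.1 i)), hin, hval.le, ?_⟩
          refine hreach.tail ⟨hstL _ _ hwf' hin, ?_⟩
          rw [spB_iff h a b r hc ha hb (by simp only [posF_ofP]; exact hwf)
            (by simp only [posF_ofP]; exact hwf')]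
          simp only [posF_ofP, hval]
          exact ⟨lt_of_le_of_lt hle hlt, hmove, hok⟩
    obtain ⟨_, θ', _, _, h3⟩ := key _ hrun
    refine ⟨_, (mem_reachL hmem).mpr h3, ?_⟩
    rw [decide_eq_true_eq, hhigh]

end sweep

/-- **Correctness of the algorithm** relative to the abstract problem. -/
theorem algB_iff (hB : Fintype.card (Finset (Fin k) × (Abs.Line (Fin k) → Option SignType)) ≤ B + 1) :
    algB k B Γ = true ↔ ∃ P, (net h).abs.Solution P := by
  rw [algB, List.any_eq_true]
  constructor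
  · rintro ⟨c, hcm, hc⟩
    rw [Bool.and_eq_true] at hc
    have hmem : ∀ (l : Fin k) (j : Fin (B + 1)), sg c l j ∈ sgL k Γ :=
      fun l j => getD_mem_allL hcm l j _
    have hr : ∀ (l : Fin k) (j : Fin (B + 1)), (sg c l j).2.2 < k := by
      intro l j
      have h1 := hmem l j
      rw [sgL] at h1
      have e : sg c l j = ((sg c l j).1, (sg c l j).2.1, (sg c l j).2.2) := rfl
      rw [e, List.pair_mem_product, List.pair_mem_product] at h1
      exact List.mem_range.mp h1.2.2
    have hab : ∀ (l : Fin k) (j : Fin (B + 1)), Wf Γ (sg c l j).1 ∧ Wf Γ (sg c l j).2.1 := by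
      intro l j
      have h1 := hmem l j
      rw [sgL] at h1
      have e : sg c l j = ((sg c l j).1, (sg c l j).2.1, (sg c l j).2.2) := rfl
      rw [e, List.pair_mem_product, List.pair_mem_product] at h1
      exact ⟨(mem_ndL _).mp h1.1, (mem_ndL _).mp h1.2.1⟩
    have e : ∀ (l : Fin k) (j : Fin (B + 1)), sg c l j =
        ((sg c l j).1, (sg c l j).2.1, ((⟨(sg c l j).2.2, hr l j⟩ : Fin k) : ℕ)) := fun l j => rfl
    have h1 := (stB_iff h (fun l j => (sg c l j).1) (fun l j => (sg c l j).2.1)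
      (fun l j => ⟨(sg c l j).2.2, hr l j⟩) e (fun l j => (hab l j).1)
      (fun l j => (hab l j).2)).mp hc.1
    have h2 := (swB_iff h (fun l j => (sg c l j).1) (fun l j => (sg c l j).2.1)
      (fun l j => ⟨(sg c l j).2.2, hr l j⟩) e (fun l j => (hab l j).1)
      (fun l j => (hab l j).2)).mp hc.2
    exact Abs.solution_of_cert h1 h2
  · rintro ⟨P, hP⟩
    have hwfP : ∀ l, ∀ x ∈ P l, Wf Γ x := by
      intro l x hx
      have hne := hP.ne l
      have hst := hP.start l
      have hch := hP.chain l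
      rcases hPl : P l with _ | ⟨a, W⟩
      · exact absurd hPl hne
      · have ha : (P l).head hne = a := by simp [hPl]
        rw [ha] at hst
        have hwa : Wf Γ a := wf_S h hst
        rw [hPl] at hx hch
        have key : ∀ (W : List Nd) (a : Nd), (a :: W).IsChain ((net h).abs.T l) → Wf Γ a →
            ∀ x ∈ a :: W, Wf Γ x := by
          intro W
          induction W with
          | nil =>
            intro a _ ha x hx
            simp only [List.mem_singleton] at hx
            rw [hx]; exact ha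
          | cons b W ih =>
            intro a hch ha x hx
            rw [List.isChain_cons_cons] at hch
            rcases List.mem_cons.mp hx with rfl | hx
            · exact ha
            · exact ih b hch.2 (wf_T h hch.1).2 x hx
        exact key W a hch hwa x hx
    obtain ⟨a, b, r, hst, hsw, hab⟩ := Abs.cert_of_solution hP hB
    let c : List (List Sg) := ofP fun l j => (a l j, b l j, (r l j : ℕ))
    have hc : ∀ l j, sg c (l : Fin k) (j : Fin (B + 1)) = (a l j, b l j, (r l j : ℕ)) := by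
      intro l j
      simp only [sg, c]
      rw [getD_ofP]
    have ha : ∀ l j, Wf Γ (a l j) := fun l j => hwfP l _ (hab l j).1
    have hb : ∀ l j, Wf Γ (b l j) := fun l j => hwfP l _ (hab l j).2
    refine ⟨c, ?_, ?_⟩
    · apply ofP_mem
      intro l j
      rw [sgL, List.pair_mem_product, List.pair_mem_product]
      exact ⟨(mem_ndL _).mpr (ha l j), (mem_ndL _).mpr (hb l j), List.mem_range.mpr (r l j).2⟩
    · rw [Bool.and_eq_true]
      exact ⟨(stB_iff h a b r hc ha hb).mpr hst, (swB_iff h a b r hc ha hb).mpr hsw⟩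

end Pool.Agent.DPO
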