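import Pool.Agent.DPO.Alg

/-!
# Polynomial time of the algorithm
-/

namespace Pool.Agent.DPO

open Pool.Agent.PT

attribute [local fun_prop] badd_polyTime ble_polyTime

variable {α : Type*} [Enc α] {Γ : α → Ctx}

theorem eS_pt {e : α → ℕ} (hΓ : PolyTime Γ) (he : PolyTime e) :
    PolyTime (fun x => eS (Γ x) (e x)) := by unfold eS; fun_prop
theorem eT_pt {e : α → ℕ} (hΓ : PolyTime Γ) (he : PolyTime e) :
    PolyTime (fun x => eT (Γ x) (e x)) := by unfold eT; fun_prop
theorem eL_pt {e : α → ℕ} (hΓ : PolyTime Γ) (he : PolyTime e) :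
    PolyTime (fun x => eL (Γ x) (e x)) := by unfold eL; fun_prop
theorem pS_pt {e : α → ℕ} (hΓ : PolyTime Γ) (he : PolyTime e) :
    PolyTime (fun x => pS (Γ x) (e x)) := by unfold pS; fun_prop
theorem pT0_pt {e : α → ℕ} (hΓ : PolyTime Γ) (he : PolyTime e) :
    PolyTime (fun x => pT0 (Γ x) (e x)) := by unfold pT0; fun_prop

attribute [local fun_prop] eS_pt eT_pt eL_pt pS_pt pT0_pt

theorem dO_pt {l v : α → ℕ} (hΓ : PolyTime Γ) (hl : PolyTime l) (hv : PolyTime v) :
    PolyTime (fun x => dO (Γ x) (l x) (v x)) := by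
  unfold dO
  exact bf_polyTime (by fun_prop) (by fun_prop) (by fun_prop) (by fun_prop)

attribute [local fun_prop] dO_pt

theorem pT_pt {l : α → ℕ} (hΓ : PolyTime Γ) (hl : PolyTime l) :
    PolyTime (fun x => pT (Γ x) (l x)) := by
  unfold pT
  exact PolyTime.cond (by fun_prop) (by fun_prop) (by fun_prop)

theorem dB_pt {l v : α → ℕ} (hΓ : PolyTime Γ) (hl : PolyTime l) (hv : PolyTime v) :
    PolyTime (fun x => dB (Γ x) (l x) (v x)) := by
  unfold dB; fun_prop

theorem bEq_pt {f g : α → List Bool} (hf : PolyTime f) (hg : PolyTime g) :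
    PolyTime (fun x => bEq (f x) (g x)) := by unfold bEq; fun_prop
theorem bLt_pt {f g : α → List Bool} (hf : PolyTime f) (hg : PolyTime g) :
    PolyTime (fun x => bLt (f x) (g x)) := by unfold bLt; fun_prop

theorem isZ_pt {e : α → ℕ} (hΓ : PolyTime Γ) (he : PolyTime e) :
    PolyTime (fun x => isZ (Γ x) (e x)) := by unfold isZ; fun_prop

attribute [local fun_prop] pT_pt dB_pt bEq_pt bLt_pt isZ_pt

theorem zE_pt {a u v : α → ℕ} (hΓ : PolyTime Γ) (ha : PolyTime a) (hu : PolyTime u)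
    (hv : PolyTime v) : PolyTime (fun x => zE (Γ x) (a x) (u x) (v x)) := by
  unfold zE
  refine PolyTime.any (l := fun x => List.range (Γ x).2.1.length)
    (g := fun x e => isZ (Γ x) e && !(decide (e = a x)) &&
    ((decide (eS (Γ x) e = u x) && decide (eT (Γ x) e = v x)) ||
      (decide (eS (Γ x) e = v x) && decide (eT (Γ x) e = u x)))) (by fun_prop) ?_
  have h1 : PolyTime (fun p : α × ℕ => Γ p.1) := hΓ.comp PolyTime.fst'
  have h2 : PolyTime (fun p : α × ℕ => a p.1) := ha.comp PolyTime.fst'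
  have h3 : PolyTime (fun p : α × ℕ => u p.1) := hu.comp PolyTime.fst'
  have h4 : PolyTime (fun p : α × ℕ => v p.1) := hv.comp PolyTime.fst'
  fun_prop

theorem zC_pt {a u v : α → ℕ} (hΓ : PolyTime Γ) (ha : PolyTime a) (hu : PolyTime u)
    (hv : PolyTime v) : PolyTime (fun x => zC (Γ x) (a x) (u x) (v x)) := by
  unfold zC
  refine PolyTime.decide_mem hv ?_
  refine reachL_polyTime (V := fun x => List.range (Γ x).1) (E := fun x => zE (Γ x) (a x))
    (by fun_prop) ?_ hu
  exact zE_pt (by fun_prop) (by fun_prop) (by fun_prop) (by fun_prop)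

attribute [local fun_prop] zE_pt zC_pt

theorem cB_pt {u v : α → ℕ} (hΓ : PolyTime Γ) (hu : PolyTime u)
    (hv : PolyTime v) : PolyTime (fun x => cB (Γ x) (u x) (v x)) := by
  unfold cB; fun_prop

theorem opB_pt {p p' : α → ℕ × ℕ} (hΓ : PolyTime Γ) (hp : PolyTime p) (hp' : PolyTime p') :
    PolyTime (fun x => opB (Γ x) (p x) (p' x)) := by
  unfold opB
  refine PolyTime.any (l := fun x => List.range (Γ x).2.1.length)
    (g := fun x e => isZ (Γ x) e && !(zC (Γ x) e (p x).1 (p x).2) &&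
      zC (Γ x) e (p x).1 (p' x).2 && zC (Γ x) e (p' x).1 (p x).2) (by fun_prop) ?_
  fun_prop

theorem tlB_pt {d : α → ℕ × Bool} (hΓ : PolyTime Γ) (hd : PolyTime d) :
    PolyTime (fun x => tlB (Γ x) (d x)) := by
  unfold tlB
  exact PolyTime.cond (by fun_prop) (by fun_prop) (by fun_prop)

theorem hdB_pt {d : α → ℕ × Bool} (hΓ : PolyTime Γ) (hd : PolyTime d) :
    PolyTime (fun x => hdB (Γ x) (d x)) := by
  unfold hdB
  exact PolyTime.cond (by fun_prop) (by fun_prop) (by fun_prop)

attribute [local fun_prop] cB_pt opB_pt tlB_pt hdB_pt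

theorem tgB_pt {l : α → ℕ} {d : α → ℕ × Bool} (hΓ : PolyTime Γ) (hl : PolyTime l)
    (hd : PolyTime d) : PolyTime (fun x => tgB (Γ x) (l x) (d x)) := by
  unfold tgB; fun_prop

attribute [local fun_prop] tgB_pt

theorem TB_pt {l : α → ℕ} {u v : α → Nd} (hΓ : PolyTime Γ) (hl : PolyTime l)
    (hu : PolyTime u) (hv : PolyTime v) : PolyTime (fun x => TB (Γ x) (l x) (u x) (v x)) := by
  refine (PolyTime.sumCases (o := u)
    (f := fun x p => Sum.casesOn (motive := fun _ => Bool) (v x) (fun _ => false)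
      (fun d => cB (Γ x) p.1 p.2 && tgB (Γ x) (l x) d && decide (tlB (Γ x) d = p.2)))
    (g := fun x d => Sum.casesOn (motive := fun _ => Bool) (v x)
      (fun p => cB (Γ x) p.1 p.2 && tgB (Γ x) (l x) d && decide (hdB (Γ x) d = p.1))
      (fun _ => false)) hu ?_ ?_).congr fun x => ?_
  · refine PolyTime.sumCases (α := α × (ℕ × ℕ)) (o := fun q => v q.1) (f := fun _ _ => false)
      (g := fun q d => cB (Γ q.1) q.2.1 q.2.2 && tgB (Γ q.1) (l q.1) d &&
        decide (tlB (Γ q.1) d = q.2.2)) (by fun_prop) (by fun_prop) (by fun_prop)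
  · refine PolyTime.sumCases (α := α × (ℕ × Bool)) (o := fun q => v q.1) (g := fun _ _ => false)
      (f := fun q p => cB (Γ q.1) p.1 p.2 && tgB (Γ q.1) (l q.1) q.2 &&
        decide (hdB (Γ q.1) q.2 = p.1)) (by fun_prop) (by fun_prop) (by fun_prop)
  · rcases u x with p | d <;> rcases v x with p' | d' <;> rfl

theorem IB_pt {u v : α → Nd} (hΓ : PolyTime Γ)
    (hu : PolyTime u) (hv : PolyTime v) : PolyTime (fun x => IB (Γ x) (u x) (v x)) := by
  refine (PolyTime.sumCases (o := u)
    (f := fun x p => Sum.casesOn (motive := fun _ => Bool) (v x)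
      (fun p' => cB (Γ x) p.1 p.2 && cB (Γ x) p'.1 p'.2 && opB (Γ x) p p') (fun _ => false))
    (g := fun x d => Sum.casesOn (motive := fun _ => Bool) (v x)
      (fun _ => false)
      (fun d' => decide (d.1 < (Γ x).2.1.length) && decide (d.1 = d'.1) &&
        !(decide (d.2 = d'.2)))) hu ?_ ?_).congr fun x => ?_
  · refine PolyTime.sumCases (α := α × (ℕ × ℕ)) (o := fun q => v q.1) (g := fun _ _ => false)
      (f := fun q p' => cB (Γ q.1) q.2.1 q.2.2 && cB (Γ q.1) p'.1 p'.2 &&
        opB (Γ q.1) q.2 p') (by fun_prop) (by fun_prop) (by fun_prop)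
  · refine PolyTime.sumCases (α := α × (ℕ × Bool)) (o := fun q => v q.1) (f := fun _ _ => false)
      (g := fun q d' => decide (q.2.1 < (Γ q.1).2.1.length) && decide (q.2.1 = d'.1) &&
        !(decide (q.2.2 = d'.2))) (by fun_prop) (by fun_prop) (by fun_prop)
  · rcases u x with p | d <;> rcases v x with p' | d' <;> rfl

theorem SB_pt {l : α → ℕ} {u : α → Nd} (hΓ : PolyTime Γ) (hl : PolyTime l)
    (hu : PolyTime u) : PolyTime (fun x => SB (Γ x) (l x) (u x)) := by
  refine (PolyTime.sumCases (o := u)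
    (f := fun x p => cB (Γ x) p.1 p.2 && decide (p.1 = pS (Γ x) (l x)))
    (g := fun _ _ => false) hu (by fun_prop) (by fun_prop)).congr fun x => ?_
  rcases u x with p | d <;> rfl

theorem FB_pt {l : α → ℕ} {u : α → Nd} (hΓ : PolyTime Γ) (hl : PolyTime l)
    (hu : PolyTime u) : PolyTime (fun x => FB (Γ x) (l x) (u x)) := by
  refine (PolyTime.sumCases (o := u)
    (f := fun x p => cB (Γ x) p.1 p.2 && decide (p.2 = pT (Γ x) (l x)))
    (g := fun _ _ => false) hu (by fun_prop) (by fun_prop)).congr fun x => ?_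
  rcases u x with p | d <;> rfl

theorem δB_pt {l : α → ℕ} {u : α → Nd} (hΓ : PolyTime Γ) (hl : PolyTime l)
    (hu : PolyTime u) : PolyTime (fun x => δB (Γ x) (l x) (u x)) := by
  refine (PolyTime.sumCases (o := u)
    (f := fun x p => badd (dB (Γ x) (l x) p.1) (dB (Γ x) (l x) p.1))
    (g := fun x d => badd (dB (Γ x) (l x) (eS (Γ x) d.1)) (dB (Γ x) (l x) (eT (Γ x) d.1)))
    hu (by fun_prop) (by fun_prop)).congr fun x => ?_
  rcases u x with p | d <;> rfl

attribute [local fun_prop] TB_pt IB_pt SB_pt FB_pt δB_pt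

theorem leB_pt (k : ℕ) {l : α → ℕ} {u v : α → Nd} (hΓ : PolyTime Γ) (hl : PolyTime l)
    (hu : PolyTime u) (hv : PolyTime v) :
    PolyTime (fun x => leB k (Γ x) (l x) (u x) (v x)) := by
  unfold leB
  refine PolyTime.all (l := fun _ => List.range k) (g := fun x m =>
    ble (badd (δB (Γ x) m (v x)) (δB (Γ x) (l x) (u x)))
      (badd (δB (Γ x) (l x) (v x)) (δB (Γ x) m (u x))) &&
    ble (badd (δB (Γ x) m (u x)) (δB (Γ x) (l x) (u x)))
      (badd (δB (Γ x) (l x) (v x)) (δB (Γ x) m (v x)))) (by fun_prop) ?_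
  fun_prop

attribute [local fun_prop] leB_pt

theorem btB_pt (k : ℕ) {l : α → ℕ} {a u b : α → Nd} (hΓ : PolyTime Γ) (hl : PolyTime l)
    (ha : PolyTime a) (hu : PolyTime u) (hb : PolyTime b) :
    PolyTime (fun x => btB k (Γ x) (l x) (a x) (u x) (b x)) := by
  unfold btB; fun_prop

theorem ndL_pt (hΓ : PolyTime Γ) : PolyTime (fun x => ndL (Γ x)) := by
  unfold ndL
  refine PolyTime.append (PolyTime.map (g := fun _ p => Sum.inl p) ?_ (by fun_prop))
    (PolyTime.map (g := fun _ p => Sum.inr p) ?_ (by fun_prop))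
  · fun_prop
  · fun_prop

attribute [local fun_prop] btB_pt ndL_pt

theorem sgL_pt (k : ℕ) (hΓ : PolyTime Γ) : PolyTime (fun x => sgL k (Γ x)) := by
  unfold sgL; fun_prop

theorem sg_pt {c : α → List (List Sg)} {l j : α → ℕ} (hc : PolyTime c) (hl : PolyTime l)
    (hj : PolyTime j) : PolyTime (fun x => sg (c x) (l x) (j x)) := by
  unfold sg; fun_prop

attribute [local fun_prop] sgL_pt sg_pt

theorem tsB_pt {l : α → ℕ} {u : α → Sg} (hΓ : PolyTime Γ) (hl : PolyTime l) (hu : PolyTime u) :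
    PolyTime (fun x => tsB (Γ x) (l x) (u x)) := by
  unfold tsB; fun_prop

attribute [local fun_prop] tsB_pt

theorem poB_pt (k : ℕ) {l m : α → ℕ} {u v : α → Sg} (hΓ : PolyTime Γ) (hl : PolyTime l)
    (hm : PolyTime m) (hu : PolyTime u) (hv : PolyTime v) :
    PolyTime (fun x => poB k (Γ x) (l x) (m x) (u x) (v x)) := by
  unfold poB
  have h1 : PolyTime (fun x => (ndL (Γ x)).all fun s => (ndL (Γ x)).all fun y =>
      !(btB k (Γ x) (l x) (u x).1 s (u x).2.1 && btB k (Γ x) (m x) (v x).1 y (v x).2.1 &&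
        IB (Γ x) s y)) := by
    refine PolyTime.all (l := fun x => ndL (Γ x)) (g := fun x s => (ndL (Γ x)).all fun y =>
      !(btB k (Γ x) (l x) (u x).1 s (u x).2.1 && btB k (Γ x) (m x) (v x).1 y (v x).2.1 &&
        IB (Γ x) s y)) (by fun_prop) ?_
    refine PolyTime.all (α := α × Nd) (l := fun q => ndL (Γ q.1)) (g := fun q y =>
      !(btB k (Γ q.1) (l q.1) (u q.1).1 q.2 (u q.1).2.1 &&
        btB k (Γ q.1) (m q.1) (v q.1).1 y (v q.1).2.1 &&
        IB (Γ q.1) q.2 y)) (by fun_prop) ?_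
    fun_prop
  fun_prop

attribute [local fun_prop] poB_pt

theorem stB_pt (k B : ℕ) {c : α → List (List Sg)} (hΓ : PolyTime Γ) (hc : PolyTime c) :
    PolyTime (fun x => stB k B (Γ x) (c x)) := by
  unfold stB
  refine PolyTime.all (l := fun _ => List.range k) (g := fun x l =>
    SB (Γ x) l (sg (c x) l 0).1 && FB (Γ x) l (sg (c x) l B).2.1 &&
    ((List.range B).all fun j => TB (Γ x) l (sg (c x) l j).2.1 (sg (c x) l (j + 1)).1 ||
      decide ((sg (c x) l j).2.1 = (sg (c x) l (j + 1)).1)) &&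
    ((List.range (B + 1)).all fun j => tsB (Γ x) l (sg (c x) l j)) &&
    ((List.range k).all fun m => decide (l = m) || (List.range (B + 1)).all fun j =>
      (List.range (B + 1)).all fun j' => poB k (Γ x) l m (sg (c x) l j) (sg (c x) m j')))
    (by fun_prop) ?_
  have h1 : PolyTime (fun p : α × ℕ => (List.range B).all fun j =>
      TB (Γ p.1) p.2 (sg (c p.1) p.2 j).2.1 (sg (c p.1) p.2 (j + 1)).1 ||
      decide ((sg (c p.1) p.2 j).2.1 = (sg (c p.1) p.2 (j + 1)).1)) := by
    refine PolyTime.all (α := α × ℕ) (l := fun _ => List.range B) (g := fun p j =>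
      TB (Γ p.1) p.2 (sg (c p.1) p.2 j).2.1 (sg (c p.1) p.2 (j + 1)).1 ||
      decide ((sg (c p.1) p.2 j).2.1 = (sg (c p.1) p.2 (j + 1)).1)) (by fun_prop) ?_
    fun_prop
  have h2 : PolyTime (fun p : α × ℕ => (List.range (B + 1)).all fun j =>
      tsB (Γ p.1) p.2 (sg (c p.1) p.2 j)) := by
    refine PolyTime.all (α := α × ℕ) (l := fun _ => List.range (B + 1)) (g := fun p j =>
      tsB (Γ p.1) p.2 (sg (c p.1) p.2 j)) (by fun_prop) ?_
    fun_prop
  have h3 : PolyTime (fun p : α × ℕ => (List.range k).all fun m =>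
      decide (p.2 = m) || (List.range (B + 1)).all fun j =>
      (List.range (B + 1)).all fun j' =>
        poB k (Γ p.1) p.2 m (sg (c p.1) p.2 j) (sg (c p.1) m j')) := by
    refine PolyTime.all (α := α × ℕ) (l := fun _ => List.range k) (g := fun p m =>
      decide (p.2 = m) || (List.range (B + 1)).all fun j =>
      (List.range (B + 1)).all fun j' =>
        poB k (Γ p.1) p.2 m (sg (c p.1) p.2 j) (sg (c p.1) m j')) (by fun_prop) ?_
    refine PolyTime.or (by fun_prop) ?_
    refine PolyTime.all (α := (α × ℕ) × ℕ) (l := fun _ => List.range (B + 1)) (g := fun q j =>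
      (List.range (B + 1)).all fun j' =>
        poB k (Γ q.1.1) q.1.2 q.2 (sg (c q.1.1) q.1.2 j) (sg (c q.1.1) q.2 j'))
        (by fun_prop) ?_
    refine PolyTime.all (α := ((α × ℕ) × ℕ) × ℕ) (l := fun _ => List.range (B + 1))
      (g := fun q j' =>
        poB k (Γ q.1.1.1) q.1.1.2 q.1.2 (sg (c q.1.1.1) q.1.1.2 q.2) (sg (c q.1.1.1) q.1.2 j'))
        (by fun_prop) ?_
    fun_prop
  fun_prop

theorem upB_pt {u : α → Sg} (hΓ : PolyTime Γ) (hu : PolyTime u) :
    PolyTime (fun x => upB (Γ x) (u x)) := by unfold upB; fun_prop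

attribute [local fun_prop] stB_pt upB_pt

theorem EB_pt {l : α → ℕ} {s : α → Sg} {u v : α → Nd} (hΓ : PolyTime Γ) (hl : PolyTime l)
    (hs : PolyTime s) (hu : PolyTime u) (hv : PolyTime v) :
    PolyTime (fun x => EB (Γ x) (l x) (s x) (u x) (v x)) := by
  unfold EB
  exact PolyTime.cond (by fun_prop) (by fun_prop) (by fun_prop)

theorem lowB_pt {s : α → Sg} (hΓ : PolyTime Γ) (hs : PolyTime s) :
    PolyTime (fun x => lowB (Γ x) (s x)) := by
  unfold lowB
  exact PolyTime.cond (by fun_prop) (by fun_prop) (by fun_prop)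

theorem highB_pt {s : α → Sg} (hΓ : PolyTime Γ) (hs : PolyTime s) :
    PolyTime (fun x => highB (Γ x) (s x)) := by
  unfold highB
  exact PolyTime.cond (by fun_prop) (by fun_prop) (by fun_prop)

attribute [local fun_prop] EB_pt lowB_pt highB_pt

theorem lowL_pt (k B : ℕ) {c : α → List (List Sg)} (hΓ : PolyTime Γ) (hc : PolyTime c) :
    PolyTime (fun x => lowL k B (Γ x) (c x)) := by
  unfold lowL
  refine PolyTime.map (l := fun _ => List.range k) (g := fun x l =>
    (List.range (B + 1)).map fun j => lowB (Γ x) (sg (c x) l j)) (by fun_prop) ?_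
  refine PolyTime.map (α := α × ℕ) (l := fun _ => List.range (B + 1)) (g := fun p j =>
    lowB (Γ p.1) (sg (c p.1) p.2 j)) (by fun_prop) ?_
  fun_prop

theorem highL_pt (k B : ℕ) {c : α → List (List Sg)} (hΓ : PolyTime Γ) (hc : PolyTime c) :
    PolyTime (fun x => highL k B (Γ x) (c x)) := by
  unfold highL
  refine PolyTime.map (l := fun _ => List.range k) (g := fun x l =>
    (List.range (B + 1)).map fun j => highB (Γ x) (sg (c x) l j)) (by fun_prop) ?_
  refine PolyTime.map (α := α × ℕ) (l := fun _ => List.range (B + 1)) (g := fun p j =>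
    highB (Γ p.1) (sg (c p.1) p.2 j)) (by fun_prop) ?_
  fun_prop

theorem ps_pt {p : α → List (List Nd)} {l j : α → ℕ} (hp : PolyTime p) (hl : PolyTime l)
    (hj : PolyTime j) : PolyTime (fun x => ps (p x) (l x) (j x)) := by unfold ps; fun_prop

attribute [local fun_prop] lowL_pt highL_pt ps_pt

theorem okB_pt (k B : ℕ) {c : α → List (List Sg)} {p : α → List (List Nd)} (hΓ : PolyTime Γ)
    (hc : PolyTime c) (hp : PolyTime p) : PolyTime (fun x => okB k B (Γ x) (c x) (p x)) := by
  unfold okB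
  refine PolyTime.all (l := fun _ => List.range k) (g := fun x l =>
    (List.range k).all fun m => decide (l = m) ||
    (List.range (B + 1)).all fun j => (List.range (B + 1)).all fun j' =>
      !(IB (Γ x) (ps (p x) l j) (ps (p x) m j')) && !(IB (Γ x) (ps (p x) l j) (sg (c x) m j').1) &&
      !(IB (Γ x) (ps (p x) l j) (sg (c x) m j').2.1)) (by fun_prop) ?_
  refine PolyTime.all (α := α × ℕ) (l := fun _ => List.range k) (g := fun x m =>
    decide (x.2 = m) ||
    (List.range (B + 1)).all fun j => (List.range (B + 1)).all fun j' =>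
      !(IB (Γ x.1) (ps (p x.1) x.2 j) (ps (p x.1) m j')) &&
      !(IB (Γ x.1) (ps (p x.1) x.2 j) (sg (c x.1) m j').1) &&
      !(IB (Γ x.1) (ps (p x.1) x.2 j) (sg (c x.1) m j').2.1)) (by fun_prop) ?_
  refine PolyTime.or (by fun_prop) ?_
  refine PolyTime.all (α := (α × ℕ) × ℕ) (l := fun _ => List.range (B + 1)) (g := fun x j =>
    (List.range (B + 1)).all fun j' =>
      !(IB (Γ x.1.1) (ps (p x.1.1) x.1.2 j) (ps (p x.1.1) x.2 j')) &&
      !(IB (Γ x.1.1) (ps (p x.1.1) x.1.2 j) (sg (c x.1.1) x.2 j').1) &&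
      !(IB (Γ x.1.1) (ps (p x.1.1) x.1.2 j) (sg (c x.1.1) x.2 j').2.1)) (by fun_prop) ?_
  refine PolyTime.all (α := ((α × ℕ) × ℕ) × ℕ) (l := fun _ => List.range (B + 1))
    (g := fun x j' =>
      !(IB (Γ x.1.1.1) (ps (p x.1.1.1) x.1.1.2 x.2) (ps (p x.1.1.1) x.1.2 j')) &&
      !(IB (Γ x.1.1.1) (ps (p x.1.1.1) x.1.1.2 x.2) (sg (c x.1.1.1) x.1.2 j').1) &&
      !(IB (Γ x.1.1.1) (ps (p x.1.1.1) x.1.1.2 x.2) (sg (c x.1.1.1) x.1.2 j').2.1))
      (by fun_prop) ?_
  fun_prop

theorem oLt_pt {f g : α → Option (List Bool)} (hf : PolyTime f) (hg : PolyTime g) :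
    PolyTime (fun x => oLt (f x) (g x)) := by
  refine (PolyTime.optionCases (o := g) (f := fun _ => false)
    (g := fun x y => Option.casesOn (motive := fun _ => Bool) (f x) true (fun z => bLt z y))
    hg (by fun_prop) ?_).congr fun x => ?_
  · exact PolyTime.optionCases (α := α × List Bool) (o := fun p => f p.1) (f := fun _ => true)
      (g := fun p z => bLt z p.2) (by fun_prop) (by fun_prop) (by fun_prop)
  · rcases f x with _ | a <;> rcases g x with _ | b <;> rfl

theorem oEq_pt {f : α → List Bool} {g : α → Option (List Bool)} (hf : PolyTime f)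
    (hg : PolyTime g) : PolyTime (fun x => oEq (f x) (g x)) := by
  refine (PolyTime.optionCases (o := g) (f := fun _ => false)
    (g := fun x y => bEq (f x) y) hg (by fun_prop) (by fun_prop)).congr fun x => ?_
  rcases g x with _ | b <;> rfl

attribute [local fun_prop] okB_pt oLt_pt oEq_pt

theorem spB_pt (k B : ℕ) {c : α → List (List Sg)} {s s' : α → Sta} (hΓ : PolyTime Γ)
    (hc : PolyTime c) (hs : PolyTime s) (hs' : PolyTime s') :
    PolyTime (fun x => spB k B (Γ x) (c x) (s x) (s' x)) := by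
  unfold spB
  have h1 : PolyTime (fun x => (List.range k).all fun l => (List.range (B + 1)).all fun j =>
      decide (ps (s' x).1 l j = ps (s x).1 l j) ||
      (EB (Γ x) l (sg (c x) l j) (ps (s x).1 l j) (ps (s' x).1 l j) &&
        oEq (δB (Γ x) (sg (c x) l j).2.2 (ps (s' x).1 l j)) (s' x).2)) := by
    refine PolyTime.all (l := fun _ => List.range k) (g := fun x l =>
      (List.range (B + 1)).all fun j =>
      decide (ps (s' x).1 l j = ps (s x).1 l j) ||
      (EB (Γ x) l (sg (c x) l j) (ps (s x).1 l j) (ps (s' x).1 l j) &&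
        oEq (δB (Γ x) (sg (c x) l j).2.2 (ps (s' x).1 l j)) (s' x).2)) (by fun_prop) ?_
    refine PolyTime.all (α := α × ℕ) (l := fun _ => List.range (B + 1)) (g := fun p j =>
      decide (ps (s' p.1).1 p.2 j = ps (s p.1).1 p.2 j) ||
      (EB (Γ p.1) p.2 (sg (c p.1) p.2 j) (ps (s p.1).1 p.2 j) (ps (s' p.1).1 p.2 j) &&
        oEq (δB (Γ p.1) (sg (c p.1) p.2 j).2.2 (ps (s' p.1).1 p.2 j)) (s' p.1).2))
        (by fun_prop) ?_
    fun_prop
  fun_prop

theorem htL_pt (k : ℕ) (hΓ : PolyTime Γ) : PolyTime (fun x => htL k (Γ x)) := by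
  unfold htL
  refine PolyTime.cons (by fun_prop) ?_
  refine PolyTime.map (l := fun x => (List.range k).product (ndL (Γ x)))
    (g := fun x p => some (δB (Γ x) p.1 p.2)) (by fun_prop) ?_
  fun_prop

attribute [local fun_prop] spB_pt htL_pt

theorem stL_pt (k B : ℕ) (hΓ : PolyTime Γ) : PolyTime (fun x => stL k B (Γ x)) := by
  unfold stL
  refine PolyTime.product (allL_polyTime k (allL_polyTime (B + 1) (by fun_prop))) (by fun_prop)

theorem swB_pt (k B : ℕ) {c : α → List (List Sg)} (hΓ : PolyTime Γ) (hc : PolyTime c) :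
    PolyTime (fun x => swB k B (Γ x) (c x)) := by
  unfold swB
  refine PolyTime.any (l := fun x => reachL (stL k B (Γ x)) (spB k B (Γ x) (c x))
    (lowL k B (Γ x) (c x), none)) (g := fun x s => decide (s.1 = highL k B (Γ x) (c x))) ?_ ?_
  · refine reachL_polyTime (V := fun x => stL k B (Γ x)) (E := fun x => spB k B (Γ x) (c x))
      (s := fun x => (lowL k B (Γ x) (c x), none)) (stL_pt k B hΓ) ?_ (by fun_prop)
    exact spB_pt k B (by fun_prop) (by fun_prop) (by fun_prop) (by fun_prop)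
  · exact PolyTime.decide_eq (by fun_prop) (by fun_prop)

theorem algB_polyTime (k B : ℕ) : PolyTime (fun Γ : Ctx => algB k B Γ) := by
  unfold algB
  refine PolyTime.any (l := fun Γ => allL k (allL (B + 1) (sgL k Γ)))
    (g := fun Γ c => stB k B Γ c && swB k B Γ c) ?_ ?_
  · exact allL_polyTime k (allL_polyTime (B + 1) (by fun_prop))
  · refine PolyTime.and (by fun_prop) (swB_pt k B (by fun_prop) (by fun_prop))

theorem ctxOf_polyTime :
    PolyTime (fun d : ℕ × List (ℕ × ℕ × List Bool × List Bool) × List (ℕ × ℕ) =>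
      ctxOf d) := by
  unfold ctxOf
  refine PolyTime.pair (by fun_prop) (PolyTime.pair ?_ (by fun_prop))
  refine PolyTime.zipWith
    (g := fun (_ : ℕ × List (ℕ × ℕ × List Bool × List Bool) × List (ℕ × ℕ))
      (e : ℕ × ℕ × List Bool × List Bool) (c : List Bool) => (e.1, e.2.1, c))
    (l := fun d => d.2.1)
    (m := fun d => scale (d.2.1.map fun e => (e.2.2.1, e.2.2.2))) (by fun_prop) ?_ (by fun_prop)
  exact scale_polyTime (PolyTime.map
    (g := fun (_ : ℕ × List (ℕ × ℕ × List Bool × List Bool) × List (ℕ × ℕ))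
      (e : ℕ × ℕ × List Bool × List Bool) => (e.2.2.1, e.2.2.2)) (by fun_prop)
    (by fun_prop))

end Pool.Agent.DPO
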