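import Pool.Agent.PT.More

/-!
# Binary arithmetic on lists of digits (least significant digit first), in polynomial time
-/

namespace Pool.Agent.DPO
open Pool.Agent.PT

/-- value of a little endian binary numeral -/
def bval : List Bool → ℕ
  | [] => 0
  | b :: l => (if b then 1 else 0) + 2 * bval l

@[simp] theorem bval_nil : bval [] = 0 := rfl
@[simp] theorem bval_cons (b : Bool) (l : List Bool) :
    bval (b :: l) = (if b then 1 else 0) + 2 * bval l := rfl

theorem bval_append (l m : List Bool) : bval (l ++ m) = bval l + 2 ^ l.length * bval m := by
  induction l with
  | nil => simp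
  | cons b l ih =>
    simp only [List.cons_append, bval_cons, ih, List.length_cons]
    ring

theorem bval_replicate_false (n : ℕ) : bval (List.replicate n false) = 0 := by
  induction n with
  | zero => rfl
  | succ n ih => simp [List.replicate_succ, ih]

/-- The digits of two numbers, padded with zeros to the same length. -/
def bpad (a b : List Bool) : List (Bool × Bool) :=
  (a ++ List.replicate (b.length - a.length) false).zip
    (b ++ List.replicate (a.length - b.length) false)

theorem length_bpad (a b : List Bool) : (bpad a b).length = max a.length b.length := by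
  simp only [bpad, List.length_zip, List.length_append, List.length_replicate]
  omega

theorem bval_fst_bpad (a b : List Bool) : bval ((bpad a b).map Prod.fst) = bval a := by
  rw [bpad, List.map_fst_zip (by simp; omega), bval_append, bval_replicate_false]
  simp

theorem bval_snd_bpad (a b : List Bool) : bval ((bpad a b).map Prod.snd) = bval b := by
  rw [bpad, List.map_snd_zip (by simp; omega), bval_append, bval_replicate_false]
  simp

/-- One step of the addition: carry and reversed digits of the result. -/
def addStep (s : Bool × List Bool) (p : Bool × Bool) : Bool × List Bool :=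
  ((s.1 && p.1) || (s.1 && p.2) || (p.1 && p.2), (Bool.xor s.1 (Bool.xor p.1 p.2)) :: s.2)

/-- addition with carry -/
def badd (a b : List Bool) : List Bool :=
  (((bpad a b).foldl addStep (false, [])).1 :: ((bpad a b).foldl addStep (false, [])).2).reverse

theorem addStep_foldl (l : List (Bool × Bool)) : ∀ (c : Bool) (out : List Bool),
    bval (((l.foldl addStep (c, out)).1 :: (l.foldl addStep (c, out)).2).reverse) =
      bval out.reverse + 2 ^ out.length * ((if c then 1 else 0) + bval (l.map Prod.fst) +
        bval (l.map Prod.snd)) := by
  induction l with
  | nil =>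
    intro c out
    simp [bval_append]
  | cons p l ih =>
    intro c out
    rw [List.foldl_cons]
    have : addStep (c, out) p = ((c && p.1) || (c && p.2) || (p.1 && p.2),
      (Bool.xor c (Bool.xor p.1 p.2)) :: out) := rfl
    rw [this, ih]
    simp only [List.reverse_cons, bval_append, List.length_reverse, List.length_cons,
      List.map_cons, bval_cons, bval_nil]
    obtain ⟨x, y⟩ := p
    cases c <;> cases x <;> cases y <;> simp <;> ring

theorem addStep_foldl_length (l : List (Bool × Bool)) : ∀ (s : Bool × List Bool),
    (l.foldl addStep s).2.length = s.2.length + l.length := by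
  induction l with
  | nil => intro s; simp
  | cons p l ih =>
    intro s
    rw [List.foldl_cons, ih]
    simp only [addStep, List.length_cons]
    omega

theorem bval_badd (a b : List Bool) : bval (badd a b) = bval a + bval b := by
  rw [badd, addStep_foldl, bval_fst_bpad, bval_snd_bpad]
  simp

theorem length_badd' (a b : List Bool) : (badd a b).length = max a.length b.length + 1 := by
  rw [badd, List.length_reverse, List.length_cons, addStep_foldl_length, length_bpad]
  simp

theorem length_badd (a b : List Bool) : (badd a b).length ≤ max a.length b.length + 1 :=
  (length_badd' a b).le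

/-- multiplication (Horner scheme in the second factor) -/
def bmul (a b : List Bool) : List Bool :=
  b.foldr (fun x acc => if x then badd a (false :: acc) else false :: acc) []

theorem bval_bmul (a b : List Bool) : bval (bmul a b) = bval a * bval b := by
  induction b with
  | nil => rfl
  | cons x b ih =>
    have : bmul a (x :: b) = if x then badd a (false :: bmul a b) else false :: bmul a b := rfl
    rw [this]
    cases x
    · simp only [Bool.false_eq_true, if_false, bval_cons, ih]
      ring
    · simp only [if_true, bval_badd, bval_cons, ih, Bool.false_eq_true, if_false]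
      ring

theorem length_bmul (a b : List Bool) : (bmul a b).length ≤ a.length + 2 * b.length + 1 := by
  have key : (bmul a b).length ≤ a.length + 2 * b.length := by
    induction b with
    | nil => simp [bmul]
    | cons x b ih =>
      have : bmul a (x :: b) = if x then badd a (false :: bmul a b) else false :: bmul a b := rfl
      rw [this]
      have h2 := length_badd a (false :: bmul a b)
      rw [List.length_cons] at h2
      cases x
      · simp only [Bool.false_eq_true, if_false, List.length_cons]
        omega
      · simp only [if_true, List.length_cons]
        omega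
  omega

/-- comparison: scan from the least significant digit -/
def ble (a b : List Bool) : Bool :=
  (bpad a b).foldl (fun r p => if p.1 = p.2 then r else p.2) true

theorem ble_foldl (l : List (Bool × Bool)) : ∀ r : Bool,
    (l.foldl (fun r p => if p.1 = p.2 then r else p.2) r = true ↔
      bval (l.map Prod.fst) + (if r then 0 else 1) ≤ bval (l.map Prod.snd)) := by
  induction l with
  | nil => intro r; cases r <;> simp
  | cons p l ih =>
    intro r
    rw [List.foldl_cons, ih]
    obtain ⟨x, y⟩ := p
    simp only [List.map_cons, bval_cons]
    cases r <;> cases x <;> cases y <;> simp <;> omega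

theorem ble_iff (a b : List Bool) : ble a b = true ↔ bval a ≤ bval b := by
  rw [ble, ble_foldl, bval_fst_bpad, bval_snd_bpad]
  simp

theorem bval_bits (n : ℕ) : bval n.bits = n := by
  induction n using Nat.binaryRec' with
  | zero => simp
  | bit b n h ih =>
    rw [Nat.bits_append_bit n b h, bval_cons, ih, Nat.bit_val]
    cases b
    · simp
    · simp only [if_true, Bool.toNat_true]
      omega

/-! ### Polynomial time -/

theorem sz_boolList_le (l : List Bool) : sz l ≤ 4 * l.length + 1 := by
  induction l with
  | nil => simp
  | cons b l ih =>
    have := sz_bool b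
    rw [sz_cons, List.length_cons]
    omega

variable {α : Type*} [Enc α]

@[fun_prop]
theorem bpad_polyTime {f g : α → List Bool} (hf : PolyTime f) (hg : PolyTime g) :
    PolyTime (fun x => bpad (f x) (g x)) := by
  unfold bpad
  fun_prop

theorem addStep_polyTime : PolyTime (fun p : (Bool × List Bool) × (Bool × Bool) =>
    addStep p.1 p.2) := by
  unfold addStep
  fun_prop

@[fun_prop]
theorem badd_polyTime {f g : α → List Bool} (hf : PolyTime f) (hg : PolyTime g) :
    PolyTime (fun x => badd (f x) (g x)) := by
  have hb := (bpad_polyTime hf hg).pbdd
  have h : PolyTime (fun x => (bpad (f x) (g x)).foldl addStep (false, [])) := by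
    refine PolyTime.foldl (g := fun (_ : α) => addStep) (bpad_polyTime hf hg)
      (addStep_polyTime.comp (f := fun p : α × ((Bool × List Bool) × (Bool × Bool)) => p.2)
        (by fun_prop)) (by fun_prop) (s := fun x => 4 * sz (bpad (f x) (g x)) + 6)
      (by fun_prop) fun x i => ?_
    have h1 := addStep_foldl_length ((bpad (f x) (g x)).take i) (false, [])
    have h2 := length_le_sz (bpad (f x) (g x))
    have h3 := sz_bool (((bpad (f x) (g x)).take i).foldl addStep (false, [])).1
    have h4 := sz_boolList_le (((bpad (f x) (g x)).take i).foldl addStep (false, [])).2
    rw [sz_prod]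
    rw [List.length_take, List.length_nil] at h1
    omega
  unfold badd
  fun_prop

@[fun_prop]
theorem bmul_polyTime {f g : α → List Bool} (hf : PolyTime f) (hg : PolyTime g) :
    PolyTime (fun x => bmul (f x) (g x)) := by
  have hb := hf.pbdd
  have hb' := hg.pbdd
  unfold bmul
  refine PolyTime.foldr (g := fun x (b : Bool) acc =>
      if b then badd (f x) (false :: acc) else false :: acc) hg ?_ (by fun_prop)
    (s := fun x => 4 * (sz (f x) + 2 * sz (g x)) + 5) (by fun_prop) fun x i => ?_
  · refine PolyTime.ite (P := fun p : α × (Bool × List Bool) => p.2.1 = true) ?_ ?_ ?_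
    · exact PolyTime.decide_eq_true (by fun_prop)
    · fun_prop
    · fun_prop
  · have h1 := length_bmul (f x) ((g x).drop i)
    have h2 := sz_boolList_le (bmul (f x) ((g x).drop i))
    have h3 := length_le_sz (f x)
    have h4 := length_le_sz (g x)
    have h5 : ((g x).drop i).length ≤ (g x).length := by simp
    change sz (bmul (f x) ((g x).drop i)) ≤ _
    omega

@[fun_prop]
theorem ble_polyTime {f g : α → List Bool} (hf : PolyTime f) (hg : PolyTime g) :
    PolyTime (fun x => ble (f x) (g x)) := by
  unfold ble
  refine PolyTime.foldl_const (g := fun (_ : α) (r : Bool) (p : Bool × Bool) =>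
    if p.1 = p.2 then r else p.2) (by fun_prop) ?_ (by fun_prop) (s := fun _ => 3)
    (by fun_prop) fun x c b => sz_bool _
  exact PolyTime.ite (by fun_prop) (by fun_prop) (by fun_prop)

/-! ### Products and common denominators -/

/-- The numerator of the `i`-th fraction times all other denominators. -/
def scaleAt (l : List (List Bool × List Bool)) (i : ℕ) : List Bool :=
  (l.take i ++ l.drop (i + 1)).foldl (fun acc p => bmul acc p.2) (l.getD i ([], [])).1

/-- Scaling of fractions `a_i / b_i` to integers with the common denominator `∏ b_j`:
the i-th entry has the value `a_i * ∏_{j ≠ i} b_j`. -/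
def scale (l : List (List Bool × List Bool)) : List (List Bool) :=
  (List.range l.length).map (scaleAt l)

theorem length_scale (l : List (List Bool × List Bool)) : (scale l).length = l.length := by
  simp [scale]

theorem bval_foldl_bmul (m : List (List Bool × List Bool)) : ∀ a : List Bool,
    bval (m.foldl (fun acc p => bmul acc p.2) a) = bval a * (m.map fun p => bval p.2).prod := by
  induction m with
  | nil => intro a; simp
  | cons p m ih =>
    intro a
    rw [List.foldl_cons, ih, bval_bmul, List.map_cons, List.prod_cons]
    ring

theorem scale_spec (l : List (List Bool × List Bool)) (i : ℕ) (hi : i < l.length) :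
    bval ((scale l)[i]'(by rw [length_scale]; exact hi)) * bval (l[i].2) =
      bval (l[i].1) * (l.map fun p => bval p.2).prod := by
  have e1 : (scale l)[i]'(by rw [length_scale]; exact hi) = scaleAt l i := by
    simp [scale]
  have e2 : l.getD i ([], []) = l[i] := by
    simp [List.getD_eq_getElem?_getD, List.getElem?_eq_getElem hi]
  have e3 : l = l.take i ++ l[i] :: l.drop (i + 1) := by
    rw [List.getElem_cons_drop, List.take_append_drop]
  rw [e1, scaleAt, bval_foldl_bmul, e2]
  have e4 : (l.map fun p => bval p.2).prod =
      ((l.take i).map fun p => bval p.2).prod * (bval l[i].2 *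
        ((l.drop (i + 1)).map fun p => bval p.2).prod) := by
    conv_lhs => rw [e3]
    rw [List.map_append, List.prod_append, List.map_cons, List.prod_cons]
  rw [e4, List.map_append, List.prod_append]
  ring

theorem length_foldl_bmul (m : List (List Bool × List Bool)) : ∀ a : List Bool,
    (m.foldl (fun acc p => bmul acc p.2) a).length ≤ a.length + 2 * sz m := by
  induction m with
  | nil => intro a; simp
  | cons p m ih =>
    intro a
    rw [List.foldl_cons]
    have h1 := ih (bmul a p.2)
    have h2 := length_bmul a p.2
    have h3 := length_le_sz p.2
    have h4 : sz (p :: m) = sz p.1 + sz p.2 + 1 + sz m + 1 := by rw [sz_cons, sz_prod]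
    omega

theorem scaleAt_polyTime {f : α → List (List Bool × List Bool)} {i : α → ℕ} (hf : PolyTime f)
    (hi : PolyTime i) : PolyTime (fun x => scaleAt (f x) (i x)) := by
  unfold scaleAt
  have h1 : PolyTime (fun x => (f x).take (i x) ++ (f x).drop (i x + 1)) := by fun_prop
  have h2 : PolyTime (fun x => ((f x).getD (i x) ([], [])).1) := by
    have : PolyTime (fun x => (f x).getD (i x) (([], []) : List Bool × List Bool)) :=
      PolyTime.getD hf hi (by fun_prop)
    fun_prop
  have hb1 := h1.pbdd
  have hb2 := h2.pbdd
  refine PolyTime.foldl (g := fun (_ : α) (acc : List Bool) (p : List Bool × List Bool) =>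
    bmul acc p.2) h1 (by fun_prop) h2
    (s := fun x => 4 * (sz ((f x).getD (i x) ([], [])).1 +
      2 * sz ((f x).take (i x) ++ (f x).drop (i x + 1))) + 1) (by fun_prop) fun x j => ?_
  have h3 := length_foldl_bmul (((f x).take (i x) ++ (f x).drop (i x + 1)).take j)
    ((f x).getD (i x) ([], [])).1
  have h4 := sz_boolList_le ((((f x).take (i x) ++ (f x).drop (i x + 1)).take j).foldl
    (fun acc p => bmul acc p.2) ((f x).getD (i x) ([], [])).1)
  have h5 := length_le_sz ((f x).getD (i x) ([], [])).1
  have h6 := sz_le_of_sublist (List.take_sublist j ((f x).take (i x) ++ (f x).drop (i x + 1)))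
  omega

@[fun_prop]
theorem scale_polyTime {f : α → List (List Bool × List Bool)} (hf : PolyTime f) :
    PolyTime (fun x => scale (f x)) := by
  unfold scale
  exact PolyTime.map (g := fun x i => scaleAt (f x) i) (by fun_prop)
    (scaleAt_polyTime (f := fun p : α × ℕ => f p.1) (i := fun p => p.2) (by fun_prop)
      (by fun_prop))

end Pool.Agent.DPO
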