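import Pool.Agent.DPO.Defs
import Pool.Agent.PT.More

/-!
# Parsing the input word of the orientation problem
-/

namespace Pool.Agent.DPO

open Pool.Agent.PT

/-- Raw input data: the number of vertices, the edges (ends, binary digits of the numerator and the
denominator), the pairs. -/
abbrev Raw := ℕ × List (ℕ × ℕ × List Bool × List Bool) × List (ℕ × ℕ)

/-- The raw data of an input. -/
def Inst.raw {k : ℕ} (x : Inst k) : Raw :=
  (x.n, x.edges.map (fun e => (e.1.val, e.2.1.val, e.2.2.1.bits, e.2.2.2.bits)),
    (List.ofFn x.pairs).map fun p => (p.1.val, p.2.val))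

/-! ### Unary numbers -/

/-- step of the reader of unary numbers -/
def stepU (s : ℕ × (List Bool × Bool)) : ℕ × (List Bool × Bool) :=
  bif s.2.2 then s else
    List.casesOn (motive := fun _ => ℕ × (List Bool × Bool)) s.2.1 (s.1, ([], true))
      (fun b t => bif b then (s.1 + 1, (t, false)) else (s.1, (t, true)))

/-- reader of unary numbers -/
def readU (l : List Bool) : ℕ × List Bool :=
  ((stepU^[l.length] (0, (l, false))).1, (stepU^[l.length] (0, (l, false))).2.1)

theorem stepU_polyTime : PolyTime stepU := by
  unfold stepU
  refine PolyTime.cond (by fun_prop) (by fun_prop) ?_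
  refine PolyTime.listCases (l := fun s : ℕ × (List Bool × Bool) => s.2.1)
    (f := fun s => (s.1, ([], true)))
    (g := fun s b t => bif b then (s.1 + 1, (t, false)) else (s.1, (t, true)))
    (by fun_prop) (by fun_prop) ?_
  exact PolyTime.cond (by fun_prop) (by fun_prop) (by fun_prop)

theorem stepU_sz (s : ℕ × (List Bool × Bool)) :
    sz (stepU s).1 + sz (stepU s).2.1 ≤ sz s.1 + sz s.2.1 := by
  obtain ⟨c, l, d⟩ := s
  cases d with
  | true => exact le_refl _
  | false =>
    cases l with
    | nil => exact le_refl _
    | cons b t =>
      have hb := sz_pos b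
      cases b with
      | true =>
        have : sz true = 3 := by decide
        simp only [stepU, cond_false, cond_true, sz_nat, sz_cons, this]
        omega
      | false =>
        simp only [stepU, cond_false, sz_nat, sz_cons]
        omega

theorem stepU_iterate_sz (i : ℕ) (s : ℕ × (List Bool × Bool)) :
    sz (stepU^[i] s).1 + sz (stepU^[i] s).2.1 ≤ sz s.1 + sz s.2.1 := by
  induction i with
  | zero => exact le_refl _
  | succ i ih =>
    rw [Function.iterate_succ_apply']
    exact (stepU_sz _).trans ih

theorem readU_sz (l : List Bool) : sz (readU l).1 + sz (readU l).2 ≤ sz l + 1 := by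
  have h := stepU_iterate_sz l.length (0, (l, false))
  have : sz (0 : ℕ) = 1 := by simp
  simp only [this] at h
  unfold readU
  simp only
  omega

theorem readU_polyTime : PolyTime readU := by
  have h : PolyTime (fun l : List Bool => stepU^[l.length] (0, (l, false))) := by
    refine PolyTime.iterate (f := stepU) (n := fun l : List Bool => l.length)
      (g := fun l : List Bool => ((0 : ℕ), (l, false))) stepU_polyTime (by fun_prop) (by fun_prop)
      (s := fun l => sz l + 10) (by fun_prop) fun l i _ => ?_
    have h := stepU_iterate_sz i (0, (l, false))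
    have : sz (0 : ℕ) = 1 := by simp
    simp only [this] at h
    have h3 := sz_bool ((stepU^[i] (0, (l, false))).2.2)
    rw [sz_prod, sz_prod]
    omega
  unfold readU
  fun_prop

@[fun_prop]
theorem readU_comp {α : Type*} [Enc α] {f : α → List Bool} (hf : PolyTime f) :
    PolyTime (fun x => readU (f x)) := readU_polyTime.comp hf

theorem stepU_done (i : ℕ) (c : ℕ) (r : List Bool) : stepU^[i] (c, (r, true)) = (c, (r, true)) := by
  induction i with
  | zero => rfl
  | succ i ih =>
    rw [Function.iterate_succ_apply]
    exact ih

theorem stepU_unary (a : ℕ) : ∀ (c : ℕ) (r : List Bool),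
    stepU^[a + 1] (c, (unary a ++ r, false)) = (c + a, (r, true)) := by
  induction a with
  | zero => intro c r; rfl
  | succ a ih =>
    intro c r
    rw [Function.iterate_succ_apply]
    have : stepU (c, (unary (a + 1) ++ r, false)) = (c + 1, (unary a ++ r, false)) := rfl
    rw [this, ih]
    congr 1
    omega

theorem readU_unary (a : ℕ) (r : List Bool) : readU (unary a ++ r) = (a, r) := by
  have hl : (unary a ++ r).length = r.length + (a + 1) := by
    simp [unary]
    omega
  have h : stepU^[(unary a ++ r).length] (0, (unary a ++ r, false)) = (a, (r, true)) := by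
    rw [hl, Function.iterate_add_apply, stepU_unary, stepU_done]
    simp
  unfold readU
  rw [h]

/-! ### Binary numbers -/

/-- step of the reader of binary numbers -/
def stepB (s : List Bool × (List Bool × Bool)) : List Bool × (List Bool × Bool) :=
  bif s.2.2 then s else
    List.casesOn (motive := fun _ => List Bool × (List Bool × Bool)) s.2.1 (s.1, ([], true))
      (fun b t => bif b then (t.headD false :: s.1, (t.tail, false)) else (s.1, (t, true)))

/-- reader of binary numbers -/
def readB (l : List Bool) : List Bool × List Bool :=
  ((stepB^[l.length] ([], (l, false))).1.reverse, (stepB^[l.length] ([], (l, false))).2.1)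

theorem stepB_polyTime : PolyTime stepB := by
  unfold stepB
  refine PolyTime.cond (by fun_prop) (by fun_prop) ?_
  refine PolyTime.listCases (l := fun s : List Bool × (List Bool × Bool) => s.2.1)
    (f := fun s => (s.1, ([], true)))
    (g := fun s b t => bif b then (t.headD false :: s.1, (t.tail, false)) else (s.1, (t, true)))
    (by fun_prop) (by fun_prop) ?_
  exact PolyTime.cond (by fun_prop) (by fun_prop) (by fun_prop)

theorem stepB_sz (s : List Bool × (List Bool × Bool)) :
    sz (stepB s).1 + sz (stepB s).2.1 ≤ sz s.1 + sz s.2.1 := by
  obtain ⟨c, l, d⟩ := s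
  cases d with
  | true => exact le_refl _
  | false =>
    cases l with
    | nil => exact le_refl _
    | cons b t =>
      have hb := sz_pos b
      have h3 : sz true = 3 := by decide
      have h1 : sz false = 1 := by decide
      cases b with
      | true =>
        cases t with
        | nil =>
          simp only [stepB, cond_false, cond_true, sz_cons, h3, List.headD_nil, List.tail_nil,
            sz_nil, h1]
          omega
        | cons b' t =>
          simp only [stepB, cond_false, cond_true, sz_cons, h3, List.headD_cons, List.tail_cons]
          omega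
      | false =>
        simp only [stepB, cond_false, sz_cons]
        omega

theorem stepB_iterate_sz (i : ℕ) (s : List Bool × (List Bool × Bool)) :
    sz (stepB^[i] s).1 + sz (stepB^[i] s).2.1 ≤ sz s.1 + sz s.2.1 := by
  induction i with
  | zero => exact le_refl _
  | succ i ih =>
    rw [Function.iterate_succ_apply']
    exact (stepB_sz _).trans ih

theorem readB_sz (l : List Bool) : sz (readB l).1 + sz (readB l).2 ≤ sz l + 1 := by
  have h := stepB_iterate_sz l.length ([], (l, false))
  simp only [sz_nil] at h
  unfold readB
  simp only [sz_reverse]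
  omega

theorem readB_polyTime : PolyTime readB := by
  have h : PolyTime (fun l : List Bool => stepB^[l.length] ([], (l, false))) := by
    refine PolyTime.iterate (f := stepB) (n := fun l : List Bool => l.length)
      (g := fun l : List Bool => (([] : List Bool), (l, false))) stepB_polyTime (by fun_prop)
      (by fun_prop) (s := fun l => sz l + 10) (by fun_prop) fun l i _ => ?_
    have h := stepB_iterate_sz i ([], (l, false))
    simp only [sz_nil] at h
    have h3 := sz_bool ((stepB^[i] ([], (l, false))).2.2)
    rw [sz_prod, sz_prod]
    omega
  unfold readB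
  fun_prop

@[fun_prop]
theorem readB_comp {α : Type*} [Enc α] {f : α → List Bool} (hf : PolyTime f) :
    PolyTime (fun x => readB (f x)) := readB_polyTime.comp hf

theorem stepB_done (i : ℕ) (c r : List Bool) : stepB^[i] (c, (r, true)) = (c, (r, true)) := by
  induction i with
  | zero => rfl
  | succ i ih =>
    rw [Function.iterate_succ_apply]
    exact ih

theorem stepB_bits (l : List Bool) : ∀ (c r : List Bool),
    stepB^[l.length + 1] (c, (l.flatMap (fun b => [true, b]) ++ [false] ++ r, false)) =
      (l.reverse ++ c, (r, true)) := by
  induction l with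
  | nil => intro c r; rfl
  | cons b l ih =>
    intro c r
    rw [List.length_cons, Function.iterate_succ_apply]
    have : stepB (c, ((b :: l).flatMap (fun b => [true, b]) ++ [false] ++ r, false)) =
      (b :: c, (l.flatMap (fun b => [true, b]) ++ [false] ++ r, false)) := rfl
    rw [this, ih]
    simp

theorem readB_binary (a : ℕ) (r : List Bool) : readB (binary a ++ r) = (a.bits, r) := by
  have h2 : a.bits.length + 1 ≤ (binary a ++ r).length := by
    rw [binary]
    simp only [List.length_append, List.length_flatMap, List.length_cons, List.length_nil,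
      List.map_const', List.sum_replicate, smul_eq_mul]
    omega
  obtain ⟨j, hj⟩ := Nat.exists_eq_add_of_le h2
  have h : stepB^[(binary a ++ r).length] ([], (binary a ++ r, false)) =
      (a.bits.reverse, (r, true)) := by
    rw [hj, Nat.add_comm, Function.iterate_add_apply, binary, stepB_bits, stepB_done]
    simp
  unfold readB
  rw [h]
  simp

attribute [irreducible] readU readB

/-! ### Edges -/

/-- reader of an edge -/
def stepE (s : List (ℕ × ℕ × List Bool × List Bool) × List Bool) :
    List (ℕ × ℕ × List Bool × List Bool) × List Bool :=
  (((readU s.2).1, (readU (readU s.2).2).1, (readB (readU (readU s.2).2).2).1,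
    (readB (readB (readU (readU s.2).2).2).2).1) :: s.1,
    (readB (readB (readU (readU s.2).2).2).2).2)

theorem stepE_polyTime : PolyTime stepE := by
  unfold stepE
  fun_prop

theorem stepE_sz (s : List (ℕ × ℕ × List Bool × List Bool) × List Bool) :
    sz (stepE s).1 + sz (stepE s).2 ≤ sz s.1 + sz s.2 + 10 := by
  have h1 := readU_sz s.2
  have h2 := readU_sz (readU s.2).2
  have h3 := readB_sz (readU (readU s.2).2).2
  have h4 := readB_sz (readB (readU (readU s.2).2).2).2
  unfold stepE
  simp only [sz_cons, sz_prod]
  omega

theorem stepE_iterate_sz (i : ℕ) (s : List (ℕ × ℕ × List Bool × List Bool) × List Bool) :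
    sz (stepE^[i] s).1 + sz (stepE^[i] s).2 ≤ sz s.1 + sz s.2 + 10 * i := by
  induction i with
  | zero => exact le_refl _
  | succ i ih =>
    rw [Function.iterate_succ_apply']
    have := stepE_sz (stepE^[i] s)
    omega

theorem stepE_edges {n : ℕ} (l : List (Fin n × Fin n × ℕ × ℕ)) :
    ∀ (c : List (ℕ × ℕ × List Bool × List Bool)) (r : List Bool),
    stepE^[l.length] (c, l.flatMap (fun e => unary e.1 ++ unary e.2.1 ++ binary e.2.2.1 ++
      binary e.2.2.2) ++ r) =
      ((l.map (fun e => (e.1.val, e.2.1.val, e.2.2.1.bits, e.2.2.2.bits))).reverse ++ c, r) := by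
  induction l with
  | nil => intro c r; rfl
  | cons e l ih =>
    intro c r
    rw [List.length_cons, Function.iterate_succ_apply, List.flatMap_cons, List.append_assoc]
    have : stepE (c, unary e.1 ++ unary e.2.1 ++ binary e.2.2.1 ++ binary e.2.2.2 ++
        (l.flatMap (fun e => unary e.1 ++ unary e.2.1 ++ binary e.2.2.1 ++
          binary e.2.2.2) ++ r)) =
        ((e.1.val, e.2.1.val, e.2.2.1.bits, e.2.2.2.bits) :: c,
          l.flatMap (fun e => unary e.1 ++ unary e.2.1 ++ binary e.2.2.1 ++
          binary e.2.2.2) ++ r) := by
      unfold stepE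
      simp only [List.append_assoc, readU_unary, readB_binary]
    rw [this, ih]
    simp

/-! ### Pairs -/

/-- reader of a pair -/
def stepP (s : List (ℕ × ℕ) × List Bool) : List (ℕ × ℕ) × List Bool :=
  (((readU s.2).1, (readU (readU s.2).2).1) :: s.1, (readU (readU s.2).2).2)

theorem stepP_polyTime : PolyTime stepP := by
  unfold stepP
  fun_prop

theorem stepP_sz (s : List (ℕ × ℕ) × List Bool) :
    sz (stepP s).1 + sz (stepP s).2 ≤ sz s.1 + sz s.2 + 10 := by
  have h1 := readU_sz s.2
  have h2 := readU_sz (readU s.2).2
  unfold stepP
  simp only [sz_cons, sz_prod]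
  omega

theorem stepP_iterate_sz (i : ℕ) (s : List (ℕ × ℕ) × List Bool) :
    sz (stepP^[i] s).1 + sz (stepP^[i] s).2 ≤ sz s.1 + sz s.2 + 10 * i := by
  induction i with
  | zero => exact le_refl _
  | succ i ih =>
    rw [Function.iterate_succ_apply']
    have := stepP_sz (stepP^[i] s)
    omega

theorem stepP_pairs {n : ℕ} (l : List (Fin n × Fin n)) :
    ∀ (c : List (ℕ × ℕ)) (r : List Bool),
    stepP^[l.length] (c, l.flatMap (fun p => unary p.1 ++ unary p.2) ++ r) =
      ((l.map (fun p => (p.1.val, p.2.val))).reverse ++ c, r) := by
  induction l with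
  | nil => intro c r; rfl
  | cons e l ih =>
    intro c r
    rw [List.length_cons, Function.iterate_succ_apply, List.flatMap_cons, List.append_assoc]
    have : stepP (c, unary e.1 ++ unary e.2 ++
        (l.flatMap (fun p => unary p.1 ++ unary p.2) ++ r)) =
        ((e.1.val, e.2.val) :: c, l.flatMap (fun p => unary p.1 ++ unary p.2) ++ r) := by
      unfold stepP
      simp only [List.append_assoc, readU_unary]
    rw [this, ih]
    simp

/-! ### The parser -/

/-- first stage: `n`, and the state after reading the edges -/
def parseAux (l : List Bool) : List (ℕ × ℕ × List Bool × List Bool) × List Bool :=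
  stepE^[(readU (readU l).2).1] ([], (readU (readU l).2).2)

/-- The parser of input words. -/
def parse (k : ℕ) (l : List Bool) : Raw :=
  ((readU l).1, (parseAux l).1.reverse, (stepP^[k] ([], (parseAux l).2)).1.reverse)

theorem parse_encode {k : ℕ} (x : Inst k) : parse k x.encode = x.raw := by
  have h1 : readU x.encode = (x.n, unary x.edges.length ++
      (x.edges.flatMap (fun e => unary e.1 ++ unary e.2.1 ++ binary e.2.2.1 ++ binary e.2.2.2) ++
      (List.ofFn x.pairs).flatMap (fun p => unary p.1 ++ unary p.2))) := by
    unfold Inst.encode
    simp only [List.append_assoc]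
    exact readU_unary _ _
  have h2 := readU_unary x.edges.length
    (x.edges.flatMap (fun e => unary e.1 ++ unary e.2.1 ++ binary e.2.2.1 ++ binary e.2.2.2) ++
      (List.ofFn x.pairs).flatMap (fun p => unary p.1 ++ unary p.2))
  have h3 : parseAux x.encode =
      ((x.edges.map (fun e => (e.1.val, e.2.1.val, e.2.2.1.bits, e.2.2.2.bits))).reverse ++ [],
      (List.ofFn x.pairs).flatMap (fun p => unary p.1 ++ unary p.2)) := by
    unfold parseAux
    rw [h1]
    simp only [h2]
    exact stepE_edges x.edges [] _
  have h4 := stepP_pairs (List.ofFn x.pairs) [] []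
  rw [List.length_ofFn, List.append_nil] at h4
  unfold parse Inst.raw
  rw [h1, h3]
  simp only [h4]
  simp

theorem parseAux_polyTime : PolyTime parseAux := by
  unfold parseAux
  refine PolyTime.iterate (f := stepE) (n := fun l => (readU (readU l).2).1)
    (g := fun l => ([], (readU (readU l).2).2)) stepE_polyTime (by fun_prop) (by fun_prop)
    (s := fun l => 10 * sz l + 30) (by fun_prop) fun l i hi => ?_
  have h := stepE_iterate_sz i ([], (readU (readU l).2).2)
  have h2 := readU_sz l
  have h3 := readU_sz (readU l).2
  simp only [sz_nil] at h
  simp only [sz_nat] at h3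
  rw [sz_prod]
  simp only [sz_nat] at h2
  omega

attribute [irreducible] parseAux

theorem parse_polyTime (k : ℕ) : PolyTime (parse k) := by
  have h2 := parseAux_polyTime
  have h3 : PolyTime (fun l : List Bool => stepP^[k] ([], (parseAux l).2)) := by
    refine PolyTime.iterate (f := stepP) (n := fun _ : List Bool => k)
      (g := fun l => ([], (parseAux l).2)) stepP_polyTime (by fun_prop) (by fun_prop)
      (s := fun l => sz ((parseAux l).2) + 10 * k + 10)
      (by have := (PolyTime.snd h2).pbdd; fun_prop) fun l i hi => ?_
    have h := stepP_iterate_sz i ([], (parseAux l).2)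
    simp only [sz_nil] at h
    rw [sz_prod]
    omega
  unfold parse
  fun_prop

end Pool.Agent.DPO
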