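import Pool.Agent.DPO.AlgMain
import Pool.Agent.DPO.Parse

/-!
# From inputs to networks
-/

namespace Pool.Agent.DPO

open Pool.Agent.PT Relation
open scoped ENNReal

variable {k : ℕ} (x : Inst k)

/-- The scaled data of an input. -/
def Inst.ctx : Ctx := ctxOf x.raw

/-- The common denominator. -/
def Inst.den : ℕ := (x.edges.map fun e => e.2.2.2).prod

theorem Inst.den_pos' : 0 < x.den := by
  apply Nat.pos_of_ne_zero
  rw [Inst.den, Ne, List.prod_eq_zero_iff]
  intro h0
  obtain ⟨e, he, h1⟩ := List.mem_map.mp h0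
  exact absurd h1 (x.den_pos e he).ne'

theorem Inst.ctx_fst : x.ctx.1 = x.n := rfl

theorem Inst.ctx_len : x.ctx.2.1.length = x.edges.length := by
  simp only [Inst.ctx, ctxOf, Inst.raw, List.length_zipWith, length_scale, List.length_map,
    min_self]

theorem Inst.ctx_getElem (i : ℕ) (hi : i < x.edges.length) :
    ∃ c, x.ctx.2.1.getD i (0, 0, []) = ((x.edges[i]).1.val, (x.edges[i]).2.1.val, c) ∧
      bval c * (x.edges[i]).2.2.2 = (x.edges[i]).2.2.1 * x.den := by
  have h1 : i < x.ctx.2.1.length := by rw [x.ctx_len]; exact hi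
  rw [List.getD_eq_getElem _ _ h1]
  set M := (x.edges.map (fun e => (e.1.val, e.2.1.val, e.2.2.1.bits,
    e.2.2.2.bits))).map (fun e => (e.2.2.1, e.2.2.2)) with hM
  have hMl : M.length = x.edges.length := by simp [hM]
  have hi2 : i < M.length := by rw [hMl]; exact hi
  have hMi : M[i] = ((x.edges[i]).2.2.1.bits, (x.edges[i]).2.2.2.bits) := by
    simp [hM]
  have hMp : (M.map fun p => bval p.2).prod = x.den := by
    rw [Inst.den, hM, List.map_map, List.map_map]
    congr 1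
    apply List.map_congr_left
    intro e _
    simp only [Function.comp, bval_bits]
  have h2 := scale_spec M i hi2
  rw [hMi, hMp, bval_bits, bval_bits] at h2
  refine ⟨(scale M)[i]'(by rw [length_scale]; exact hi2), ?_, h2⟩
  have h3 : x.ctx.2.1 = List.zipWith (fun e c => (e.1, e.2.1, c))
      (x.edges.map (fun e => (e.1.val, e.2.1.val, e.2.2.1.bits, e.2.2.2.bits))) (scale M) := rfl
  simp only [h3, List.getElem_zipWith, List.getElem_map]

theorem Inst.eS_ctx (i : Fin x.edges.length) : eS x.ctx i = (x.src i).val := by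
  obtain ⟨c, h1, _⟩ := x.ctx_getElem i i.2
  rw [eS, h1]; rfl

theorem Inst.eT_ctx (i : Fin x.edges.length) : eT x.ctx i = (x.dst i).val := by
  obtain ⟨c, h1, _⟩ := x.ctx_getElem i i.2
  rw [eT, h1]; rfl

theorem Inst.eL_ctx (i : Fin x.edges.length) :
    bval (eL x.ctx i) * (x.edges.get i).2.2.2 = (x.edges.get i).2.2.1 * x.den := by
  obtain ⟨c, h1, h2⟩ := x.ctx_getElem i i.2
  rw [eL, h1]; exact h2

theorem Inst.len_eq (i : Fin x.edges.length) :
    x.len i = (bval (eL x.ctx i) : ℝ≥0∞) / (x.den : ℝ≥0∞) := by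
  have h1 := x.eL_ctx i
  have h2 : (x.edges.get i).2.2.2 ≠ 0 := (x.den_pos _ (List.get_mem _ _)).ne'
  have h3 := x.den_pos'.ne'
  rw [Inst.len, ENNReal.div_eq_div_iff (by exact_mod_cast h3) (ENNReal.natCast_ne_top _)
    (by exact_mod_cast h2) (ENNReal.natCast_ne_top _)]
  exact_mod_cast (by rw [mul_comm, ← h1, mul_comm])

theorem Inst.pS_ctx (l : Fin k) : pS x.ctx l = (x.pairs l).1.val := by
  simp [pS, Inst.ctx, ctxOf, Inst.raw, List.getD_eq_getElem?_getD]

theorem Inst.pT0_ctx (l : Fin k) : pT0 x.ctx l = (x.pairs l).2.val := by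
  simp [pT0, Inst.ctx, ctxOf, Inst.raw, List.getD_eq_getElem?_getD]

theorem Inst.good : Good k x.ctx where
  hG := by
    intro e he
    obtain ⟨i, hi, rfl⟩ := List.getElem_of_mem he
    have hi' : i < x.edges.length := by rw [← x.ctx_len]; exact hi
    obtain ⟨c, h1, _⟩ := x.ctx_getElem i hi'
    rw [List.getD_eq_getElem _ _ hi] at h1
    rw [h1]
    exact ⟨(x.edges[i]).1.2, (x.edges[i]).2.1.2⟩
  hs := by
    intro l hl
    have := x.pS_ctx ⟨l, hl⟩
    rw [show pS x.ctx l = _ from this]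
    exact (x.pairs ⟨l, hl⟩).1.2
  ht := by
    intro l hl
    have := x.pT0_ctx ⟨l, hl⟩
    rw [show pT0 x.ctx l = _ from this]
    exact (x.pairs ⟨l, hl⟩).2.2

/-- the network of an input -/
def Inst.net : Net (Fin k) ℕ ℕ := Pool.Agent.DPO.net x.good

theorem div_add_div (a b d : ℕ) :
    ((a + b : ℕ) : ℝ≥0∞) / (d : ℝ≥0∞) = (a : ℝ≥0∞) / d + (b : ℝ≥0∞) / d := by
  rw [Nat.cast_add, ENNReal.add_div]

theorem Inst.mem_valG' (i : Fin x.edges.length) :
    ((x.src i).val, (x.dst i).val, bval (eL x.ctx i)) ∈ valG x.ctx := by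
  have h1 : (i : ℕ) < x.ctx.2.1.length := by rw [x.ctx_len]; exact i.2
  have := mem_valG h1
  rwa [x.eS_ctx, x.eT_ctx] at this

/-- undirected walks have natural scaled lengths -/
theorem Inst.nwalk_of_walk {u v : Fin x.n} {L : ℝ≥0∞} (h : Walk x.undirected u v L) :
    ∃ N : ℕ, L = (N : ℝ≥0∞) / x.den ∧ NWalk (valG x.ctx) u v N := by
  induction h with
  | nil v => exact ⟨0, by simp, NWalk.nil _⟩
  | @cons u v w c L hs _ ih =>
    obtain ⟨N, rfl, hN⟩ := ih
    obtain ⟨i, rfl, hi⟩ := hs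
    refine ⟨bval (eL x.ctx i) + N, ?_, ?_⟩
    · rw [div_add_div, x.len_eq]
    · rcases hi with ⟨rfl, rfl⟩ | ⟨rfl, rfl⟩
      · exact NWalk.fwd (x.mem_valG' i) hN
      · exact NWalk.bwd (x.mem_valG' i) hN

theorem Inst.exists_of_mem_valG {a b c : ℕ} (h : (a, b, c) ∈ valG x.ctx) :
    ∃ i : Fin x.edges.length, (x.src i).val = a ∧ (x.dst i).val = b ∧ bval (eL x.ctx i) = c := by
  rw [valG, List.mem_map] at h
  obtain ⟨e, he, h⟩ := h
  obtain ⟨i, hi, rfl⟩ := List.getElem_of_mem he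
  have hi' : i < x.edges.length := by rw [← x.ctx_len]; exact hi
  have e1 := x.eS_ctx ⟨i, hi'⟩
  have e2 := x.eT_ctx ⟨i, hi'⟩
  simp only [Prod.mk.injEq] at h
  refine ⟨⟨i, hi'⟩, ?_, ?_, ?_⟩
  · rw [← e1, ← h.1]
    simp only [eS, List.getD_eq_getElem _ _ hi]
  · rw [← e2, ← h.2.1]
    simp only [eT, List.getD_eq_getElem _ _ hi]
  · rw [← h.2.2]
    simp only [eL, List.getD_eq_getElem _ _ hi]

theorem Inst.walk_of_nwalk {a b N : ℕ} (h : NWalk (valG x.ctx) a b N) (ha : a < x.n) :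
    ∃ hb : b < x.n, Walk x.undirected ⟨a, ha⟩ ⟨b, hb⟩ ((N : ℝ≥0∞) / x.den) := by
  induction h with
  | nil v => exact ⟨ha, by simpa using Walk.nil _⟩
  | @fwd u v w c L he _ ih =>
    obtain ⟨i, rfl, rfl, rfl⟩ := x.exists_of_mem_valG he
    obtain ⟨hb, hw⟩ := ih (x.dst i).2
    refine ⟨hb, ?_⟩
    rw [div_add_div, ← x.len_eq]
    exact Walk.cons ⟨i, rfl, Or.inl ⟨rfl, rfl⟩⟩ hw
  | @bwd u v w c L he _ ih =>
    obtain ⟨i, rfl, rfl, rfl⟩ := x.exists_of_mem_valG he
    obtain ⟨hb, hw⟩ := ih (x.src i).2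
    refine ⟨hb, ?_⟩
    rw [div_add_div, ← x.len_eq]
    exact Walk.cons ⟨i, rfl, Or.inr ⟨rfl, rfl⟩⟩ hw

/-- a directed walk which is as short as possible is tight -/
theorem Inst.tight_of_walk (o : Fin x.edges.length → Bool) (o' : ℕ → Bool)
    (ho : ∀ i : Fin x.edges.length, o' i = o i) (l : Fin k) {u v : Fin x.n} {L : ℝ≥0∞}
    (h : Walk (x.directed o) u v L) :
    ∃ N : ℕ, L = (N : ℝ≥0∞) / x.den ∧ NWalk (valG x.ctx) u v N ∧
      (x.net.D l u + N ≤ x.net.D l v → ReflTransGen (x.net.TStep o' l) (u : ℕ) (v : ℕ)) := by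
  induction h with
  | nil v => exact ⟨0, by simp, NWalk.nil _, fun _ => ReflTransGen.refl⟩
  | @cons u v w c L hs _ ih =>
    obtain ⟨N, rfl, hN, himp⟩ := ih
    obtain ⟨i, rfl, hi⟩ := hs
    refine ⟨bval (eL x.ctx i) + N, ?_, ?_, ?_⟩
    · rw [div_add_div, x.len_eq]
    · rcases hi with ⟨_, rfl, rfl⟩ | ⟨_, rfl, rfl⟩
      · exact NWalk.fwd (x.mem_valG' i) hN
      · exact NWalk.bwd (x.mem_valG' i) hN
    · intro hle
      have hlip : x.net.D l w ≤ x.net.D l v + N := x.good.lip l.2 v.2 w.2 hN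
      have hlip2 : x.net.D l v ≤ x.net.D l u + bval (eL x.ctx i) := by
        refine x.good.lip l.2 u.2 v.2 ?_
        rcases hi with ⟨_, rfl, rfl⟩ | ⟨_, rfl, rfl⟩
        · exact NWalk.fwd (x.mem_valG' i) (NWalk.nil _)
        · exact NWalk.bwd (x.mem_valG' i) (NWalk.nil _)
      refine ReflTransGen.head ⟨(i : ℕ), ?_, ?_, ?_⟩ (himp (by omega))
      · show (i : ℕ) < x.ctx.2.1.length
        rw [x.ctx_len]; exact i.2
      · show (o' i = true ∧ eS x.ctx i = u ∧ eT x.ctx i = v) ∨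
          (o' i = false ∧ eS x.ctx i = v ∧ eT x.ctx i = u)
        rw [ho, x.eS_ctx, x.eT_ctx]
        rcases hi with ⟨h1, rfl, rfl⟩ | ⟨h1, rfl, rfl⟩
        · exact Or.inl ⟨h1, rfl, rfl⟩
        · exact Or.inr ⟨h1, rfl, rfl⟩
      · show x.net.D l v = x.net.D l u + bval (eL x.ctx i)
        omega

theorem Inst.walk_of_tight (o : ℕ → Bool) (l : Fin k) {a b : ℕ}
    (h : ReflTransGen (x.net.TStep o l) a b) (ha : a < x.n) :
    ∃ (hb : b < x.n) (N : ℕ), Walk (x.directed fun i => o i) ⟨a, ha⟩ ⟨b, hb⟩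
      ((N : ℝ≥0∞) / x.den) ∧ x.net.D l b = x.net.D l a + N := by
  induction h using ReflTransGen.head_induction_on with
  | refl => exact ⟨ha, 0, by simpa using Walk.nil _, rfl⟩
  | @head a c hs _ ih =>
    obtain ⟨e, he, hac, hD⟩ := hs
    have he' : e < x.edges.length := by rw [← x.ctx_len]; exact he
    have e1 : x.net.src e = (x.src ⟨e, he'⟩).val := x.eS_ctx ⟨e, he'⟩
    have e2 : x.net.dst e = (x.dst ⟨e, he'⟩).val := x.eT_ctx ⟨e, he'⟩
    have hc : c < x.n := by
      rcases hac with ⟨_, _, rfl⟩ | ⟨_, rfl, _⟩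
      · rw [e2]; exact (x.dst ⟨e, he'⟩).2
      · rw [e1]; exact (x.src ⟨e, he'⟩).2
    obtain ⟨hb, N, hw, hDN⟩ := ih hc
    refine ⟨hb, bval (eL x.ctx e) + N, ?_, ?_⟩
    · rw [div_add_div]
      have e3 := x.len_eq ⟨e, he'⟩
      rw [show bval (eL x.ctx e) = bval (eL x.ctx (⟨e, he'⟩ : Fin x.edges.length)) from rfl, ← e3]
      refine Walk.cons ⟨⟨e, he'⟩, rfl, ?_⟩ hw
      rcases hac with ⟨h1, h2, h3⟩ | ⟨h1, h2, h3⟩
      · refine Or.inl ⟨h1, ?_, ?_⟩
        · apply Fin.ext; rw [← e1, h2]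
        · apply Fin.ext; rw [← e2, h3]
      · refine Or.inr ⟨h1, ?_, ?_⟩
        · apply Fin.ext; rw [← e1, h2]
        · apply Fin.ext; rw [← e2, h3]
    · have h4 : x.net.D l c = x.net.D l a + bval (eL x.ctx e) := hD
      omega

theorem Inst.undirected_of_directed {o : Fin x.edges.length → Bool} {u v : Fin x.n} {L : ℝ≥0∞}
    (h : Walk (x.directed o) u v L) : Walk x.undirected u v L := by
  induction h with
  | nil v => exact Walk.nil v
  | cons hs _ ih =>
    refine Walk.cons ?_ ih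
    obtain ⟨i, h1, h2⟩ := hs
    refine ⟨i, h1, ?_⟩
    rcases h2 with ⟨_, h2⟩ | ⟨_, h2⟩
    · exact Or.inl h2
    · exact Or.inr h2

theorem Inst.dist_le (o : Fin x.edges.length → Bool) (u v : Fin x.n) :
    walkDist x.undirected u v ≤ walkDist (x.directed o) u v := by
  apply sInf_le_sInf
  intro L hL
  exact x.undirected_of_directed hL

theorem Inst.dist_some {l : Fin k} {v : Fin x.n} {b : List Bool} (h : dO x.ctx l v = some b) :
    walkDist x.undirected (x.pairs l).1 v = (bval b : ℝ≥0∞) / x.den := by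
  obtain ⟨h1, h2⟩ := x.good.dO_some l.2 v.2 h
  rw [x.pS_ctx] at h1 h2
  apply le_antisymm
  · apply sInf_le
    obtain ⟨_, hw⟩ := x.walk_of_nwalk h1 (x.pairs l).1.2
    exact hw
  · apply le_sInf
    intro L hL
    obtain ⟨N, rfl, hN⟩ := x.nwalk_of_walk hL
    exact ENNReal.div_le_div_right (by exact_mod_cast h2 N hN) _

theorem Inst.dist_none {l : Fin k} {v : Fin x.n} (h : dO x.ctx l v = none) :
    walkDist x.undirected (x.pairs l).1 v = ⊤ := by
  rw [walkDist, sInf_eq_top]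
  intro L hL
  obtain ⟨N, rfl, hN⟩ := x.nwalk_of_walk hL
  have := x.good.dO_none l.2 v.2 h N
  rw [x.pS_ctx] at this
  exact absurd hN this

theorem Inst.D_source (l : Fin k) : x.net.D l (x.pairs l).1 = 0 := by
  have h0 : NWalk (valG x.ctx) (pS x.ctx l) (x.pairs l).1 0 := by
    rw [x.pS_ctx]; exact NWalk.nil _
  show bval (dB x.ctx l (x.pairs l).1) = 0
  rw [dB]
  cases h : dO x.ctx l (x.pairs l).1 with
  | none => exact absurd h0 (x.good.dO_none l.2 (x.pairs l).1.2 h 0)
  | some b =>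
    have := (x.good.dO_some l.2 (x.pairs l).1.2 h).2 0 h0
    simpa using this

/-- **Reduction to tight paths.** -/
theorem Inst.orientation_iff : x.HasDistancePreservingOrientation ↔
    ∃ o : ℕ → Bool, ∀ l, ReflTransGen (x.net.TStep o l) (x.net.s l) (x.net.t l) := by
  have hs : ∀ l : Fin k, x.net.s l = (x.pairs l).1 := fun l => x.pS_ctx l
  have ht1 : ∀ l : Fin k, ∀ b, dO x.ctx l (x.pairs l).2 = some b → x.net.t l = (x.pairs l).2 := by
    intro l b hb
    show pT x.ctx l = _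
    rw [pT, x.pT0_ctx, hb]
    rfl
  have ht2 : ∀ l : Fin k, dO x.ctx l (x.pairs l).2 = none → x.net.t l = (x.pairs l).1 := by
    intro l hb
    show pT x.ctx l = _
    rw [pT, x.pT0_ctx, hb, x.pS_ctx]
    rfl
  constructor
  · rintro ⟨o, ho⟩
    refine ⟨fun e => if he : e < x.edges.length then o ⟨e, he⟩ else true, fun l => ?_⟩
    cases hb : dO x.ctx l (x.pairs l).2 with
    | none => rw [ht2 l hb, hs]
    | some b =>
      rw [ht1 l b hb, hs]
      have h1 := ho l
      rw [x.dist_some hb] at h1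
      have hden : (x.den : ℝ≥0∞) ≠ 0 := by exact_mod_cast x.den_pos'.ne'
      have hD : x.net.D l (x.pairs l).2 = bval b := by
        show bval (dB x.ctx l (x.pairs l).2) = _
        rw [dB, hb]; rfl
      -- some directed walk is shorter than `(bval b + 1) / den`
      have h2 : walkDist (x.directed o) (x.pairs l).1 (x.pairs l).2 <
          ((bval b + 1 : ℕ) : ℝ≥0∞) / x.den := by
        rw [h1]
        apply ENNReal.div_lt_div_right hden (ENNReal.natCast_ne_top _)
        exact_mod_cast Nat.lt_succ_self _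
      obtain ⟨L, hL, hlt⟩ := sInf_lt_iff.mp h2
      obtain ⟨N, rfl, hN, himp⟩ := x.tight_of_walk o
        (fun e => if he : e < x.edges.length then o ⟨e, he⟩ else true)
        (fun i => by simp) l hL
      apply himp
      have h3 : N < bval b + 1 := by
        by_contra hcon
        push Not at hcon
        have : ((bval b + 1 : ℕ) : ℝ≥0∞) / x.den ≤ (N : ℝ≥0∞) / x.den :=
          ENNReal.div_le_div_right (by exact_mod_cast hcon) _
        exact absurd hlt (not_lt.mpr this)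
      rw [x.D_source, hD]
      omega
  · rintro ⟨o, ho⟩
    refine ⟨fun i => o i, fun l => ?_⟩
    apply le_antisymm _ (x.dist_le _ _ _)
    cases hb : dO x.ctx l (x.pairs l).2 with
    | none => rw [x.dist_none hb]; exact le_top
    | some b =>
      have h1 := ho l
      rw [ht1 l b hb, hs] at h1
      obtain ⟨_, N, hw, hD⟩ := x.walk_of_tight o l h1 (x.pairs l).1.2
      have hDb : x.net.D l (x.pairs l).2 = bval b := by
        show bval (dB x.ctx l (x.pairs l).2) = _
        rw [dB, hb]; rfl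
      rw [x.D_source, hDb] at hD
      rw [x.dist_some hb]
      apply sInf_le
      have : N = bval b := by omega
      rw [← this]
      exact hw

end Pool.Agent.DPO
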