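import Mathlib

/-!
# Distance-preserving orientations for a fixed number of pairs: problem definition
-/

open scoped ENNReal

namespace Pool.Agent.DPO

/-- An input: a finite undirected graph on the vertices `0, …, n - 1` (parallel edges and loops are
allowed), given by the list of its edges `(u, v, a, b)` (an edge joining `u` and `v` of length
`a / b`, `b > 0`), and `k` pairs of vertices. -/
structure Inst (k : ℕ) where
  n : ℕ
  edges : List (Fin n × Fin n × ℕ × ℕ)
  den_pos : ∀ e ∈ edges, 0 < e.2.2.2
  pairs : Fin k → Fin n × Fin n

variable {k : ℕ}

/-- Number of edges. -/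
def Inst.m (x : Inst k) : ℕ := x.edges.length

/-- First end of an edge. -/
def Inst.src (x : Inst k) (i : Fin x.edges.length) : Fin x.n := (x.edges.get i).1

/-- Second end of an edge. -/
def Inst.dst (x : Inst k) (i : Fin x.edges.length) : Fin x.n := (x.edges.get i).2.1

/-- Length of an edge, a nonnegative rational number. -/
noncomputable def Inst.len (x : Inst k) (i : Fin x.edges.length) : ℝ≥0∞ :=
  ((x.edges.get i).2.2.1 : ℝ≥0∞) / ((x.edges.get i).2.2.2 : ℝ≥0∞)

/-- Walks for a relation `R u v c` (there is an arc from `u` to `v` of length `c`), with their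
total length. -/
inductive Walk {V : Type} (R : V → V → ℝ≥0∞ → Prop) : V → V → ℝ≥0∞ → Prop
  | nil (v : V) : Walk R v v 0
  | cons {u v w : V} {c L : ℝ≥0∞} : R u v c → Walk R v w L → Walk R u w (c + L)

/-- The distance: infimum of the lengths of all walks (`∞` if there is none). -/
noncomputable def walkDist {V : Type} (R : V → V → ℝ≥0∞ → Prop) (s t : V) : ℝ≥0∞ :=
  sInf {L | Walk R s t L}

/-- Steps in the undirected graph. -/
def Inst.undirected (x : Inst k) (u v : Fin x.n) (c : ℝ≥0∞) : Prop :=
  ∃ i, x.len i = c ∧ ((x.src i = u ∧ x.dst i = v) ∨ (x.src i = v ∧ x.dst i = u))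

/-- Steps in the directed graph given by the orientation `o`: the edge `i` is the arc from `src i`
to `dst i` if `o i = true` and the arc from `dst i` to `src i` if `o i = false`. -/
def Inst.directed (x : Inst k) (o : Fin x.edges.length → Bool) (u v : Fin x.n) (c : ℝ≥0∞) : Prop :=
  ∃ i, x.len i = c ∧ ((o i = true ∧ x.src i = u ∧ x.dst i = v) ∨
    (o i = false ∧ x.src i = v ∧ x.dst i = u))

/-- Some orientation preserves the distance of all `k` pairs. -/
def Inst.HasDistancePreservingOrientation (x : Inst k) : Prop :=
  ∃ o : Fin x.edges.length → Bool, ∀ i : Fin k,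
    walkDist (x.directed o) (x.pairs i).1 (x.pairs i).2 =
      walkDist x.undirected (x.pairs i).1 (x.pairs i).2

/-- Unary code of a number: `a` ones and a zero. -/
def unary (a : ℕ) : List Bool := List.replicate a true ++ [false]

/-- Self-delimiting binary code of a number: every binary digit (least significant first) is
preceded by a one; a zero ends the code. -/
def binary (a : ℕ) : List Bool := a.bits.flatMap (fun b => [true, b]) ++ [false]

/-- The input word: `n` and the number of edges in unary, the edges (ends in unary, numerator and
denominator in binary), and the `k` pairs (in unary). -/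
def Inst.encode (x : Inst k) : List Bool :=
  unary x.n ++ unary x.edges.length ++
    x.edges.flatMap (fun e => unary e.1 ++ unary e.2.1 ++ binary e.2.2.1 ++ binary e.2.2.2) ++
    (List.ofFn x.pairs).flatMap (fun p => unary p.1 ++ unary p.2)

end Pool.Agent.DPO
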