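import Pool.Agent.DPO.Bin

/-!
# Bellman–Ford distances in polynomial time
-/

namespace Pool.Agent.DPO
open Pool.Agent.PT

/-- undirected walks in a list of edges `(u, v, c)` with natural lengths, with total length -/
inductive NWalk (G : List (ℕ × ℕ × ℕ)) : ℕ → ℕ → ℕ → Prop
  | nil (v : ℕ) : NWalk G v v 0
  | fwd {u v w c L : ℕ} : (u, v, c) ∈ G → NWalk G v w L → NWalk G u w (c + L)
  | bwd {u v w c L : ℕ} : (v, u, c) ∈ G → NWalk G v w L → NWalk G u w (c + L)

/-! ### Minimum of a list -/

/-- minimum of a partial value and a value -/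
def omin (o : Option (List Bool)) (b : List Bool) : Option (List Bool) :=
  Option.casesOn (motive := fun _ => Option (List Bool)) o (some b)
    fun a => bif ble a b then some a else some b

/-- an element of minimal value -/
def lmin (l : List (List Bool)) : Option (List Bool) := l.foldl omin none

theorem omin_eq_some {o : Option (List Bool)} {b c : List Bool} (h : omin o b = some c) :
    o = some c ∨ c = b := by
  cases o with
  | none => right; simpa [omin] using h.symm
  | some a =>
    cases hab : ble a b
    · right; simpa [omin, hab] using h.symm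
    · left; simpa [omin, hab] using h

theorem omin_le (o : Option (List Bool)) (b : List Bool) :
    ∃ c, omin o b = some c ∧ bval c ≤ bval b ∧ ∀ a, o = some a → bval c ≤ bval a := by
  cases o with
  | none => exact ⟨b, rfl, le_rfl, by simp⟩
  | some a =>
    cases hab : ble a b
    · refine ⟨b, by simp [omin, hab], le_rfl, ?_⟩
      intro a' ha'
      obtain rfl : a = a' := by simpa using ha'
      by_contra hlt
      have := (ble_iff a b).2 (by omega)
      rw [this] at hab
      exact Bool.noConfusion hab
    · refine ⟨a, by simp [omin, hab], (ble_iff a b).1 hab, ?_⟩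
      intro a' ha'
      obtain rfl : a = a' := by simpa using ha'
      exact le_rfl

theorem foldl_omin_mem (l : List (List Bool)) : ∀ (o : Option (List Bool)) (c : List Bool),
    l.foldl omin o = some c → o = some c ∨ c ∈ l := by
  induction l with
  | nil => intro o c h; left; simpa using h
  | cons b l ih =>
    intro o c h
    rw [List.foldl_cons] at h
    rcases ih _ _ h with h | h
    · rcases omin_eq_some h with h | h
      · left; exact h
      · right; simp [h]
    · right; simp [h]

theorem foldl_omin_le (l : List (List Bool)) : ∀ (o : Option (List Bool)) (b : List Bool),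
    (o = some b ∨ b ∈ l) → ∃ c, l.foldl omin o = some c ∧ bval c ≤ bval b := by
  induction l with
  | nil =>
    intro o b h
    rcases h with h | h
    · exact ⟨b, by simpa using h, le_rfl⟩
    · simp at h
  | cons a l ih =>
    intro o b h
    rw [List.foldl_cons]
    obtain ⟨c, h1, h2, h3⟩ := omin_le o a
    rcases h with h | h
    · obtain ⟨d, h4, h5⟩ := ih (omin o a) c (Or.inl h1)
      exact ⟨d, h4, h5.trans (h3 b h)⟩
    · rcases List.mem_cons.1 h with rfl | h
      · obtain ⟨d, h4, h5⟩ := ih (omin o b) c (Or.inl h1)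
        exact ⟨d, h4, h5.trans h2⟩
      · exact ih _ b (Or.inr h)

theorem mem_of_lmin {l : List (List Bool)} {c : List Bool} (h : lmin l = some c) : c ∈ l := by
  rcases foldl_omin_mem l none c h with h | h
  · simp at h
  · exact h

theorem lmin_le {l : List (List Bool)} {b : List Bool} (h : b ∈ l) :
    ∃ c, lmin l = some c ∧ bval c ≤ bval b := foldl_omin_le l none b (Or.inr h)

/-! ### The algorithm -/

/-- candidates contributed by an edge for the vertex `v` -/
def candE (D : List (Option (List Bool))) (v : ℕ) (e : ℕ × ℕ × List Bool) : List (List Bool) :=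
  (bif decide (e.2.1 = v) then Option.casesOn (motive := fun _ => List (List Bool))
      (D.getD e.1 none) [] (fun b => [badd e.2.2 b]) else []) ++
  (bif decide (e.1 = v) then Option.casesOn (motive := fun _ => List (List Bool))
      (D.getD e.2.1 none) [] (fun b => [badd e.2.2 b]) else [])

/-- candidates for the new value of `v` -/
def cands (D : List (Option (List Bool))) (G : List (ℕ × ℕ × List Bool)) (v : ℕ) :
    List (List Bool) :=
  Option.casesOn (motive := fun _ => List (List Bool)) (D.getD v none) [] (fun b => [b]) ++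
    G.flatMap (candE D v)

/-- one round -/
def bfStep (n : ℕ) (G : List (ℕ × ℕ × List Bool)) (D : List (Option (List Bool))) :
    List (Option (List Bool)) :=
  (List.range n).map fun v => lmin (cands D G v)

/-- initial values -/
def bfInit (n s : ℕ) : List (Option (List Bool)) :=
  (List.range n).map fun v => bif decide (v = s) then some [] else none

/-- the table after `i` rounds -/
def bfL (n : ℕ) (G : List (ℕ × ℕ × List Bool)) (s i : ℕ) : List (Option (List Bool)) :=
  (bfStep n G)^[i] (bfInit n s)

/-- Bellman–Ford distances from `s`. `n` = number of vertices. -/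
def bf (n : ℕ) (G : List (ℕ × ℕ × List Bool)) (s v : ℕ) : Option (List Bool) :=
  (bfL n G s n).getD v none

theorem mem_candE {D : List (Option (List Bool))} {v : ℕ} {e : ℕ × ℕ × List Bool}
    {b : List Bool} : b ∈ candE D v e ↔
      (e.2.1 = v ∧ ∃ b', D.getD e.1 none = some b' ∧ b = badd e.2.2 b') ∨
      (e.1 = v ∧ ∃ b', D.getD e.2.1 none = some b' ∧ b = badd e.2.2 b') := by
  unfold candE
  rw [List.mem_append]
  refine or_congr ?_ ?_
  · by_cases h : e.2.1 = v
    · rw [decide_eq_true h, cond_true]
      cases hD : D.getD e.1 none with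
      | none => simp
      | some b' => simp [h]
    · simp [h]
  · by_cases h : e.1 = v
    · rw [decide_eq_true h, cond_true]
      cases hD : D.getD e.2.1 none with
      | none => simp
      | some b' => simp [h]
    · simp [h]

theorem mem_cands {D : List (Option (List Bool))} {G : List (ℕ × ℕ × List Bool)} {v : ℕ}
    {b : List Bool} : b ∈ cands D G v ↔ D.getD v none = some b ∨
      ∃ e ∈ G, (e.2.1 = v ∧ ∃ b', D.getD e.1 none = some b' ∧ b = badd e.2.2 b') ∨
        (e.1 = v ∧ ∃ b', D.getD e.2.1 none = some b' ∧ b = badd e.2.2 b') := by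
  unfold cands
  rw [List.mem_append, List.mem_flatMap]
  refine or_congr ?_ ?_
  · cases hD : D.getD v none with
    | none => simp
    | some b' => simp [eq_comm]
  · refine exists_congr fun e => and_congr Iff.rfl mem_candE

theorem getD_map_range {β : Type*} (n : ℕ) (f : ℕ → Option β) (v : ℕ) :
    ((List.range n).map f).getD v none = if v < n then f v else none := by
  rw [List.getD_eq_getElem?_getD, List.getElem?_map]
  by_cases h : v < n
  · rw [List.getElem?_range h, if_pos h]; rfl
  · rw [List.getElem?_eq_none (by simpa using h), if_neg h]; rfl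

theorem bfStep_getD (n : ℕ) (G : List (ℕ × ℕ × List Bool)) (D : List (Option (List Bool)))
    (v : ℕ) : (bfStep n G D).getD v none = if v < n then lmin (cands D G v) else none :=
  getD_map_range n _ v

theorem bfInit_getD (n s v : ℕ) :
    (bfInit n s).getD v none = if v < n then (bif decide (v = s) then some [] else none)
      else none := getD_map_range n _ v

theorem bfL_succ (n : ℕ) (G : List (ℕ × ℕ × List Bool)) (s i : ℕ) :
    bfL n G s (i + 1) = bfStep n G (bfL n G s i) := by
  unfold bfL
  rw [Function.iterate_succ_apply']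

/-! ### Walks -/

/-- the list of edges with natural lengths -/
abbrev nG (G : List (ℕ × ℕ × List Bool)) : List (ℕ × ℕ × ℕ) :=
  G.map fun e => (e.1, e.2.1, bval e.2.2)

theorem NWalk.cast {G : List (ℕ × ℕ × ℕ)} {u v L L' : ℕ} (h : NWalk G u v L) (e : L = L') :
    NWalk G u v L' := e ▸ h

theorem NWalk.trans {G : List (ℕ × ℕ × ℕ)} {u v w L M : ℕ} (h : NWalk G u v L)
    (h' : NWalk G v w M) : NWalk G u w (L + M) := by
  induction h with
  | nil v => exact h'.cast (by omega)
  | fwd he _ ih => exact (NWalk.fwd he (ih h')).cast (by omega)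
  | bwd he _ ih => exact (NWalk.bwd he (ih h')).cast (by omega)

theorem NWalk.symm {G : List (ℕ × ℕ × ℕ)} {u v L : ℕ} (h : NWalk G u v L) : NWalk G v u L := by
  induction h with
  | nil v => exact NWalk.nil v
  | fwd he _ ih => exact (ih.trans (NWalk.bwd he (NWalk.nil _))).cast (by omega)
  | bwd he _ ih => exact (ih.trans (NWalk.fwd he (NWalk.nil _))).cast (by omega)

/-- walks with the list of their vertices -/
inductive VWalk (G : List (ℕ × ℕ × ℕ)) : ℕ → ℕ → ℕ → List ℕ → Prop
  | nil (v : ℕ) : VWalk G v v 0 [v]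
  | cons {u v w c L : ℕ} {l : List ℕ} : ((u, v, c) ∈ G ∨ (v, u, c) ∈ G) → VWalk G v w L l →
      VWalk G u w (c + L) (u :: l)

theorem VWalk.suffix {G : List (ℕ × ℕ × ℕ)} {v w L : ℕ} {l : List ℕ} (h : VWalk G v w L l)
    {x : ℕ} (hx : x ∈ l) : ∃ L' l', VWalk G x w L' l' ∧ L' ≤ L ∧ l'.Sublist l := by
  induction h with
  | nil v =>
    obtain rfl : x = v := by simpa using hx
    exact ⟨0, [x], VWalk.nil x, le_rfl, List.Sublist.refl _⟩
  | @cons u v w c L l he hw ih =>
    rcases List.mem_cons.1 hx with rfl | hx
    · exact ⟨_, _, VWalk.cons he hw, le_rfl, List.Sublist.refl _⟩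
    · obtain ⟨L', l', h1, h2, h3⟩ := ih hx
      exact ⟨L', l', h1, by omega, h3.cons _⟩

theorem NWalk.simple {G : List (ℕ × ℕ × ℕ)} {u w L : ℕ} (h : NWalk G u w L) :
    ∃ L' l, VWalk G u w L' l ∧ L' ≤ L ∧ l.Nodup := by
  have key : ∀ {u v w c L L' : ℕ} {l : List ℕ}, ((u, v, c) ∈ G ∨ (v, u, c) ∈ G) →
      VWalk G v w L' l → L' ≤ L → l.Nodup →
      ∃ L'' l', VWalk G u w L'' l' ∧ L'' ≤ c + L ∧ l'.Nodup := by
    intro u v w c L L' l he hw hL hn
    by_cases hu : u ∈ l
    · obtain ⟨L'', l', h1, h2, h3⟩ := hw.suffix hu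
      exact ⟨L'', l', h1, by omega, h3.nodup hn⟩
    · exact ⟨_, _, VWalk.cons he hw, by omega, List.nodup_cons.2 ⟨hu, hn⟩⟩
  induction h with
  | nil v => exact ⟨0, [v], VWalk.nil v, le_rfl, by simp⟩
  | fwd he _ ih =>
    obtain ⟨L', l, h1, h2, h3⟩ := ih
    exact key (Or.inl he) h1 h2 h3
  | bwd he _ ih =>
    obtain ⟨L', l, h1, h2, h3⟩ := ih
    exact key (Or.inr he) h1 h2 h3

theorem VWalk.lt {G : List (ℕ × ℕ × ℕ)} {n : ℕ} (hG : ∀ e ∈ G, e.1 < n ∧ e.2.1 < n)
    {v w L : ℕ} {l : List ℕ} (h : VWalk G v w L l) (hw : w < n) : ∀ x ∈ l, x < n := by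
  induction h with
  | nil v => intro x hx; obtain rfl : x = v := by simpa using hx
             exact hw
  | @cons u v w c L l he _ ih =>
    intro x hx
    rcases List.mem_cons.1 hx with rfl | hx
    · rcases he with he | he
      · exact (hG _ he).1
      · exact (hG _ he).2
    · exact ih hw x hx

theorem VWalk.length_le {G : List (ℕ × ℕ × ℕ)} {n : ℕ} (hG : ∀ e ∈ G, e.1 < n ∧ e.2.1 < n)
    {v w L : ℕ} {l : List ℕ} (h : VWalk G v w L l) (hw : w < n) (hl : l.Nodup) :
    l.length ≤ n := by
  have h1 : l ⊆ List.range n := fun x hx => List.mem_range.2 (h.lt hG hw x hx)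
  have h2 := (hl.subperm h1).length_le
  simpa using h2

/-! ### Correctness -/

theorem bfL_sound {n : ℕ} {G : List (ℕ × ℕ × List Bool)} {s : ℕ} (i : ℕ) :
    ∀ {v : ℕ} {b : List Bool}, (bfL n G s i).getD v none = some b →
      NWalk (nG G) v s (bval b) := by
  induction i with
  | zero =>
    intro v b h
    change (bfInit n s).getD v none = some b at h
    rw [bfInit_getD] at h
    by_cases hv : v < n
    · rw [if_pos hv] at h
      by_cases hs : v = s
      · rw [decide_eq_true hs, cond_true] at h
        obtain rfl : [] = b := by simpa using h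
        subst hs
        exact (NWalk.nil v).cast (by simp [bval])
      · simp [hs] at h
    · simp [hv] at h
  | succ i ih =>
    intro v b h
    rw [bfL_succ, bfStep_getD] at h
    by_cases hv : v < n
    · rw [if_pos hv] at h
      rcases mem_cands.1 (mem_of_lmin h) with h | ⟨e, he, ⟨rfl, b', h1, rfl⟩ | ⟨rfl, b', h1, rfl⟩⟩
      · exact ih h
      · rw [bval_badd]
        exact NWalk.bwd (List.mem_map.2 ⟨e, he, rfl⟩) (ih h1)
      · rw [bval_badd]
        exact NWalk.fwd (List.mem_map.2 ⟨e, he, rfl⟩) (ih h1)
    · simp [hv] at h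

theorem bfL_complete {n : ℕ} {G : List (ℕ × ℕ × List Bool)} {s : ℕ}
    (hG : ∀ e ∈ G, e.1 < n ∧ e.2.1 < n) (hs : s < n) (i : ℕ) :
    ∀ {v L : ℕ} {l : List ℕ}, VWalk (nG G) v s L l → l.length ≤ i + 1 →
      ∃ b, (bfL n G s i).getD v none = some b ∧ bval b ≤ L := by
  have hG' : ∀ e ∈ nG G, e.1 < n ∧ e.2.1 < n := by
    intro e he
    obtain ⟨e', he', rfl⟩ := List.mem_map.1 he
    exact hG e' he'
  induction i with
  | zero =>
    intro v L l h hl
    cases h with
    | nil =>
      refine ⟨[], ?_, Nat.zero_le _⟩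
      change (bfInit n s).getD s none = _
      rw [bfInit_getD, if_pos hs]
      simp
    | cons he hw =>
      exfalso
      cases hw <;> simp at hl
  | succ i ih =>
    intro v L l h hl
    have hv : v < n := h.lt hG' hs v (by cases h <;> simp)
    rw [bfL_succ, bfStep_getD, if_pos hv]
    cases h with
    | nil =>
      obtain ⟨b, h1, h2⟩ := ih (VWalk.nil s) (by simp)
      obtain ⟨c, h3, h4⟩ := lmin_le (mem_cands.2 (Or.inl h1))
      exact ⟨c, h3, h4.trans h2⟩
    | @cons _ u _ c L l he hw =>
      rw [List.length_cons] at hl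
      obtain ⟨b, h1, h2⟩ := ih hw (by omega)
      rcases he with he | he
      · obtain ⟨e, he', hee⟩ := List.mem_map.1 he
        simp only [Prod.mk.injEq] at hee
        obtain ⟨rfl, rfl, rfl⟩ := hee
        obtain ⟨c, h3, h4⟩ := lmin_le (mem_cands.2 (Or.inr ⟨e, he', Or.inr ⟨rfl, b, h1, rfl⟩⟩))
        refine ⟨c, h3, h4.trans ?_⟩
        rw [bval_badd]; omega
      · obtain ⟨e, he', hee⟩ := List.mem_map.1 he
        simp only [Prod.mk.injEq] at hee
        obtain ⟨rfl, rfl, rfl⟩ := hee
        obtain ⟨c, h3, h4⟩ := lmin_le (mem_cands.2 (Or.inr ⟨e, he', Or.inl ⟨rfl, b, h1, rfl⟩⟩))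
        refine ⟨c, h3, h4.trans ?_⟩
        rw [bval_badd]; omega

theorem bf_le {n : ℕ} {G : List (ℕ × ℕ × List Bool)} {s v : ℕ}
    (hG : ∀ e ∈ G, e.1 < n ∧ e.2.1 < n) (hs : s < n) {L : ℕ}
    (h : NWalk (G.map fun e => (e.1, e.2.1, bval e.2.2)) s v L) :
    ∃ b, bf n G s v = some b ∧ bval b ≤ L := by
  obtain ⟨L', l, h1, h2, h3⟩ := h.symm.simple
  have hG' : ∀ e ∈ nG G, e.1 < n ∧ e.2.1 < n := by
    intro e he
    obtain ⟨e', he', rfl⟩ := List.mem_map.1 he
    exact hG e' he'
  have h4 := h1.length_le hG' hs h3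
  obtain ⟨b, h5, h6⟩ := bfL_complete hG hs n h1 (by omega)
  exact ⟨b, h5, h6.trans h2⟩

theorem bf_none {n : ℕ} {G : List (ℕ × ℕ × List Bool)} {s v : ℕ}
    (hG : ∀ e ∈ G, e.1 < n ∧ e.2.1 < n) (hs : s < n) (_hv : v < n) (h : bf n G s v = none)
    (L : ℕ) : ¬ NWalk (G.map fun e => (e.1, e.2.1, bval e.2.2)) s v L := by
  intro hw
  obtain ⟨b, h1, _⟩ := bf_le hG hs hw
  rw [h] at h1
  simp at h1

theorem bf_some {n : ℕ} {G : List (ℕ × ℕ × List Bool)} {s v : ℕ} {b : List Bool}
    (hG : ∀ e ∈ G, e.1 < n ∧ e.2.1 < n) (hs : s < n) (_hv : v < n) (h : bf n G s v = some b) :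
    NWalk (G.map fun e => (e.1, e.2.1, bval e.2.2)) s v (bval b) ∧
    ∀ L, NWalk (G.map fun e => (e.1, e.2.1, bval e.2.2)) s v L → bval b ≤ L := by
  refine ⟨(bfL_sound n h).symm, fun L hL => ?_⟩
  obtain ⟨b', h1, h2⟩ := bf_le hG hs hL
  rw [h] at h1
  obtain rfl : b = b' := by simpa using h1
  exact h2

/-! ### Polynomial time -/

variable {α : Type*} [Enc α]

theorem omin_polyTime {f : α → Option (List Bool)} {g : α → List Bool} (hf : PolyTime f)
    (hg : PolyTime g) : PolyTime (fun x => omin (f x) (g x)) := by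
  unfold omin
  refine PolyTime.optionCases (g := fun x a => bif ble a (g x) then some a else some (g x))
    hf (by fun_prop) ?_
  exact PolyTime.cond (ble_polyTime (by fun_prop) (by fun_prop)) (by fun_prop) (by fun_prop)

theorem lmin_polyTime {f : α → List (List Bool)} (hf : PolyTime f) :
    PolyTime (fun x => lmin (f x)) := by
  have h1 := hf.pbdd
  unfold lmin
  refine PolyTime.foldl (g := fun _ => omin) (y := fun _ => none) hf
    (omin_polyTime (by fun_prop) (by fun_prop)) (by fun_prop) (s := fun x => sz (f x) + 3)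
    (by fun_prop) fun x i => ?_
  cases h : ((f x).take i).foldl omin none with
  | none => simp
  | some c =>
    rcases foldl_omin_mem _ _ _ h with h | h
    · simp at h
    · have := sz_le_of_mem (List.mem_of_mem_take h)
      rw [sz_some]
      omega

theorem cands_polyTime {D : α → List (Option (List Bool))} {G : α → List (ℕ × ℕ × List Bool)}
    {v : α → ℕ} (hD : PolyTime D) (hG : PolyTime G) (hv : PolyTime v) :
    PolyTime (fun x => cands (D x) (G x) (v x)) := by
  unfold cands
  refine PolyTime.append ?_ ?_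
  · exact PolyTime.optionCases (g := fun _ b => [b]) (by fun_prop) (by fun_prop) (by fun_prop)
  · refine PolyTime.flatMap (g := fun x e => candE (D x) (v x) e) hG ?_
    unfold candE
    refine PolyTime.append ?_ ?_
    · refine PolyTime.cond (by fun_prop) ?_ (by fun_prop)
      exact PolyTime.optionCases
        (g := fun (p : α × (ℕ × ℕ × List Bool)) b => [badd p.2.2.2 b]) (by fun_prop)
        (by fun_prop) (PolyTime.cons (badd_polyTime (by fun_prop) (by fun_prop)) (by fun_prop))
    · refine PolyTime.cond (by fun_prop) ?_ (by fun_prop)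
      exact PolyTime.optionCases
        (g := fun (p : α × (ℕ × ℕ × List Bool)) b => [badd p.2.2.2 b]) (by fun_prop)
        (by fun_prop) (PolyTime.cons (badd_polyTime (by fun_prop) (by fun_prop)) (by fun_prop))

theorem bfStep_polyTime {n : α → ℕ} {D : α → List (Option (List Bool))}
    {G : α → List (ℕ × ℕ × List Bool)} (hn : PolyTime n) (hG : PolyTime G) (hD : PolyTime D) :
    PolyTime (fun x => bfStep (n x) (G x) (D x)) := by
  unfold bfStep
  refine PolyTime.map (g := fun x v => lmin (cands (D x) (G x) v)) (by fun_prop) ?_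
  exact lmin_polyTime (cands_polyTime (by fun_prop) (by fun_prop) (by fun_prop))

theorem bfInit_polyTime {n s : α → ℕ} (hn : PolyTime n) (hs : PolyTime s) :
    PolyTime (fun x => bfInit (n x) (s x)) := by
  unfold bfInit
  refine PolyTime.map (g := fun x v => bif decide (v = s x) then some [] else none)
    (by fun_prop) ?_
  exact PolyTime.cond (by fun_prop) (by fun_prop) (by fun_prop)

theorem sz_bits_le (l : List Bool) : sz l ≤ 4 * l.length + 1 := by
  induction l with
  | nil => simp
  | cons x l ih =>
    have := sz_bool x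
    rw [sz_cons, List.length_cons]
    omega

theorem length_le_sz_edge {G : List (ℕ × ℕ × List Bool)} {e : ℕ × ℕ × List Bool} (he : e ∈ G) :
    e.2.2.length ≤ sz G := by
  have h1 := sz_le_of_mem he
  have h2 := length_le_sz e.2.2
  rw [sz_prod, sz_prod] at h1
  omega

theorem bfL_length_entry {n : ℕ} {G : List (ℕ × ℕ × List Bool)} {s : ℕ} (i : ℕ) :
    ∀ {v : ℕ} {b : List Bool}, (bfL n G s i).getD v none = some b → b.length ≤ sz G + i := by
  induction i with
  | zero =>
    intro v b h
    change (bfInit n s).getD v none = some b at h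
    rw [bfInit_getD] at h
    by_cases hv : v < n
    · rw [if_pos hv] at h
      by_cases hs : v = s
      · rw [decide_eq_true hs, cond_true] at h
        obtain rfl : [] = b := by simpa using h
        simp
      · simp [hs] at h
    · simp [hv] at h
  | succ i ih =>
    intro v b h
    rw [bfL_succ, bfStep_getD] at h
    by_cases hv : v < n
    · rw [if_pos hv] at h
      rcases mem_cands.1 (mem_of_lmin h) with h | ⟨e, he, ⟨rfl, b', h1, rfl⟩ | ⟨rfl, b', h1, rfl⟩⟩
      · have := ih h; omega
      · have h2 := length_badd e.2.2 b'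
        have h3 := ih h1
        have h4 := length_le_sz_edge he
        omega
      · have h2 := length_badd e.2.2 b'
        have h3 := ih h1
        have h4 := length_le_sz_edge he
        omega
    · simp [hv] at h

theorem bfL_length (n : ℕ) (G : List (ℕ × ℕ × List Bool)) (s i : ℕ) :
    (bfL n G s i).length = n := by
  cases i with
  | zero => simp [bfL, bfInit]
  | succ i => rw [bfL_succ]; simp [bfStep]

theorem bfL_sz (n : ℕ) (G : List (ℕ × ℕ × List Bool)) (s i : ℕ) :
    sz (bfL n G s i) ≤ n * (4 * (sz G + i) + 3 + 1) + 1 := by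
  have h : ∀ o ∈ bfL n G s i, sz o ≤ 4 * (sz G + i) + 3 := by
    intro o ho
    cases o with
    | none => rw [sz_none]; omega
    | some b =>
      obtain ⟨j, hj, hjb⟩ := List.mem_iff_getElem.1 ho
      have h1 : (bfL n G s i).getD j none = some b := by
        rw [List.getD_eq_getElem?_getD, List.getElem?_eq_getElem hj, hjb]; rfl
      have h2 := bfL_length_entry i h1
      have h3 := sz_bits_le b
      rw [sz_some]
      omega
  have := sz_le_of_forall h
  rwa [bfL_length] at this

theorem bf_polyTime {n s v : α → ℕ} {G : α → List (ℕ × ℕ × List Bool)}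
    (hn : PolyTime n) (hG : PolyTime G) (hs : PolyTime s) (hv : PolyTime v) :
    PolyTime (fun x => bf (n x) (G x) (s x) (v x)) := by
  have h1 := hn.pbdd
  have h2 := hG.pbdd
  have h : PolyTime (fun x => bfL (n x) (G x) (s x) (n x)) := by
    unfold bfL
    refine PolyTime.iterate' (f := fun x D => bfStep (n x) (G x) D) (n := n)
      (g := fun x => bfInit (n x) (s x))
      (bfStep_polyTime (by fun_prop) (by fun_prop) (by fun_prop)) hn (bfInit_polyTime hn hs)
      (s := fun x => sz (n x) * (4 * (sz (G x) + sz (n x)) + 3 + 1) + 1) (by fun_prop)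
      fun x i hi => ?_
    have h3 := bfL_sz (n x) (G x) (s x) i
    unfold bfL at h3
    refine h3.trans ?_
    have h4 : n x ≤ sz (n x) := by rw [sz_nat]; omega
    gcongr
    omega
  unfold bf
  fun_prop

end Pool.Agent.DPO
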