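import Pool.Agent.DPO.Graph

/-!
# Robbins type orientation lemma for multigraphs

`exists_orientation`: a finite multigraph with demands, no two of which need opposite
orientations of an edge, has an orientation serving all demands.
-/

namespace Pool.Agent.DPO

open Relation

variable {V E : Type*} (src dst : E → V)

namespace Orient

variable {src dst}

theorem ustep_symm {F : E → Prop} {x y : V} (h : UStep src dst F x y) :
    UStep src dst F y x := by
  obtain ⟨e, he, h⟩ := h
  exact ⟨e, he, h.symm⟩

theorem conn_symm {F : E → Prop} {x y : V} (h : Conn src dst F x y) :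
    Conn src dst F y x := by
  induction h with
  | refl => exact ReflTransGen.refl
  | tail _ hs ih => exact ReflTransGen.head (ustep_symm hs) ih

theorem conn_trans {F : E → Prop} {x y z : V} (h : Conn src dst F x y)
    (h' : Conn src dst F y z) : Conn src dst F x z :=
  ReflTransGen.trans h h'

theorem ustep_of_dstep {F : E → Prop} {o : E → Bool} {x y : V}
    (h : DStep src dst F o x y) : UStep src dst F x y := by
  obtain ⟨e, he, h⟩ := h
  rcases h with h | h
  · exact ⟨e, he, Or.inl h.2⟩
  · exact ⟨e, he, Or.inr h.2⟩

/-- Reachability along the orientation, inside `S`. -/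
abbrev Reach (src dst : E → V) (S : E → Prop) (o : E → Bool) (x y : V) : Prop :=
  ReflTransGen (DStep src dst S o) x y

theorem dstep_mono {S T : E → Prop} {o o' : E → Bool} (hST : ∀ e, S e → T e)
    (ho : ∀ e, S e → o' e = o e) {x y : V} (h : DStep src dst S o x y) :
    DStep src dst T o' x y := by
  obtain ⟨e, he, h⟩ := h
  exact ⟨e, hST e he, by rw [ho e he]; exact h⟩

theorem reach_mono {S T : E → Prop} {o o' : E → Bool} (hST : ∀ e, S e → T e)
    (ho : ∀ e, S e → o' e = o e) {x y : V} (h : Reach src dst S o x y) :
    Reach src dst T o' x y :=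
  ReflTransGen.mono (fun _ _ h => dstep_mono hST ho h) _ _ h

/-- The start of an edge under the orientation. -/
def tl (src dst : E → V) (o : E → Bool) (e : E) : V := if o e then src e else dst e

/-- The end of an edge under the orientation. -/
def hd (src dst : E → V) (o : E → Bool) (e : E) : V := if o e then dst e else src e

theorem dstep_iff {S : E → Prop} {o : E → Bool} {x y : V} :
    DStep src dst S o x y ↔ ∃ e, S e ∧ tl src dst o e = x ∧ hd src dst o e = y := by
  unfold DStep tl hd
  constructor
  · rintro ⟨e, he, h⟩
    refine ⟨e, he, ?_⟩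
    rcases h with ⟨h0, h1, h2⟩ | ⟨h0, h1, h2⟩
    · simp [h0, h1, h2]
    · simp [h0, h1, h2]
  · rintro ⟨e, he, h1, h2⟩
    refine ⟨e, he, ?_⟩
    cases h0 : o e
    · right
      simp [h0] at h1 h2
      exact ⟨rfl, h2, h1⟩
    · left
      simp [h0] at h1 h2
      exact ⟨rfl, h1, h2⟩

theorem reach_edge {S : E → Prop} {o : E → Bool} {e : E} (he : S e) :
    Reach src dst S o (tl src dst o e) (hd src dst o e) :=
  ReflTransGen.single (dstep_iff.2 ⟨e, he, rfl, rfl⟩)

/-- A covered set of edges: the ends of each edge reach each other. -/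
def Good (src dst : E → V) (S : E → Prop) (o : E → Bool) : Prop :=
  ∀ e, S e → Reach src dst S o (hd src dst o e) (tl src dst o e)

theorem good_both {S : E → Prop} {o : E → Bool} (hS : Good src dst S o) {x y : V}
    (h : UStep src dst S x y) : Reach src dst S o x y := by
  obtain ⟨e, he, h⟩ := h
  have h1 := hS e he
  have h2 : Reach src dst S o (tl src dst o e) (hd src dst o e) := reach_edge he
  unfold tl hd at h1 h2
  cases h0 : o e
  · simp only [h0, Bool.false_eq_true, if_false] at h1 h2
    rcases h with ⟨rfl, rfl⟩ | ⟨rfl, rfl⟩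
    · exact h1
    · exact h2
  · simp only [h0, if_true] at h1 h2
    rcases h with ⟨rfl, rfl⟩ | ⟨rfl, rfl⟩
    · exact h2
    · exact h1

/-- Orienting the new edges of a walk. -/
theorem exists_walk_orientation {S T : E → Prop} {o : E → Bool} (hS : Good src dst S o)
    (hdisj : ∀ e, T e → ¬ S e) {a b : V}
    (h : Conn src dst (fun e => S e ∨ T e) a b) :
    ∃ (T' : E → Prop) (o' : E → Bool), (∀ e, T' e → T e) ∧ (∀ e, ¬ T' e → o' e = o e) ∧
      Reach src dst (fun e => S e ∨ T' e) o' a b ∧
      ∀ e, T' e → Reach src dst (fun e => S e ∨ T' e) o' (hd src dst o' e) b := by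
  classical
  induction h using ReflTransGen.head_induction_on with
  | refl =>
    exact ⟨fun _ => False, o, fun e he => he.elim, fun _ _ => rfl, ReflTransGen.refl,
      fun e he => he.elim⟩
  | @head a c hs _ ih =>
    obtain ⟨T', o', hT, ho, hr, hh⟩ := ih
    have hSG : ∀ {x y : V}, UStep src dst S x y →
        Reach src dst (fun e => S e ∨ T' e) o' x y := by
      intro x y hxy
      refine reach_mono (fun e he => Or.inl he) (fun e he => ?_) (good_both hS hxy)
      exact ho e (fun h' => hdisj e (hT e h') he)
    obtain ⟨t, ht, hac⟩ := hs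
    by_cases htS : S t
    · exact ⟨T', o', hT, ho, (hSG ⟨t, htS, hac⟩).trans hr, hh⟩
    by_cases htT : T' t
    · -- the edge is already used
      refine ⟨T', o', hT, ho, ?_, hh⟩
      have h1 := hh t htT
      have h2 : Reach src dst (fun e => S e ∨ T' e) o' (tl src dst o' t) (hd src dst o' t) :=
        reach_edge (Or.inr htT)
      unfold tl hd at h2
      unfold hd at h1
      cases h0 : o' t
      · simp only [h0, Bool.false_eq_true, if_false] at h1 h2
        rcases hac with ⟨rfl, rfl⟩ | ⟨rfl, rfl⟩
        · exact h1
        · exact h2.trans h1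
      · simp only [h0, if_true] at h1 h2
        rcases hac with ⟨rfl, rfl⟩ | ⟨rfl, rfl⟩
        · exact h2.trans h1
        · exact h1
    · -- a new edge
      have htT0 : T t := ht.resolve_left htS
      -- the direction
      obtain ⟨β, hβ⟩ : ∃ β : Bool, (if β then src t else dst t) = a ∧
          (if β then dst t else src t) = c := by
        rcases hac with ⟨h1, h2⟩ | ⟨h1, h2⟩
        · exact ⟨true, by simp [h1, h2]⟩
        · exact ⟨false, by simp [h1, h2]⟩
      have hne : ∀ e, S e ∨ T' e → Function.update o' t β e = o' e := by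
        intro e he
        refine Function.update_of_ne ?_ _ _
        rintro rfl
        rcases he with he | he
        · exact htS he
        · exact htT he
      have hmono : ∀ {x y : V}, Reach src dst (fun e => S e ∨ T' e) o' x y →
          Reach src dst (fun e => S e ∨ (T' e ∨ e = t)) (Function.update o' t β) x y := by
        intro x y hxy
        exact reach_mono (fun e he => he.imp_right Or.inl) hne hxy
      have htl : tl src dst (Function.update o' t β) t = a := by
        unfold tl
        rw [Function.update_self]
        exact hβ.1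
      have hhd : hd src dst (Function.update o' t β) t = c := by
        unfold hd
        rw [Function.update_self]
        exact hβ.2
      have hst : Reach src dst (fun e => S e ∨ (T' e ∨ e = t)) (Function.update o' t β) a c := by
        rw [← htl, ← hhd]
        exact reach_edge (Or.inr (Or.inr rfl))
      refine ⟨fun e => T' e ∨ e = t, Function.update o' t β, ?_, ?_, hst.trans (hmono hr), ?_⟩
      · rintro e (he | rfl)
        · exact hT e he
        · exact htT0
      · intro e he
        have h1 : ¬ T' e := fun h => he (Or.inl h)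
        have h2 : e ≠ t := fun h => he (Or.inr h)
        rw [Function.update_of_ne h2]
        exact ho e h1
      · rintro e (he | rfl)
        · have h3 : hd src dst (Function.update o' t β) e = hd src dst o' e := by
            unfold hd
            rw [hne e (Or.inr he)]
          rw [h3]
          exact hmono (hh e he)
        · rw [hhd]
          exact hmono hr

/-- Only edges starting in the reachable part are needed. -/
theorem reach_prune {G : E → Prop} {o : E → Bool} {a x y : V} (hax : Reach src dst G o a x)
    (h : Reach src dst G o x y) :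
    Reach src dst (fun e => G e ∧ Reach src dst G o a (tl src dst o e)) o x y := by
  induction h with
  | refl => exact ReflTransGen.refl
  | @tail y z hxy hs ih =>
    refine ReflTransGen.tail ih ?_
    obtain ⟨e, he, h1, h2⟩ := dstep_iff.1 hs
    refine dstep_iff.2 ⟨e, ⟨he, ?_⟩, h1, h2⟩
    rw [h1]
    exact hax.trans hxy

/-- A good set missing a non-bridge of `F` can be enlarged. -/
theorem exists_larger {F S : E → Prop} {o : E → Bool} (hS : Good src dst S o)
    (hSF : ∀ e, S e → F e) {e : E} (he : F e) (heS : ¬ S e)
    (hb : Conn src dst (fun e' => F e' ∧ e' ≠ e) (src e) (dst e)) :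
    ∃ (S' : E → Prop) (o' : E → Bool), Good src dst S' o' ∧ (∀ e', S' e' → F e') ∧
      (∀ e', S e' → S' e') ∧ S' e := by
  classical
  -- orient the edge from its source to its target
  have hne : ∀ e', S e' → Function.update o e true e' = o e' := by
    intro e' he'
    refine Function.update_of_ne ?_ _ _
    rintro rfl
    exact heS he'
  have hS1 : Good src dst S (Function.update o e true) := by
    intro e' he'
    have h1 : hd src dst (Function.update o e true) e' = hd src dst o e' := by
      unfold hd; rw [hne e' he']
    have h2 : tl src dst (Function.update o e true) e' = tl src dst o e' := by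
      unfold tl; rw [hne e' he']
    rw [h1, h2]
    exact reach_mono (fun _ h => h) hne (hS e' he')
  have hconn : Conn src dst (fun e' => S e' ∨ (F e' ∧ ¬ S e' ∧ e' ≠ e)) (dst e) (src e) := by
    refine ReflTransGen.mono ?_ _ _ (conn_symm hb)
    rintro x y ⟨e', he', hxy⟩
    refine ⟨e', ?_, hxy⟩
    by_cases h : S e'
    · exact Or.inl h
    · exact Or.inr ⟨he'.1, h, he'.2⟩
  obtain ⟨T', o', hT, ho, hr, hh⟩ := exists_walk_orientation hS1
    (T := fun e' => F e' ∧ ¬ S e' ∧ e' ≠ e) (fun e' he' => he'.2.1) hconn
  have heT : ¬ T' e := fun h => (hT e h).2.2 rfl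
  have hoe : o' e = true := by rw [ho e heT, Function.update_self]
  have htle : tl src dst o' e = src e := by unfold tl; simp [hoe]
  have hhde : hd src dst o' e = dst e := by unfold hd; simp [hoe]
  have hSo : ∀ e', S e' → o' e' = Function.update o e true e' := by
    intro e' he'
    exact ho e' (fun h => (hT e' h).2.1 he')
  -- the new set
  set G : E → Prop := fun e' => S e' ∨ T' e' with hG
  set S' : E → Prop := fun e' => S e' ∨ e' = e ∨
    (G e' ∧ Reach src dst G o' (dst e) (tl src dst o' e')) with hS'
  have hpr : ∀ {x y : V}, Reach src dst G o' (dst e) x → Reach src dst G o' x y →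
      Reach src dst S' o' x y := by
    intro x y h1 h2
    exact reach_mono (fun e' he' => Or.inr (Or.inr he')) (fun _ _ => rfl) (reach_prune h1 h2)
  have hba : Reach src dst S' o' (src e) (dst e) := by
    rw [← htle, ← hhde]
    exact reach_edge (Or.inr (Or.inl rfl))
  have hab : Reach src dst S' o' (dst e) (src e) := hpr ReflTransGen.refl hr
  refine ⟨S', o', ?_, ?_, fun e' he' => Or.inl he', Or.inr (Or.inl rfl)⟩
  · intro e' he'
    by_cases hcase : S e'
    · have h1 : hd src dst o' e' = hd src dst (Function.update o e true) e' := by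
        unfold hd; rw [hSo e' hcase]
      have h2 : tl src dst o' e' = tl src dst (Function.update o e true) e' := by
        unfold tl; rw [hSo e' hcase]
      rw [h1, h2]
      exact reach_mono (fun e'' he'' => Or.inl he'') hSo (hS1 e' hcase)
    · rcases he' with he' | rfl | ⟨he', hreach⟩
      · exact absurd he' hcase
      · rw [htle, hhde]
        exact hab
      · have heT' : T' e' := he'.resolve_left hcase
        have h1 : Reach src dst G o' (dst e) (hd src dst o' e') :=
          hreach.trans (reach_edge he')
        have h2 : Reach src dst S' o' (hd src dst o' e') (src e) := hpr h1 (hh e' heT')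
        exact (h2.trans hba).trans (hpr ReflTransGen.refl hreach)
  · rintro e' (he' | rfl | ⟨he' | he', _⟩)
    · exact hSF e' he'
    · exact he
    · exact hSF e' he'
    · exact (hT e' he').1

/-- There is a good set containing all the edges of `F` that are not bridges. -/
theorem exists_good {F : E → Prop} (hF : {e | F e}.Finite) :
    ∃ (S : E → Prop) (o : E → Bool), Good src dst S o ∧ (∀ e, S e → F e) ∧
      ∀ e, F e → ¬ S e → ¬ Conn src dst (fun e' => F e' ∧ e' ≠ e) (src e) (dst e) := by
  classical
  -- strong induction on the number of missing edges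
  have key : ∀ (n : ℕ) (S : E → Prop) (o : E → Bool), Good src dst S o → (∀ e, S e → F e) →
      ({e | F e ∧ ¬ S e}.ncard ≤ n) → ∃ (S : E → Prop) (o : E → Bool), Good src dst S o ∧
      (∀ e, S e → F e) ∧
      ∀ e, F e → ¬ S e → ¬ Conn src dst (fun e' => F e' ∧ e' ≠ e) (src e) (dst e) := by
    intro n
    induction n with
    | zero =>
      intro S o hS hSF hn
      refine ⟨S, o, hS, hSF, ?_⟩
      intro e he heS
      exfalso
      have hfin : {e | F e ∧ ¬ S e}.Finite := hF.subset (fun e he => he.1)
      have h0 : {e | F e ∧ ¬ S e}.ncard = 0 := Nat.le_zero.1 hn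
      rw [Set.ncard_eq_zero hfin] at h0
      have : e ∈ {e | F e ∧ ¬ S e} := ⟨he, heS⟩
      rw [h0] at this
      exact this
    | succ n ih =>
      intro S o hS hSF hn
      by_cases hall : ∀ e, F e → ¬ S e →
          ¬ Conn src dst (fun e' => F e' ∧ e' ≠ e) (src e) (dst e)
      · exact ⟨S, o, hS, hSF, hall⟩
      · push Not at hall
        obtain ⟨e, he, heS, hb⟩ := hall
        obtain ⟨S', o', hS', hSF', hsub, heS'⟩ := exists_larger hS hSF he heS hb
        refine ih S' o' hS' hSF' ?_
        have hfin : {e | F e ∧ ¬ S e}.Finite := hF.subset (fun e he => he.1)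
        have hlt : {e | F e ∧ ¬ S' e}.ncard < {e | F e ∧ ¬ S e}.ncard := by
          refine Set.ncard_lt_ncard ?_ hfin
          refine ⟨fun e' he' => ⟨he'.1, fun h => he'.2 (hsub e' h)⟩, ?_⟩
          intro hcontra
          have : e ∈ {e | F e ∧ ¬ S' e} := hcontra ⟨he, heS⟩
          exact this.2 heS'
        omega
  refine key ({e | F e ∧ ¬ False}.ncard) (fun _ => False) (fun _ => true)
    (fun e he => he.elim) (fun e he => he.elim) le_rfl

/-- The last step of a walk entering the complement of `X`. -/
theorem exists_last_crossing {F : E → Prop} {X : V → Prop} {a y : V} (hy : ¬ X y)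
    (h : Conn src dst F a y) :
    (∃ u v, X u ∧ ¬ X v ∧ UStep src dst F u v ∧
      ReflTransGen (fun p q => UStep src dst F p q ∧ ¬ X p ∧ ¬ X q) v y) ∨
    (¬ X a ∧ ReflTransGen (fun p q => UStep src dst F p q ∧ ¬ X p ∧ ¬ X q) a y) := by
  induction h using ReflTransGen.head_induction_on with
  | refl => exact Or.inr ⟨hy, ReflTransGen.refl⟩
  | @head a c hs _ ih =>
    rcases ih with h | ⟨hc, hcy⟩
    · exact Or.inl h
    · by_cases ha : X a
      · exact Or.inl ⟨a, c, ha, hc, hs, hcy⟩
      · exact Or.inr ⟨ha, ReflTransGen.head ⟨hs, ha, hc⟩ hcy⟩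

end Orient

open Orient

theorem exists_orientation (F : E → Prop) (hF : {e | F e}.Finite) (R : V → V → Prop)
    (hR : ∀ x y, R x y → Conn src dst F x y)
    (hopp : ∀ x y x' y', R x y → R x' y' → ¬ Opp src dst F x y x' y') :
    ∃ o : E → Bool, ∀ x y, R x y → ReflTransGen (DStep src dst F o) x y := by
  classical
  obtain ⟨S, o, hS, hSF, hbr⟩ := exists_good (src := src) (dst := dst) hF
  -- the orientation
  set P : E → Prop := fun e => ∃ x y, R x y ∧
    Conn src dst (fun e' => F e' ∧ e' ≠ e) x (src e) ∧
    Conn src dst (fun e' => F e' ∧ e' ≠ e) (dst e) y with hP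
  refine ⟨fun e => if S e then o e else decide (P e), ?_⟩
  set o' : E → Bool := fun e => if S e then o e else decide (P e) with ho'
  intro x y hxy
  by_contra hnot
  obtain ⟨u, v, hu, hv, ⟨e, he, hends⟩, hvy⟩ | ⟨hx, _⟩ :=
    exists_last_crossing (X := fun z => ReflTransGen (DStep src dst F o') x z) hnot (hR x y hxy)
  swap
  · exact hx ReflTransGen.refl
  -- the edge is not covered
  have heS : ¬ S e := by
    intro heS
    apply hv
    have h1 : Reach src dst S o u v := good_both hS ⟨e, heS, hends⟩
    have h2 : Reach src dst F o' u v := by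
      refine reach_mono hSF ?_ h1
      intro e' he'
      simp [ho', he']
    exact hu.trans h2
  have hbridge := hbr e he heS
  -- the connections avoiding the edge
  have hxu : Conn src dst (fun e' => F e' ∧ e' ≠ e) x u := by
    have hgen : ∀ z, ReflTransGen (DStep src dst F o') x z →
        Conn src dst (fun e' => F e' ∧ e' ≠ e) x z := by
      intro z hz
      induction hz with
      | refl => exact ReflTransGen.refl
      | @tail p q hp hs ih =>
        refine ReflTransGen.tail ih ?_
        have hq : ReflTransGen (DStep src dst F o') x q := ReflTransGen.tail hp hs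
        obtain ⟨e', he', h⟩ := ustep_of_dstep hs
        refine ⟨e', ⟨he', ?_⟩, h⟩
        rintro rfl
        -- one of the ends of the edge is `v`
        rcases hends with ⟨h1, h2⟩ | ⟨h1, h2⟩ <;> rcases h with ⟨h3, h4⟩ | ⟨h3, h4⟩
        · exact hv (by rw [← h2, h4]; exact hq)
        · exact hv (by rw [← h2, h4]; exact hp)
        · exact hv (by rw [← h1, h3]; exact hp)
        · exact hv (by rw [← h1, h3]; exact hq)
    exact hgen u hu
  have hvy' : Conn src dst (fun e' => F e' ∧ e' ≠ e) v y := by
    refine ReflTransGen.mono ?_ _ _ hvy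
    rintro p q ⟨⟨e', he', h⟩, hp, hq⟩
    refine ⟨e', ⟨he', ?_⟩, h⟩
    rintro rfl
    rcases hends with ⟨h1, h2⟩ | ⟨h1, h2⟩ <;> rcases h with ⟨h3, h4⟩ | ⟨h3, h4⟩
    · exact hp (by rw [← h3, h1]; exact hu)
    · exact hq (by rw [← h3, h1]; exact hu)
    · exact hq (by rw [← h4, h2]; exact hu)
    · exact hp (by rw [← h4, h2]; exact hu)
  have hnuv : ¬ Conn src dst (fun e' => F e' ∧ e' ≠ e) u v := by
    intro h
    rcases hends with ⟨h1, h2⟩ | ⟨h1, h2⟩
    · exact hbridge (by rw [h1, h2]; exact h)
    · exact hbridge (by rw [h1, h2]; exact conn_symm h)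
  have hnxy : ¬ Conn src dst (fun e' => F e' ∧ e' ≠ e) x y := by
    intro h
    exact hnuv (conn_trans (conn_symm hxu) (conn_trans h (conn_symm hvy')))
  have hoe : o' e = decide (P e) := by simp [ho', heS]
  rcases hends with ⟨h1, h2⟩ | ⟨h1, h2⟩
  · have hPe : P e := ⟨x, y, hxy, by rw [h1]; exact hxu, by rw [h2]; exact hvy'⟩
    apply hv
    refine ReflTransGen.tail hu ⟨e, he, Or.inl ⟨?_, h1, h2⟩⟩
    rw [hoe]
    simpa using hPe
  · by_cases hPe : P e
    · obtain ⟨x', y', hxy', hx', hy'⟩ := hPe
      refine hopp x y x' y' hxy hxy' ⟨e, he, hnxy, ?_, ?_⟩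
      · refine conn_trans hxu ?_
        rw [← h2]
        exact hy'
      · refine conn_trans hx' ?_
        rw [h1]
        exact hvy'
    · apply hv
      refine ReflTransGen.tail hu ⟨e, he, Or.inr ⟨?_, h1, h2⟩⟩
      rw [hoe]
      simpa using hPe

theorem not_opp_of_orientation (F : E → Prop) (o : E → Bool) {x y x' y' : V}
    (h : ReflTransGen (DStep src dst F o) x y) (h' : ReflTransGen (DStep src dst F o) x' y') :
    ¬ Opp src dst F x y x' y' := by
  rintro ⟨e, he, hn, h1, h2⟩
  have key : ∀ {a b : V}, ReflTransGen (DStep src dst F o) a b →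
      Conn src dst (fun e' => F e' ∧ e' ≠ e) a b ∨
      (Conn src dst (fun e' => F e' ∧ e' ≠ e) a (tl src dst o e) ∧
        Conn src dst (fun e' => F e' ∧ e' ≠ e) (hd src dst o e) b) := by
    intro a b hab
    induction hab with
    | refl => exact Or.inl ReflTransGen.refl
    | @tail p q hp hs ih =>
      obtain ⟨e', he', h3, h4⟩ := dstep_iff.1 hs
      by_cases hee : e' = e
      · subst hee
        right
        rw [h4]
        refine ⟨?_, ReflTransGen.refl⟩
        rcases ih with ih | ih
        · rw [h3]; exact ih
        · exact ih.1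
      · have hst : UStep src dst (fun e' => F e' ∧ e' ≠ e) p q :=
          ustep_of_dstep (dstep_iff.2 ⟨e', ⟨he', hee⟩, h3, h4⟩)
        rcases ih with ih | ih
        · exact Or.inl (ReflTransGen.tail ih hst)
        · exact Or.inr ⟨ih.1, ReflTransGen.tail ih.2 hst⟩
  rcases key h with hc | ⟨hc1, hc2⟩
  · exact hn hc
  · rcases key h' with hd | ⟨hd1, hd2⟩
    · exact hn (conn_trans h1 (conn_trans (conn_symm hd) h2))
    · exact hn (conn_trans hc1 (conn_trans (conn_symm hd1) h2))

end Pool.Agent.DPO
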