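import Pool.Agent.DPO.Bridge
import Pool.Agent.DPO.AlgPT
import Pool.Agent.DPO.Orient
import Pool.Agent.PT.Bridge

/-!
# Distance-preserving orientations for a fixed number of pairs: the main theorem
-/

namespace Pool.Agent.DPO

open Pool.Agent.PT Relation

variable {k : ℕ}

/-- Distance-preserving orientations correspond to solutions of the abstract problem. -/
theorem Inst.solution_iff (x : Inst k) : x.HasDistancePreservingOrientation ↔
    ∃ P, x.net.abs.Solution P := by
  rw [x.orientation_iff]
  constructor
  · rintro ⟨o, ho⟩
    exact Net.solution_of_orientation (fun o _ _ _ _ h1 h2 => not_opp_of_orientation _ _ _ o h1 h2) o ho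
  · rintro ⟨P, hP⟩
    refine Net.orientation_of_solution (fun R hR hopp => ?_) hP
    exact exists_orientation _ _ x.net.Z (x.net.fin.subset fun e he => he.1) R hR hopp

/-- the number of blocks -/
noncomputable def blk (k : ℕ) : ℕ :=
  Fintype.card (Finset (Fin k) × (Abs.Line (Fin k) → Option SignType))

theorem Inst.algB_iff (x : Inst k) :
    algB k (blk k) x.ctx = true ↔ x.HasDistancePreservingOrientation := by
  rw [x.solution_iff]
  exact DPO.algB_iff x.good (by simp [blk])

/-- the algorithm on words -/
noncomputable def decideWord (k : ℕ) (l : List Bool) : List Bool :=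
  [algB k (blk k) (ctxOf (parse k l))]

theorem decideWord_polyTime (k : ℕ) : PolyTime (decideWord k) := by
  have h1 : PolyTime (fun l : List Bool => ctxOf (parse k l)) :=
    ctxOf_polyTime.comp (parse_polyTime k)
  have h2 : PolyTime (fun l : List Bool => algB k (blk k) (ctxOf (parse k l))) :=
    (algB_polyTime k (blk k)).comp h1
  unfold decideWord
  exact PolyTime.cons h2 (PolyTime.const _)

theorem decideWord_encode (x : Inst k) [Decidable x.HasDistancePreservingOrientation] :
    decideWord k x.encode = [decide x.HasDistancePreservingOrientation] := by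
  rw [decideWord, parse_encode]
  congr 1
  rw [Bool.eq_iff_iff, decide_eq_true_eq]
  exact x.algB_iff

/-- The input word determines the input. -/
theorem Inst.encode_injective : Function.Injective (Inst.encode (k := k)) := by
  intro x y h
  have h1 : x.raw = y.raw := by rw [← parse_encode, ← parse_encode, h]
  obtain ⟨n, E, hE, p⟩ := x
  obtain ⟨n', E', hE', p'⟩ := y
  simp only [Inst.raw, Prod.mk.injEq] at h1
  obtain ⟨rfl, h2, h3⟩ := h1
  have h4 : E = E' := by
    refine List.map_injective_iff.mpr ?_ h2
    rintro ⟨a, b, c, d⟩ ⟨a', b', c', d'⟩ h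
    simp only [Prod.mk.injEq] at h
    obtain ⟨h5, h6, h7, h8⟩ := h
    have h7' : c = c' := by rw [← bval_bits c, h7, bval_bits]
    have h8' : d = d' := by rw [← bval_bits d, h8, bval_bits]
    rw [Fin.ext h5, Fin.ext h6, h7', h8']
  subst h4
  have h5 : List.ofFn p = List.ofFn p' := by
    refine List.map_injective_iff.mpr ?_ h3
    rintro ⟨a, b⟩ ⟨a', b'⟩ h
    simp only [Prod.mk.injEq] at h
    rw [Fin.ext h.1, Fin.ext h.2]
  have h6 : p = p' := List.ofFn_injective h5
  subst h6
  rfl

/-- **Main theorem.** -/
theorem main (k : ℕ) [∀ x : Inst k, Decidable x.HasDistancePreservingOrientation] :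
    Nonempty (Turing.TM2ComputableInPolyTime (Inst.encode (k := k)) (fun b : Bool => [b])
      (fun x : Inst k => decide x.HasDistancePreservingOrientation)) :=
  (decideWord_polyTime k).tm2_string _ _ _ fun x => decideWord_encode x

end Pool.Agent.DPO
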