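import Pool.Agent.DPO.Abs

/-!
# Types of nodes, convexity, and the co-location lemma
-/

namespace Pool.Agent.DPO

open Relation

namespace Abs

variable {κ N : Type*} (A : Abs κ N)

/-- A line index: two coordinates and a sign. -/
abbrev Line (κ : Type*) := κ × κ × Bool

/-- The affine function of a line. -/
def q (c : Line κ → ℤ) (t : Line κ) (x : N) : ℤ :=
  A.δ t.1 x + (if t.2.2 then A.δ t.2.1 x else - A.δ t.2.1 x) - c t

/-- Two coordinates are tied at a node. -/
def Adj (c : Line κ → ℤ) (x : N) (a b : κ) : Prop :=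
  ∃ s : Bool, A.q c (a, b, s) x = 0 ∨ A.q c (b, a, s) x = 0

open Classical in
/-- The set of coordinates tied to `l` at a node. -/
noncomputable def comp [Fintype κ] (c : Line κ → ℤ) (l : κ) (x : N) : Finset κ :=
  Finset.univ.filter (fun m => ReflTransGen (A.Adj c x) l m)

open Classical in
/-- The type of a node with base `l`. -/
noncomputable def tp [Fintype κ] (c : Line κ → ℤ) (l : κ) (x : N) :
    Finset κ × (Line κ → Option SignType) :=
  (A.comp c l x, fun t => if t.1 ∈ A.comp c l x ∨ t.2.1 ∈ A.comp c l x then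
    some (SignType.sign (A.q c t x)) else none)

set_option linter.unusedSectionVars false

variable {A}

theorem Adj.symm {c : Line κ → ℤ} {x : N} {a b : κ} (h : A.Adj c x a b) : A.Adj c x b a := by
  obtain ⟨s, h⟩ := h
  exact ⟨s, h.symm⟩

variable [Fintype κ] {c : Line κ → ℤ}

theorem mem_comp {l m : κ} {x : N} : m ∈ A.comp c l x ↔ ReflTransGen (A.Adj c x) l m := by
  simp [comp]

theorem self_mem_comp {l : κ} {x : N} : l ∈ A.comp c l x := mem_comp.mpr ReflTransGen.refl

theorem comp_eq_of_adj {l m : κ} {x : N} (h : A.Adj c x l m) : A.comp c l x = A.comp c m x := by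
  ext y
  rw [mem_comp, mem_comp]
  exact ⟨fun h' => (ReflTransGen.single h.symm).trans h', fun h' => (ReflTransGen.single h).trans h'⟩

theorem comp_congr {l : κ} {x y : N} (h : ∀ m, A.δ m x = A.δ m y) :
    A.comp c l x = A.comp c l y := by
  have : A.Adj c x = A.Adj c y := by
    funext a b
    simp only [Adj, q, h]
  ext m
  rw [mem_comp, mem_comp, this]

theorem comp_eq_of_tp {l : κ} {x y : N} (h : A.tp c l x = A.tp c l y) :
    A.comp c l x = A.comp c l y := congrArg Prod.fst h

theorem sign_eq_of_tp {l : κ} {x y : N} (h : A.tp c l x = A.tp c l y) {t : Line κ}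
    (ht : t.1 ∈ A.comp c l x ∨ t.2.1 ∈ A.comp c l x) :
    SignType.sign (A.q c t x) = SignType.sign (A.q c t y) := by
  have h1 := congrFun (congrArg Prod.snd h) t
  simp only [tp] at h1
  rw [if_pos ht, if_pos (by rwa [← comp_eq_of_tp h])] at h1
  exact Option.some.inj h1

/-- All coordinates in the component are tight between two nodes of the same type. -/
theorem tight_of_tp {l : κ} {x y : N} (hxy : A.Le l x y) (h : A.tp c l x = A.tp c l y) {m : κ}
    (hm : m ∈ A.comp c l x) : |A.δ m y - A.δ m x| = A.δ l y - A.δ l x := by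
  rw [mem_comp] at hm
  induction hm with
  | refl => exact abs_of_nonneg (by have := hxy.le; linarith)
  | @tail a b hab hb ih =>
    have ha : a ∈ A.comp c l x := mem_comp.mpr hab
    obtain ⟨s, hs⟩ := hb
    rw [← ih]
    rcases hs with hs | hs
    · have h1 := sign_eq_of_tp h (t := (a, b, s)) (Or.inl ha)
      rw [hs, sign_zero, eq_comm, sign_eq_zero_iff] at h1
      simp only [q] at hs h1
      cases s
      · simp only [Bool.false_eq_true, if_false] at hs h1
        congr 1; linarith
      · simp only [if_true] at hs h1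
        rw [← abs_neg]
        congr 1; linarith
    · have h1 := sign_eq_of_tp h (t := (b, a, s)) (Or.inr ha)
      rw [hs, sign_zero, eq_comm, sign_eq_zero_iff] at h1
      simp only [q] at hs h1
      cases s
      · simp only [Bool.false_eq_true, if_false] at hs h1
        congr 1; linarith
      · simp only [if_true] at hs h1
        rw [← abs_neg]
        congr 1; linarith

/-- If the `m`-coordinate is tight between `x` and `y`, then for `z` in between the
values of a line through `m` are between those at `x` and `y`. -/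
theorem q_between {l m : κ} {x y z : N} (hxz : A.Le l x z) (hzy : A.Le l z y)
    (hm : |A.δ m y - A.δ m x| = A.δ l y - A.δ l x) {t : Line κ} (ht : t.1 = m ∨ t.2.1 = m) :
    (A.q c t x ≤ A.q c t z ∧ A.q c t z ≤ A.q c t y) ∨
    (A.q c t y ≤ A.q c t z ∧ A.q c t z ≤ A.q c t x) := by
  obtain ⟨a, b, s⟩ := t
  simp only at ht
  have h1 := abs_le.mp (hxz a)
  have h2 := abs_le.mp (hzy a)
  have h3 := abs_le.mp (hxz b)
  have h4 := abs_le.mp (hzy b)
  have h5 := abs_le.mp (hxz m)
  have h6 := abs_le.mp (hzy m)
  simp only [q]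
  rcases abs_choice (A.δ m y - A.δ m x) with h | h <;> rw [h] at hm <;>
  rcases ht with rfl | rfl <;> cases s <;> simp only [Bool.false_eq_true, if_false, if_true] <;>
  first
    | (left; constructor <;> linarith)
    | (right; constructor <;> linarith)

theorem sign_eq_of_between {a b z : ℤ} (h : SignType.sign a = SignType.sign b)
    (hz : (a ≤ z ∧ z ≤ b) ∨ (b ≤ z ∧ z ≤ a)) : SignType.sign z = SignType.sign a := by
  rcases lt_trichotomy a 0 with ha | ha | ha
  · rw [sign_neg ha, eq_comm, sign_eq_neg_one_iff] at h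
    rw [sign_neg ha, sign_eq_neg_one_iff]
    rcases hz with hz | hz <;> omega
  · subst ha
    rw [sign_zero, eq_comm, sign_eq_zero_iff] at h
    have : z = 0 := by rcases hz with hz | hz <;> omega
    rw [this]
  · rw [sign_pos ha, eq_comm, sign_eq_one_iff] at h
    rw [sign_pos ha, sign_eq_one_iff]
    rcases hz with hz | hz <;> omega

/-- Convexity of types. -/
theorem tp_convex {l : κ} {x y z : N} (hxz : A.Le l x z) (hzy : A.Le l z y)
    (h : A.tp c l x = A.tp c l y) : A.tp c l z = A.tp c l x := by
  have hxy := hxz.trans hzy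
  have key : ∀ t : Line κ, (t.1 ∈ A.comp c l x ∨ t.2.1 ∈ A.comp c l x) →
      SignType.sign (A.q c t z) = SignType.sign (A.q c t x) := by
    intro t ht
    have h1 := sign_eq_of_tp h ht
    refine sign_eq_of_between h1 ?_
    rcases ht with ht | ht
    · exact q_between hxz hzy (tight_of_tp hxy h ht) (Or.inl rfl)
    · exact q_between hxz hzy (tight_of_tp hxy h ht) (Or.inr rfl)
  have hadj : ∀ a ∈ A.comp c l x, ∀ b, A.Adj c z a b ↔ A.Adj c x a b := by
    intro a ha b
    constructor
    · rintro ⟨s, hs | hs⟩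
      · refine ⟨s, Or.inl ?_⟩
        have := key (a, b, s) (Or.inl ha)
        rwa [hs, sign_zero, eq_comm, sign_eq_zero_iff] at this
      · refine ⟨s, Or.inr ?_⟩
        have := key (b, a, s) (Or.inr ha)
        rwa [hs, sign_zero, eq_comm, sign_eq_zero_iff] at this
    · rintro ⟨s, hs | hs⟩
      · refine ⟨s, Or.inl ?_⟩
        have := key (a, b, s) (Or.inl ha)
        rwa [hs, sign_zero, sign_eq_zero_iff] at this
      · refine ⟨s, Or.inr ?_⟩
        have := key (b, a, s) (Or.inr ha)
        rwa [hs, sign_zero, sign_eq_zero_iff] at this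
  have hcomp : A.comp c l z = A.comp c l x := by
    ext m
    constructor
    · intro hm
      rw [mem_comp] at hm
      induction hm with
      | refl => exact self_mem_comp
      | @tail a b _ hb ih =>
        have := (hadj a ih b).mp hb
        exact mem_comp.mpr ((mem_comp.mp ih).tail this)
    · intro hm
      rw [mem_comp] at hm
      induction hm with
      | refl => exact self_mem_comp
      | @tail a b hab hb ih =>
        have := (hadj a (mem_comp.mpr hab) b).mpr hb
        exact mem_comp.mpr ((mem_comp.mp ih).tail this)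
  refine Prod.ext hcomp ?_
  funext t
  simp only [tp]
  by_cases ht : t.1 ∈ A.comp c l x ∨ t.2.1 ∈ A.comp c l x
  · have ht' : t.1 ∈ A.comp c l z ∨ t.2.1 ∈ A.comp c l z := by rwa [hcomp]
    rw [if_pos ht, if_pos ht', key t ht]
  · have ht' : ¬ (t.1 ∈ A.comp c l z ∨ t.2.1 ∈ A.comp c l z) := by rwa [hcomp]
    rw [if_neg ht, if_neg ht']

/-! ### Co-location -/

/-- The separation property for the paths `l`, `m` and the two lines `(l, m, ±)`. -/
structure Sep (A : Abs κ N) (c : Line κ → ℤ) (P : κ → List N) (l m : κ) : Prop where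
  U : ∀ x ∈ P l, ∀ y ∈ P m, A.q c (l, m, true) x < 0 → A.q c (l, m, true) y < 0 →
    A.q c (l, m, false) x ≤ A.q c (l, m, false) y
  D : ∀ x ∈ P l, ∀ y ∈ P m, 0 < A.q c (l, m, true) x → 0 < A.q c (l, m, true) y →
    A.q c (l, m, false) y ≤ A.q c (l, m, false) x
  U' : ∀ x ∈ P l, ∀ y ∈ P m, A.q c (l, m, false) x < 0 → A.q c (l, m, false) y < 0 →
    A.q c (l, m, true) x ≤ A.q c (l, m, true) y
  D' : ∀ x ∈ P l, ∀ y ∈ P m, 0 < A.q c (l, m, false) x → 0 < A.q c (l, m, false) y →
    A.q c (l, m, true) y ≤ A.q c (l, m, true) x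

theorem q_true (c : Line κ → ℤ) (l m : κ) (x : N) :
    A.q c (l, m, true) x = A.δ l x + A.δ m x - c (l, m, true) := by simp [q]

theorem q_false (c : Line κ → ℤ) (l m : κ) (x : N) :
    A.q c (l, m, false) x = A.δ l x - A.δ m x - c (l, m, false) := by simp [q]; ring

theorem neg_iff_of_sign {a b : ℤ} (h : SignType.sign a = SignType.sign b) : a < 0 ↔ b < 0 := by
  rw [← sign_eq_neg_one_iff, ← sign_eq_neg_one_iff, h]

theorem pos_iff_of_sign {a b : ℤ} (h : SignType.sign a = SignType.sign b) : 0 < a ↔ 0 < b := by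
  rw [← sign_eq_one_iff, ← sign_eq_one_iff, h]

/-- Strictly between in the order of `l`. -/
structure Btw (A : Abs κ N) (l : κ) (a x b : N) : Prop where
  le1 : A.Le l a x
  le2 : A.Le l x b
  lt1 : A.δ l a < A.δ l x
  lt2 : A.δ l x < A.δ l b

/-- **Co-location lemma.** -/
theorem adj_of_coloc {P : κ → List N} {l m : κ} (hsep : Sep A c P l m)
    {a x b : N} (ha : a ∈ P l) (hb : b ∈ P l) (hx : A.Btw l a x b)
    (htp : A.tp c l a = A.tp c l b)
    {a' x' b' : N} (ha' : a' ∈ P m) (hb' : b' ∈ P m) (hx' : A.Btw m a' x' b')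
    (htp' : A.tp c m a' = A.tp c m b') (hloc : ∀ i, A.δ i x = A.δ i x') :
    A.Adj c x l m := by
  by_contra hadj
  have hX : A.q c (l, m, true) x ≠ 0 := fun h => hadj ⟨true, Or.inl h⟩
  have hY : A.q c (l, m, false) x ≠ 0 := fun h => hadj ⟨false, Or.inl h⟩
  have sX := sign_eq_of_tp htp (t := (l, m, true)) (Or.inl self_mem_comp)
  have sY := sign_eq_of_tp htp (t := (l, m, false)) (Or.inl self_mem_comp)
  have sXx := sign_eq_of_tp (tp_convex hx.le1 hx.le2 htp) (t := (l, m, true))
    (Or.inl self_mem_comp)
  have sYx := sign_eq_of_tp (tp_convex hx.le1 hx.le2 htp) (t := (l, m, false))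
    (Or.inl self_mem_comp)
  have sX' := sign_eq_of_tp htp' (t := (l, m, true)) (Or.inr self_mem_comp)
  have sY' := sign_eq_of_tp htp' (t := (l, m, false)) (Or.inr self_mem_comp)
  have sXx' := sign_eq_of_tp (tp_convex hx'.le1 hx'.le2 htp') (t := (l, m, true))
    (Or.inr self_mem_comp)
  have sYx' := sign_eq_of_tp (tp_convex hx'.le1 hx'.le2 htp') (t := (l, m, false))
    (Or.inr self_mem_comp)
  have e1 : A.q c (l, m, true) x' = A.q c (l, m, true) x := by
    rw [q_true, q_true, hloc l, hloc m]
  have e2 : A.q c (l, m, false) x' = A.q c (l, m, false) x := by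
    rw [q_false, q_false, hloc l, hloc m]
  rw [e1] at sXx'
  rw [e2] at sYx'
  -- monotonicity
  have m1 := abs_le.mp (hx.le1 m)
  have m2 := abs_le.mp (hx.le2 m)
  have m3 := abs_le.mp (hx'.le1 l)
  have m4 := abs_le.mp (hx'.le2 l)
  have l1 := hx.lt1
  have l2 := hx.lt2
  have l3 := hx'.lt1
  have l4 := hx'.lt2
  have hl := hloc l
  have hm := hloc m
  rcases lt_or_gt_of_ne hX with hX | hX <;> rcases lt_or_gt_of_ne hY with hY | hY
  · have hXa := (neg_iff_of_sign sXx).mp hX
    have hXb := (neg_iff_of_sign sX).mp hXa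
    have hXa' := (neg_iff_of_sign sXx').mp hX
    have hXb' := (neg_iff_of_sign sX').mp hXa'
    have hYa := (neg_iff_of_sign sYx).mp hY
    have hYb := (neg_iff_of_sign sY).mp hYa
    have hYa' := (neg_iff_of_sign sYx').mp hY
    have h1 := hsep.U b hb b' hb' hXb hXb'
    have h2 := hsep.U' b hb a' ha' hYb hYa'
    simp only [q_true, q_false] at h1 h2
    omega
  · have hXa := (neg_iff_of_sign sXx).mp hX
    have hXb := (neg_iff_of_sign sX).mp hXa
    have hXa' := (neg_iff_of_sign sXx').mp hX
    have hXb' := (neg_iff_of_sign sX').mp hXa'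
    have hYa := (pos_iff_of_sign sYx).mp hY
    have hYa' := (pos_iff_of_sign sYx').mp hY
    have hYb' := (pos_iff_of_sign sY').mp hYa'
    have h1 := hsep.U b hb b' hb' hXb hXb'
    have h2 := hsep.D' a ha b' hb' hYa hYb'
    simp only [q_true, q_false] at h1 h2
    omega
  · have hXa := (pos_iff_of_sign sXx).mp hX
    have hXa' := (pos_iff_of_sign sXx').mp hX
    have hYa := (neg_iff_of_sign sYx).mp hY
    have hYb := (neg_iff_of_sign sY).mp hYa
    have hYa' := (neg_iff_of_sign sYx').mp hY
    have h1 := hsep.D a ha a' ha' hXa hXa'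
    have h2 := hsep.U' b hb a' ha' hYb hYa'
    simp only [q_true, q_false] at h1 h2
    omega
  · have hXa := (pos_iff_of_sign sXx).mp hX
    have hXa' := (pos_iff_of_sign sXx').mp hX
    have hYa := (pos_iff_of_sign sYx).mp hY
    have hYa' := (pos_iff_of_sign sYx').mp hY
    have hYb' := (pos_iff_of_sign sY').mp hYa'
    have h1 := hsep.D a ha a' ha' hXa hXa'
    have h2 := hsep.D' a ha b' hb' hYa hYb'
    simp only [q_true, q_false] at h1 h2
    omega

/-- Existence of the constants. -/
theorem Solution.exists_sep {P : κ → List N} (h : A.Solution P) :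
    ∃ c : Line κ → ℤ, ∀ l m, l ≠ m → Sep A c P l m := by
  have key : ∀ l m, ∃ a b : ℤ,
      (∀ x ∈ P l, ∀ y ∈ P m, A.δ l x + A.δ m x < a → A.δ l y + A.δ m y < a →
        A.δ l x - A.δ m x ≤ A.δ l y - A.δ m y) ∧
      (∀ x ∈ P l, ∀ y ∈ P m, a < A.δ l x + A.δ m x → a < A.δ l y + A.δ m y →
        A.δ l y - A.δ m y ≤ A.δ l x - A.δ m x) ∧
      (∀ x ∈ P l, ∀ y ∈ P m, A.δ l x - A.δ m x < b → A.δ l y - A.δ m y < b →
        A.δ l x + A.δ m x ≤ A.δ l y + A.δ m y) ∧
      (∀ x ∈ P l, ∀ y ∈ P m, b < A.δ l x - A.δ m x → b < A.δ l y - A.δ m y →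
        A.δ l y + A.δ m y ≤ A.δ l x + A.δ m x) := by
    intro l m
    obtain ⟨a, ha1, ha2⟩ := DPO.exists_sep (P l) (P m) (fun x => A.δ l x + A.δ m x)
      (fun x => A.δ l x - A.δ m x) (by
        intro x hx y hy hlt
        rcases h.comparable l hx hy with hc | hc
        · have := abs_le.mp (hc m)
          omega
        · have := abs_le.mp (hc m)
          omega) (by
        intro x hx y hy hlt
        rcases h.comparable m hx hy with hc | hc
        · have := abs_le.mp (hc l)
          omega
        · have := abs_le.mp (hc l)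
          omega)
    obtain ⟨b, hb1, hb2⟩ := DPO.exists_sep (P l) (P m) (fun x => A.δ l x - A.δ m x)
      (fun x => A.δ l x + A.δ m x) (by
        intro x hx y hy hlt
        rcases h.comparable l hx hy with hc | hc
        · have := abs_le.mp (hc m)
          omega
        · have := abs_le.mp (hc m)
          omega) (by
        intro x hx y hy hlt
        rcases h.comparable m hx hy with hc | hc
        · have := abs_le.mp (hc l)
          omega
        · have := abs_le.mp (hc l)
          omega)
    exact ⟨a, b, ha1, ha2, hb1, hb2⟩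
  choose a b hab using key
  refine ⟨fun t => if t.2.2 then a t.1 t.2.1 else b t.1 t.2.1, fun l m _ => ?_⟩
  obtain ⟨h1, h2, h3, h4⟩ := hab l m
  constructor
  · intro x hx y hy hxc hyc
    simp only [q_true, q_false, if_true, Bool.false_eq_true, if_false] at hxc hyc ⊢
    have := h1 x hx y hy (by linarith) (by linarith)
    linarith
  · intro x hx y hy hxc hyc
    simp only [q_true, q_false, if_true, Bool.false_eq_true, if_false] at hxc hyc ⊢
    have := h2 x hx y hy (by linarith) (by linarith)
    linarith
  · intro x hx y hy hxc hyc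
    simp only [q_true, q_false, if_true, Bool.false_eq_true, if_false] at hxc hyc ⊢
    have := h3 x hx y hy (by linarith) (by linarith)
    linarith
  · intro x hx y hy hxc hyc
    simp only [q_true, q_false, if_true, Bool.false_eq_true, if_false] at hxc hyc ⊢
    have := h4 x hx y hy (by linarith) (by linarith)
    linarith

end Abs

end Pool.Agent.DPO
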